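import Mathlib
import Pool.Agent.Lib.MP_89bcae_ag.Tow.M01

section

open Polynomial IsDedekindDomain

open scoped Classical

set_option linter.unusedSectionVars false

namespace Pool.Agent.Lib.MP_89bcae_ag.Sup

universe u

variable {k F L Ω : Type u} [Field k] [Field F] [Algebra k F] [Field L] [Algebra F[X] L]
  [Field Ω] [Algebra L Ω] [IsAlgClosure k F] [IsFractionRing F[X] L] [IsAlgClosure L Ω]
  {ℓ : ℕ} {g D : k[X]} [hG : IsGood ℓ (cOver k F L Ω g D)] {N : Subgroup (Ω ≃ₐ[L] Ω)}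

lemma act_apply1 (γ : AutO k F L Ω) (c : Coch ℓ k F L Ω g D) (n : ℕ) :
    act γ c n = act1 γ (c n) := rfl

lemma act1_one (x : Ch ℓ k F L Ω g D) : act1 (1 : AutO k F L Ω) x = x := by
  funext σ
  unfold act1
  rw [inv_one, map_one, map_one, MulAut.one_apply]
  exact symJ_one _

lemma act1_mul (γ γ' : AutO k F L Ω) (x : Ch ℓ k F L Ω g D) :
    act1 (γ * γ') x = act1 γ (act1 γ' x) := by
  funext σ
  unfold act1
  rw [mul_inv_rev, map_mul, map_mul, MulAut.mul_apply]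
  exact symJ_mul _ _ _

lemma act1_add (γ : AutO k F L Ω) (x y : Ch ℓ k F L Ω g D) :
    act1 γ (x + y) = act1 γ x + act1 γ y := by
  funext σ
  exact map_add (symJ (toSym g D γ)) _ _

lemma act1_sub (γ : AutO k F L Ω) (x y : Ch ℓ k F L Ω g D) :
    act1 γ (x - y) = act1 γ x - act1 γ y := by
  funext σ
  exact map_sub (symJ (toSym g D γ)) _ _

lemma act1_neg (γ : AutO k F L Ω) (x : Ch ℓ k F L Ω g D) : act1 γ (-x) = -act1 γ x := by
  funext σ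
  exact map_neg (symJ (toSym g D γ)) _

lemma act1_nsmul (γ : AutO k F L Ω) (n : ℕ) (x : Ch ℓ k F L Ω g D) :
    act1 γ (n • x) = n • act1 γ x := by
  funext σ
  exact map_nsmul (symJ (toSym g D γ)) _ _

lemma act1_zJ (γ : AutO k F L Ω) (ζ : k) (hζ : (zA F L Ω ζ) ^ ℓ = 1)
    (x : Ch ℓ k F L Ω g D) :
    act1 γ (fun σ => zJ (zA F L Ω ζ) hζ (x σ)) = fun σ => zJ (zA F L Ω ζ) hζ (act1 γ x σ) := by
  funext σ
  exact (zJ_symJ (zA F L Ω ζ) hζ (toSym g D γ) (zA_fixed ζ γ) _).symm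

lemma act1_vJ (γ : AutO k F L Ω) (ζ : k) (hζ : (zA F L Ω ζ) ^ ℓ = 1)
    (x : Ch ℓ k F L Ω g D) :
    act1 γ (fun σ => vJ (zA F L Ω ζ) hζ (x σ)) = fun σ => vJ (zA F L Ω ζ) hζ (act1 γ x σ) := by
  funext σ
  exact (vJ_symJ (zA F L Ω ζ) hζ (toSym g D γ) (zA_fixed ζ γ) _).symm

/-- `act1 γ x` on `N` depends only on `x` on `N`. -/
lemma act1_congr (hN : Nrm k F N) (γ : AutO k F L Ω) {x y : Ch ℓ k F L Ω g D}
    (h : ∀ σ ∈ N, x σ = y σ) : ∀ σ ∈ N, act1 γ x σ = act1 γ y σ := by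
  intro σ hσ
  unfold act1
  rw [h _ (hN γ⁻¹ σ hσ)]

lemma cob_apply (A : JacOver ℓ (curvePoly k F L g D) Ω) (σ : Ω ≃ₐ[L] Ω) :
    cob A σ = symJ (toSym g D (galA k F σ)) A - A := rfl

lemma cob_zero : cob (0 : JacOver ℓ (curvePoly k F L g D) Ω) = (0 : Ch ℓ k F L Ω g D) := by
  funext σ
  rw [cob_apply, map_zero, sub_zero]
  rfl

lemma cob_add (A B : JacOver ℓ (curvePoly k F L g D) Ω) :
    cob (A + B) = cob A + cob B := by
  funext σ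
  change cob (A + B) σ = cob A σ + cob B σ
  rw [cob_apply, cob_apply, cob_apply, map_add]
  abel

lemma cob_neg (A : JacOver ℓ (curvePoly k F L g D) Ω) : cob (-A) = -cob A := by
  funext σ
  change cob (-A) σ = -cob A σ
  rw [cob_apply, cob_apply, map_neg]
  abel

lemma cob_sub (A B : JacOver ℓ (curvePoly k F L g D) Ω) :
    cob (A - B) = cob A - cob B := by
  funext σ
  change cob (A - B) σ = cob A σ - cob B σ
  rw [cob_apply, cob_apply, cob_apply, map_sub]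
  abel

lemma cob_nsmul (n : ℕ) (A : JacOver ℓ (curvePoly k F L g D) Ω) : cob (n • A) = n • cob A := by
  funext σ
  change cob (n • A) σ = n • cob A σ
  rw [cob_apply, cob_apply, map_nsmul, smul_sub]

lemma act1_cob (γ : AutO k F L Ω) (A : JacOver ℓ (curvePoly k F L g D) Ω) :
    act1 γ (cob A) = cob (symJ (toSym g D γ) A) := by
  funext σ
  unfold act1
  rw [cob_apply, cob_apply, map_sub, galA_conjG, ← symJ_mul, ← symJ_mul, ← map_mul, ← map_mul]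
  have h : γ * (γ⁻¹ * galA k F σ * γ⁻¹⁻¹) = galA k F σ * γ := by group
  rw [h]

lemma zJ_cob (ζ : k) (hζ : (zA F L Ω ζ) ^ ℓ = 1) (A : JacOver ℓ (curvePoly k F L g D) Ω)
    (σ : Ω ≃ₐ[L] Ω) : zJ (zA F L Ω ζ) hζ (cob A σ) = cob (zJ (zA F L Ω ζ) hζ A) σ := by
  rw [cob_apply, cob_apply, map_sub, zJ_symJ (zA F L Ω ζ) hζ (toSym g D (galA k F σ)) (zA_fixed ζ (galA k F σ))]

lemma vJ_cob (ζ : k) (hζ : (zA F L Ω ζ) ^ ℓ = 1) (A : JacOver ℓ (curvePoly k F L g D) Ω)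
    (σ : Ω ≃ₐ[L] Ω) : vJ (zA F L Ω ζ) hζ (cob A σ) = cob (vJ (zA F L Ω ζ) hζ A) σ := by
  rw [cob_apply, cob_apply, vJ_sub, vJ_symJ (zA F L Ω ζ) hζ (toSym g D (galA k F σ)) (zA_fixed ζ (galA k F σ))]

lemma C1s.zero' : C1s N (0 : Ch ℓ k F L Ω g D) where
  cocycle σ _ τ _ := by
    change (0 : JacOver ℓ (curvePoly k F L g D) Ω) = 0 + symJ (toSym g D (galA k F σ)) 0
    rw [map_zero, add_zero]
  cont := ⟨∅, fun _ _ _ => rfl⟩

lemma C1s.add {x y : Ch ℓ k F L Ω g D} (hx : C1s N x) (hy : C1s N y) : C1s N (x + y) where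
  cocycle σ hσ τ hτ := by
    simp only [Pi.add_apply]
    rw [hx.cocycle σ hσ τ hτ, hy.cocycle σ hσ τ hτ, map_add]
    abel
  cont := by
    obtain ⟨S, hS⟩ := hx.cont
    obtain ⟨T, hT⟩ := hy.cont
    refine ⟨S ∪ T, fun σ hσ h => ?_⟩
    change x σ + y σ = 0
    rw [hS σ hσ fun z hz => h z (Finset.mem_union_left _ hz),
      hT σ hσ fun z hz => h z (Finset.mem_union_right _ hz), add_zero]

lemma C1s.neg {x : Ch ℓ k F L Ω g D} (hx : C1s N x) : C1s N (-x) where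
  cocycle σ hσ τ hτ := by
    simp only [Pi.neg_apply]
    rw [hx.cocycle σ hσ τ hτ, map_neg]
    abel
  cont := by
    obtain ⟨S, hS⟩ := hx.cont
    refine ⟨S, fun σ hσ h => ?_⟩
    change -(x σ) = 0
    rw [hS σ hσ h, neg_zero]

lemma C1s.sub {x y : Ch ℓ k F L Ω g D} (hx : C1s N x) (hy : C1s N y) : C1s N (x - y) := by
  rw [sub_eq_add_neg]
  exact hx.add hy.neg

lemma C1s.nsmul {x : Ch ℓ k F L Ω g D} (hx : C1s N x) (n : ℕ) : C1s N (n • x) := by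
  induction n with
  | zero =>
    rw [zero_smul]
    exact C1s.zero'
  | succ n ih =>
    rw [succ_nsmul]
    exact ih.add hx

lemma C1s.cob (A : JacOver ℓ (curvePoly k F L g D) Ω) : C1s N (Sup.cob A) where
  cocycle σ _ τ _ := by
    rw [cob_apply, cob_apply, cob_apply, map_sub, map_mul, map_mul, symJ_mul]
    abel
  cont := by
    obtain ⟨E, rfl⟩ := cl_surjective A
    refine ⟨E.support.image (fun P : Pt ℓ (cOver k F L Ω g D) => P.x) ∪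
      E.support.image (fun P : Pt ℓ (cOver k F L Ω g D) => P.y), fun σ _ h => ?_⟩
    rw [cob_apply, sub_eq_zero, symJ_cl]
    congr 1
    have h1 : Finsupp.mapDomain (Pt.sym (toSym g D (galA k F σ))) E = Finsupp.mapDomain id E := by
      refine Finsupp.mapDomain_congr fun P hP => ?_
      refine Pt.ext ?_ ?_
      · exact h P.x (Finset.mem_union_left _ (Finset.mem_image_of_mem _ hP))
      · exact h P.y (Finset.mem_union_right _ (Finset.mem_image_of_mem _ hP))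
    rw [h1, Finsupp.mapDomain_id]

lemma C1s.zJ (ζ : k) (hζ : (zA F L Ω ζ) ^ ℓ = 1) {x : Ch ℓ k F L Ω g D} (hx : C1s N x) :
    C1s N (fun σ => Sup.zJ (zA F L Ω ζ) hζ (x σ)) where
  cocycle σ hσ τ hτ := by
    rw [hx.cocycle σ hσ τ hτ, map_add,
      zJ_symJ (zA F L Ω ζ) hζ (toSym g D (galA k F σ)) (zA_fixed ζ (galA k F σ))]
  cont := by
    obtain ⟨S, hS⟩ := hx.cont
    refine ⟨S, fun σ hσ h => ?_⟩
    rw [hS σ hσ h, map_zero]

lemma C1s.vJ (ζ : k) (hζ : (zA F L Ω ζ) ^ ℓ = 1) {x : Ch ℓ k F L Ω g D} (hx : C1s N x) :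
    C1s N (fun σ => Sup.vJ (zA F L Ω ζ) hζ (x σ)) where
  cocycle σ hσ τ hτ := by
    rw [hx.cocycle σ hσ τ hτ, vJ_add,
      vJ_symJ (zA F L Ω ζ) hζ (toSym g D (galA k F σ)) (zA_fixed ζ (galA k F σ))]
  cont := by
    obtain ⟨S, hS⟩ := hx.cont
    refine ⟨S, fun σ hσ h => ?_⟩
    have h0 := vJ_sub (zA F L Ω ζ) hζ (x σ) (x σ)
    rw [sub_self, sub_self] at h0
    rw [hS σ hσ h, h0]

lemma C1s.act1 (hN : Nrm k F N) {x : Ch ℓ k F L Ω g D} (hx : C1s N x) (γ : AutO k F L Ω) :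
    C1s N (Sup.act1 γ x) where
  cocycle σ hσ τ hτ := by
    unfold Sup.act1
    rw [map_mul, hx.cocycle _ (hN γ⁻¹ σ hσ) _ (hN γ⁻¹ τ hτ), map_add, ← symJ_mul, ← symJ_mul,
      ← map_mul, ← map_mul, galA_conjG]
    have e : γ * (γ⁻¹ * galA k F σ * γ⁻¹⁻¹) = galA k F σ * γ := by group
    rw [e]
  cont := by
    obtain ⟨S, hS⟩ := hx.cont
    refine ⟨S.image (γ : Ω ≃+* Ω), fun σ hσ h => ?_⟩
    unfold Sup.act1
    rw [hS _ (hN γ⁻¹ σ hσ), map_zero]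
    intro z hz
    have h1 := h _ (Finset.mem_image_of_mem _ hz)
    have h2 := conjG_spec γ⁻¹ σ ((γ : Ω ≃+* Ω) z)
    have h3 : ((γ⁻¹ : AutO k F L Ω) : Ω ≃+* Ω) ((γ : Ω ≃+* Ω) z) = z :=
      (γ : Ω ≃+* Ω).symm_apply_apply z
    rw [h1, h3] at h2
    exact h2

lemma C1s.congr {x y : Ch ℓ k F L Ω g D} (hx : C1s N x) (h : ∀ σ ∈ N, y σ = x σ) :
    C1s N y where
  cocycle σ hσ τ hτ := by
    rw [h _ (N.mul_mem hσ hτ), h σ hσ, h τ hτ, hx.cocycle σ hσ τ hτ]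
  cont := by
    obtain ⟨S, hS⟩ := hx.cont
    refine ⟨S, fun σ hσ h1 => ?_⟩
    rw [h σ hσ, hS σ hσ h1]

lemma C1s.mono {N' : Subgroup (Ω ≃ₐ[L] Ω)} (hN : N' ≤ N) {x : Ch ℓ k F L Ω g D}
    (hx : C1s N x) : C1s N' x where
  cocycle σ hσ τ hτ := hx.cocycle σ (hN hσ) τ (hN hτ)
  cont := by
    obtain ⟨S, hS⟩ := hx.cont
    exact ⟨S, fun σ hσ h => hS σ (hN hσ) h⟩

lemma C1s.map_one {x : Ch ℓ k F L Ω g D} (hx : C1s N x) : x 1 = 0 := by
  have h := hx.cocycle 1 N.one_mem 1 N.one_mem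
  rw [mul_one, _root_.map_one, _root_.map_one, symJ_one] at h
  exact left_eq_add.1 h

/-- For `h` in `N`: `h x - x` is the coboundary of `x h` on `N`. -/
lemma act1_galA_sub {x : Ch ℓ k F L Ω g D} (hx : C1s N x) {h : Ω ≃ₐ[L] Ω} (hh : h ∈ N) :
    ∀ σ ∈ N, act1 (galA k F h) x σ = x σ + cob (x h) σ := by
  intro σ hσ
  unfold act1
  have h1 : conjG (galA k F h : AutO k F L Ω)⁻¹ σ = h⁻¹ * σ * h := by
    rw [← map_inv, conjG_galA, inv_inv]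
  have h2 : h * (h⁻¹ * σ * h) = σ * h := by group
  have h3 := hx.cocycle h hh (h⁻¹ * σ * h) (N.mul_mem (N.mul_mem (N.inv_mem hh) hσ) hh)
  rw [h2, hx.cocycle σ hσ h hh] at h3
  rw [h1, cob_apply]
  rw [eq_comm, ← sub_eq_iff_eq_add'] at h3
  rw [← h3]
  abel

end Pool.Agent.Lib.MP_89bcae_ag.Sup

end

section

open Polynomial IsDedekindDomain

open scoped Classical

set_option linter.unusedSectionVars false

namespace Pool.Agent.Lib.MP_89bcae_ag.Sup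

universe u

variable {k F L Ω : Type u} [Field k] [Field F] [Algebra k F] [Field L] [Algebra F[X] L]
  [Field Ω] [Algebra L Ω] [IsAlgClosure k F] [IsFractionRing F[X] L] [IsAlgClosure L Ω]
  {ℓ : ℕ} {g D : k[X]} [hG : IsGood ℓ (cOver k F L Ω g D)] {N : Subgroup (Ω ≃ₐ[L] Ω)}

lemma TCs.zero' : TCs N (0 : Coch ℓ k F L Ω g D) where
  c1 _ := C1s.zero'
  zero _ _ := rfl
  smul _ _ _ := smul_zero _

lemma TCs.add {c c' : Coch ℓ k F L Ω g D} (hc : TCs N c) (hc' : TCs N c') :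
    TCs N (c + c') where
  c1 n := (hc.c1 n).add (hc'.c1 n)
  zero σ hσ := by
    rw [Pi.add_apply, Pi.add_apply, hc.zero σ hσ, hc'.zero σ hσ, add_zero]
  smul n σ hσ := by
    rw [Pi.add_apply, Pi.add_apply, Pi.add_apply, Pi.add_apply, smul_add, hc.smul n σ hσ,
      hc'.smul n σ hσ]

lemma TCs.neg {c : Coch ℓ k F L Ω g D} (hc : TCs N c) : TCs N (-c) where
  c1 n := (hc.c1 n).neg
  zero σ hσ := by
    rw [Pi.neg_apply, Pi.neg_apply, hc.zero σ hσ, neg_zero]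
  smul n σ hσ := by
    rw [Pi.neg_apply, Pi.neg_apply, Pi.neg_apply, Pi.neg_apply, smul_neg, hc.smul n σ hσ]

lemma TCs.sub {c c' : Coch ℓ k F L Ω g D} (hc : TCs N c) (hc' : TCs N c') :
    TCs N (c - c') := by
  rw [sub_eq_add_neg]
  exact hc.add hc'.neg

lemma TCs.zC {c : Coch ℓ k F L Ω g D} (hc : TCs N c) (ζ : k) (hζ : (zA F L Ω ζ) ^ ℓ = 1) :
    TCs N (Sup.zC ζ hζ c) where
  c1 n := (hc.c1 n).zJ ζ hζ
  zero σ hσ := by
    change zJ (zA F L Ω ζ) hζ (c 0 σ) = 0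
    rw [hc.zero σ hσ, map_zero]
  smul n σ hσ := by
    change ℓ • zJ (zA F L Ω ζ) hζ (c (n + 1) σ) = zJ (zA F L Ω ζ) hζ (c n σ)
    rw [← map_nsmul, hc.smul n σ hσ]

lemma TCs.act (hN : Nrm k F N) {c : Coch ℓ k F L Ω g D} (hc : TCs N c) (γ : AutO k F L Ω) :
    TCs N (Sup.act γ c) where
  c1 n := (hc.c1 n).act1 hN γ
  zero σ hσ := by
    change symJ (toSym g D γ) (c 0 (conjG γ⁻¹ σ)) = 0
    rw [hc.zero _ (hN γ⁻¹ σ hσ), map_zero]
  smul n σ hσ := by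
    change ℓ • symJ (toSym g D γ) (c (n + 1) (conjG γ⁻¹ σ)) =
      symJ (toSym g D γ) (c n (conjG γ⁻¹ σ))
    rw [← map_nsmul, hc.smul n _ (hN γ⁻¹ σ hσ)]

lemma TCs.pow_smul {c : Coch ℓ k F L Ω g D} (hc : TCs N c) (n : ℕ) {σ : Ω ≃ₐ[L] Ω}
    (hσ : σ ∈ N) : ℓ ^ n • c n σ = 0 := by
  induction n with
  | zero => rw [pow_zero, one_smul, hc.zero σ hσ]
  | succ n ih => rw [pow_succ, mul_smul, hc.smul n σ hσ, ih]

lemma TCs.congr {c c' : Coch ℓ k F L Ω g D} (hc : TCs N c)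
    (h : ∀ n, ∀ σ ∈ N, c' n σ = c n σ) : TCs N c' where
  c1 n := (hc.c1 n).congr (h n)
  zero σ hσ := by rw [h 0 σ hσ, hc.zero σ hσ]
  smul n σ hσ := by rw [h (n + 1) σ hσ, h n σ hσ, hc.smul n σ hσ]

lemma TTs.zero' : TTs N (0 : Coch ℓ k F L Ω g D) := by
  refine ⟨TCs.zero', fun n => ⟨0, smul_zero _, fun σ _ => ?_⟩⟩
  rw [cob_zero]
  rfl

lemma TTs.add {c c' : Coch ℓ k F L Ω g D} (hc : TTs N c) (hc' : TTs N c') :
    TTs N (c + c') := by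
  refine ⟨hc.1.add hc'.1, fun n => ?_⟩
  obtain ⟨A, hA, hcA⟩ := hc.2 n
  obtain ⟨B, hB, hcB⟩ := hc'.2 n
  refine ⟨A + B, by rw [smul_add, hA, hB, add_zero], fun σ hσ => ?_⟩
  change c n σ + c' n σ = _
  rw [hcA σ hσ, hcB σ hσ, cob_add]
  rfl

lemma TTs.neg {c : Coch ℓ k F L Ω g D} (hc : TTs N c) : TTs N (-c) := by
  refine ⟨hc.1.neg, fun n => ?_⟩
  obtain ⟨A, hA, hcA⟩ := hc.2 n
  refine ⟨-A, by rw [smul_neg, hA, neg_zero], fun σ hσ => ?_⟩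
  change -(c n σ) = _
  rw [hcA σ hσ, cob_neg]
  rfl

lemma TTs.sub {c c' : Coch ℓ k F L Ω g D} (hc : TTs N c) (hc' : TTs N c') :
    TTs N (c - c') := by
  rw [sub_eq_add_neg]
  exact hc.add hc'.neg

lemma TTs.zC {c : Coch ℓ k F L Ω g D} (hc : TTs N c) (ζ : k) (hζ : (zA F L Ω ζ) ^ ℓ = 1) :
    TTs N (Sup.zC ζ hζ c) := by
  refine ⟨hc.1.zC ζ hζ, fun n => ?_⟩
  obtain ⟨A, hA, hcA⟩ := hc.2 n
  refine ⟨zJ (zA F L Ω ζ) hζ A, by rw [← map_nsmul, hA, map_zero], fun σ hσ => ?_⟩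
  change zJ (zA F L Ω ζ) hζ (c n σ) = _
  rw [hcA σ hσ, zJ_cob]

lemma TTs.act (hN : Nrm k F N) {c : Coch ℓ k F L Ω g D} (hc : TTs N c) (γ : AutO k F L Ω) :
    TTs N (Sup.act γ c) := by
  refine ⟨hc.1.act hN γ, fun n => ?_⟩
  obtain ⟨A, hA, hcA⟩ := hc.2 n
  refine ⟨symJ (toSym g D γ) A, by rw [← map_nsmul, hA, map_zero], fun σ hσ => ?_⟩
  rw [act_apply1, act1_congr hN γ hcA σ hσ, act1_cob]

lemma TTs.congr {c c' : Coch ℓ k F L Ω g D} (hc : TTs N c)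
    (h : ∀ n, ∀ σ ∈ N, c' n σ = c n σ) : TTs N c' := by
  refine ⟨hc.1.congr h, fun n => ?_⟩
  obtain ⟨A, hA, hcA⟩ := hc.2 n
  exact ⟨A, hA, fun σ hσ => by rw [h n σ hσ, hcA σ hσ]⟩

/-- The elements of `N` act trivially on the classes. -/
lemma act_galA_subs (hN : Nrm k F N) {c : Coch ℓ k F L Ω g D} (hc : TCs N c)
    {h : Ω ≃ₐ[L] Ω} (hh : h ∈ N) : TTs N (act (galA k F h) c - c) := by
  refine ⟨(hc.act hN _).sub hc, fun n => ⟨c n h, hc.pow_smul n hh, fun σ hσ => ?_⟩⟩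
  change Sup.act (galA k F h) c n σ - c n σ = _
  rw [act_apply1, act1_galA_sub (hc.c1 n) hh σ hσ]
  abel

lemma act_neg (γ : AutO k F L Ω) (c : Coch ℓ k F L Ω g D) : act γ (-c) = -act γ c := by
  funext n σ
  exact map_neg (symJ (toSym g D γ)) _

end Pool.Agent.Lib.MP_89bcae_ag.Sup

end

section

open Polynomial IsDedekindDomain

open scoped Classical

set_option linter.unusedSectionVars false

namespace Pool.Agent.Lib.MP_89bcae_ag.Sup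

universe u

variable {k F L Ω : Type u} [Field k] [Field F] [Algebra k F] [Field L] [Algebra F[X] L]
  [Field Ω] [Algebra L Ω] [IsAlgClosure k F] [IsFractionRing F[X] L] [IsAlgClosure L Ω]
  {ℓ : ℕ} {g D : k[X]} [hG : IsGood ℓ (cOver k F L Ω g D)] {N : Subgroup (Ω ≃ₐ[L] Ω)}

/-- The number of roots. -/
private lemma ta06_card_rts {ℓ : ℕ} {E : Type u} [Field E] {f : E[X]} (hG : IsGood ℓ f) :
    (rts f).card = f.natDegree := by
  have := hG.alg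
  unfold rts
  rw [Multiset.toFinset_card_of_nodup (nodup_roots hG.separable), IsAlgClosed.card_roots_eq_natDegree]

/-- A combination of ramification points fixed by `N` is zero. -/
lemma ta06_ram_fixed {ζ : k} (hζ : IsPrimitiveRoot (zA F L Ω ζ) ℓ)
    (hT : Trs (cOver k F L Ω g D) N) (e : Ω → ℤ)
    (hQ : ∀ σ ∈ N, symJ (toSym g D (galA k F σ))
      (ram e : JacOver ℓ (curvePoly k F L g D) Ω) = ram e) :
    (ram e : JacOver ℓ (curvePoly k F L g D) Ω) = 0 := by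
  have hf0 : cOver k F L Ω g D ≠ 0 := hG.separable.ne_zero
  have key : ∀ σ ∈ N, ∀ (θ : Ω), θ ∈ rts (cOver k F L Ω g D) →
      (ℓ : ℤ) ∣ e (σ⁻¹ θ) - e θ := by
    intro σ hσN θ hθ
    have h1 := hQ σ hσN
    rw [symJ_ram] at h1
    have h2 : (ram (fun θ => e (σ⁻¹ θ) - e θ) : JacOver ℓ (curvePoly k F L g D) Ω) = 0 := by
      rw [ram_sub, ← h1]
      rw [sub_eq_zero]
      rfl
    obtain ⟨c, hc⟩ := (ram_eq_zero_iff _ hζ _).mp h2
    have h3 : ∑ θ ∈ rts (cOver k F L Ω g D), (e (σ⁻¹ θ) - e θ) = 0 := by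
      rw [Finset.sum_sub_distrib, sub_eq_zero]
      have hmaps : ∀ (τ : Ω ≃ₐ[L] Ω) (θ : Ω), θ ∈ rts (cOver k F L Ω g D) →
          τ θ ∈ rts (cOver k F L Ω g D) := by
        intro τ θ hθ
        rw [mem_rts hf0] at hθ ⊢
        unfold cOver at hθ ⊢
        rw [eval_map_algebraMap] at hθ ⊢
        rw [aeval_algEquiv, AlgHom.comp_apply, hθ]
        exact map_zero τ
      refine Finset.sum_bij' (fun θ _ => σ⁻¹ θ) (fun θ _ => σ θ) (hmaps σ⁻¹) (hmaps σ) ?_ ?_ ?_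
      · intro θ _
        exact σ.apply_symm_apply θ
      · intro θ _
        exact σ.symm_apply_apply θ
      · intro θ _
        rfl
    have h4 : (ℓ : ℤ) ∣ ∑ θ ∈ rts (cOver k F L Ω g D), (e (σ⁻¹ θ) - e θ - c) := by
      refine Finset.dvd_sum fun θ hθ => hc θ ?_
      exact (mem_rts hf0).mp hθ
    rw [Finset.sum_sub_distrib, h3, Finset.sum_const, zero_sub, dvd_neg, ta06_card_rts hG,
      nsmul_eq_mul] at h4
    have h5 : IsCoprime (ℓ : ℤ) ((cOver k F L Ω g D).natDegree : ℤ) :=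
      (Nat.isCoprime_iff_coprime.mpr hG.coprime).symm
    have h6 : (ℓ : ℤ) ∣ c := h5.dvd_of_dvd_mul_left h4
    have h7 := dvd_add (hc θ ((mem_rts hf0).mp hθ)) h6
    rwa [sub_add_cancel] at h7
  have hne : (rts (cOver k F L Ω g D)).Nonempty := by
    rw [← Finset.card_pos, ta06_card_rts hG, Nat.pos_iff_ne_zero]
    intro h
    have h1 := hG.coprime
    rw [h, Nat.coprime_zero_left] at h1
    exact hG.prime.one_lt.ne' h1
  obtain ⟨θ₀, hθ₀⟩ := hne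
  refine (ram_eq_zero_iff _ hζ _).mpr ⟨e θ₀, fun θ hθ => ?_⟩
  have hθ' : θ ∈ rts (cOver k F L Ω g D) := (mem_rts hf0).mpr hθ
  obtain ⟨σ, hσN, hσ⟩ := hT θ₀ hθ₀ θ hθ'
  have h := key σ hσN θ hθ'
  have h1 : σ⁻¹ θ = θ₀ := by
    rw [← hσ]
    exact σ.symm_apply_apply θ₀
  rw [h1] at h
  rw [← dvd_neg, neg_sub]
  exact h

theorem eq_zero_of_fixN {ζ : k} (hζ : IsPrimitiveRoot (zA F L Ω ζ) ℓ)
    (hT : Trs (cOver k F L Ω g D) N) (n : ℕ) (Q : JacOver ℓ (curvePoly k F L g D) Ω)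
    (hn : ℓ ^ n • Q = 0) (hQ : ∀ σ ∈ N, symJ (toSym g D (galA k F σ)) Q = Q) : Q = 0 := by
  have h0 := iterate_eq_zero_of_smul _ hζ n Q hn
  have key : ∀ (m : ℕ) (Q : JacOver ℓ (curvePoly k F L g D) Ω),
      (∀ σ ∈ N, symJ (toSym g D (galA k F σ)) Q = Q) →
      (fun x => x - zJ (zA F L Ω ζ) hζ.pow_eq_one x)^[m] Q = 0 → Q = 0 := by
    intro m
    induction m with
    | zero => exact fun Q _ h => h
    | succ m ih =>
      intro Q hQ h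
      rw [Function.iterate_succ_apply] at h
      have h1 := ih _ (fun σ hσN => by
        have hσ : ((toSym g D (galA k F σ) : Sym (cOver k F L Ω g D)) : Ω ≃+* Ω) (zA F L Ω ζ) =
            zA F L Ω ζ := zA_fixed ζ (galA k F σ)
        rw [map_sub, ← zJ_symJ _ hζ.pow_eq_one _ hσ, hQ σ hσN]) h
      obtain ⟨e, rfl⟩ := exists_ram_of_zJ_eq _ hζ Q (sub_eq_zero.mp h1).symm
      exact ta06_ram_fixed hζ hT e hQ
  exact key _ Q hQ h0

theorem cob_injN {ζ : k} (hζ : IsPrimitiveRoot (zA F L Ω ζ) ℓ)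
    (hT : Trs (cOver k F L Ω g D) N) (n : ℕ) {A B : JacOver ℓ (curvePoly k F L g D) Ω}
    (hA : ℓ ^ n • A = 0) (hB : ℓ ^ n • B = 0) (h : ∀ σ ∈ N, cob A σ = cob B σ) : A = B := by
  refine sub_eq_zero.mp (eq_zero_of_fixN hζ hT n (A - B) ?_ fun σ hσ => ?_)
  · rw [smul_sub, hA, hB, sub_zero]
  · have h1 := h σ hσ
    rw [cob_apply, cob_apply] at h1
    rw [map_sub]
    have h2 : symJ (toSym g D (galA k F σ)) A - symJ (toSym g D (galA k F σ)) B =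
        (symJ (toSym g D (galA k F σ)) A - A) - (symJ (toSym g D (galA k F σ)) B - B) + (A - B) := by
      abel
    rw [h2, h1]
    abel

end Pool.Agent.Lib.MP_89bcae_ag.Sup

end

section

open Polynomial IsDedekindDomain

open scoped Classical

set_option linter.unusedSectionVars false

namespace Pool.Agent.Lib.MP_89bcae_ag.Sup

universe u

variable {k F L Ω : Type u} [Field k] [Field F] [Algebra k F] [Field L] [Algebra F[X] L]
  [Field Ω] [Algebra L Ω] [IsAlgClosure k F] [IsFractionRing F[X] L] [IsAlgClosure L Ω]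
  {ℓ : ℕ} {g D : k[X]} [hG : IsGood ℓ (cOver k F L Ω g D)] {N : Subgroup (Ω ≃ₐ[L] Ω)}

private lemma ta07_pow_smul_add {c : Coch ℓ k F L Ω g D} (hc : TCs N c) (t j : ℕ)
    {σ : Ω ≃ₐ[L] Ω} (hσ : σ ∈ N) : ℓ ^ t • c (j + t) σ = c j σ := by
  induction t with
  | zero => rw [pow_zero, one_nsmul, add_zero]
  | succ t ih => rw [pow_succ, mul_nsmul', ← add_assoc, hc.smul _ σ hσ, ih]

private lemma ta07_iterate (ζ : k) (hζ : (zA F L Ω ζ) ^ ℓ = 1) (y : Coch ℓ k F L Ω g D) (n : ℕ)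
    (σ : Ω ≃ₐ[L] Ω) (m : ℕ) :
    ((fun x : Coch ℓ k F L Ω g D => x - Sup.zC ζ hζ x)^[m] y) n σ =
      (fun x => x - zJ (zA F L Ω ζ) hζ x)^[m] (y n σ) := by
  induction m with
  | zero => rfl
  | succ m ih =>
    rw [Function.iterate_succ_apply', Function.iterate_succ_apply', ← ih]
    rfl

theorem TTs.of_sub_zC {ζ : k} (hζ : IsPrimitiveRoot (zA F L Ω ζ) ℓ)
    (hT : Trs (cOver k F L Ω g D) N) {c : Coch ℓ k F L Ω g D} (hc : TCs N c)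
    (h : TTs N (c - Sup.zC ζ hζ.pow_eq_one c)) : TTs N c := by
  refine ⟨hc, fun n => ?_⟩
  obtain ⟨A, hA, hA2⟩ := h.2 (n + 1)
  have key : ∀ σ ∈ N, c n σ = symJ (toSym g D (galA k F σ)) (vJ (zA F L Ω ζ) hζ.pow_eq_one A) -
      vJ (zA F L Ω ζ) hζ.pow_eq_one A := by
    intro σ hσ
    have h1 : c (n + 1) σ - zJ (zA F L Ω ζ) hζ.pow_eq_one (c (n + 1) σ) =
        symJ (toSym g D (galA k F σ)) A - A := hA2 σ hσ
    have h3 : vJ (zA F L Ω ζ) hζ.pow_eq_one (c (n + 1) σ) -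
        zJ (zA F L Ω ζ) hζ.pow_eq_one (vJ (zA F L Ω ζ) hζ.pow_eq_one (c (n + 1) σ)) =
          ℓ • c (n + 1) σ :=
      vJ_sub_zJ _ hζ _
    rw [← vJ_symJ (zA F L Ω ζ) hζ.pow_eq_one _ (zA_fixed ζ (galA k F σ)), ← vJ_sub, ← h1, vJ_sub,
      vJ_zJ, h3, hc.smul n σ hσ]
  refine ⟨vJ (zA F L Ω ζ) hζ.pow_eq_one A, ?_, fun σ hσ => key σ hσ⟩
  refine eq_zero_of_fixN hζ hT 1 _ ?_ ?_
  · rw [pow_one, ← mul_nsmul', mul_comm ℓ, ← pow_succ, ← vJ_smul, hA]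
    have h0 := vJ_sub (zA F L Ω ζ) hζ.pow_eq_one A A
    rw [sub_self, sub_self] at h0
    exact h0
  · intro σ hσ
    have h5 := hc.pow_smul n hσ
    rw [key σ hσ, nsmul_sub, sub_eq_zero] at h5
    rw [map_nsmul, h5]

theorem TTs.of_smul {ζ : k} (hζ : IsPrimitiveRoot (zA F L Ω ζ) ℓ)
    (hT : Trs (cOver k F L Ω g D) N) {c : Coch ℓ k F L Ω g D} (hc : TCs N c) {m : ℕ}
    (hm : 0 < m) (h : TTs N (m • c)) : TTs N c := by
  refine ⟨hc, fun n => ?_⟩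
  obtain ⟨s, m', hm', hmm⟩ := Nat.exists_eq_pow_mul_and_not_dvd hm.ne' ℓ hG.prime.ne_one
  obtain ⟨A, hA, hA2⟩ := h.2 (n + s)
  have hcop : IsCoprime (m' : ℤ) ((ℓ ^ n : ℕ) : ℤ) := by
    rw [Nat.isCoprime_iff_coprime]
    exact Nat.Coprime.pow_right n ((Nat.Prime.coprime_iff_not_dvd hG.prime).2 hm').symm
  obtain ⟨a, b, hab⟩ := hcop
  have h1 : ∀ σ ∈ N, m' • c n σ = symJ (toSym g D (galA k F σ)) A - A := by
    intro σ hσ
    have h2 : (m • c) (n + s) σ = symJ (toSym g D (galA k F σ)) A - A := hA2 σ hσ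
    have h3 : (m • c) (n + s) σ = m' • c n σ := by
      change m • (c (n + s) σ) = m' • c n σ
      rw [hmm, mul_comm, mul_nsmul', ta07_pow_smul_add hc s n hσ]
    rw [← h3]
    exact h2
  have key : ∀ σ ∈ N, c n σ = symJ (toSym g D (galA k F σ)) (a • A) - a • A := by
    intro σ hσ
    have h4 : (a * (m' : ℤ) + b * ((ℓ ^ n : ℕ) : ℤ)) • c n σ = c n σ := by
      rw [hab, one_zsmul]
    rw [add_zsmul, mul_zsmul, mul_zsmul, natCast_zsmul, natCast_zsmul, hc.pow_smul n hσ, zsmul_zero,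
      add_zero, h1 σ hσ] at h4
    rw [← h4, zsmul_sub, map_zsmul]
  refine ⟨a • A, ?_, fun σ hσ => key σ hσ⟩
  refine eq_zero_of_fixN hζ hT (n + s) _ ?_ ?_
  · rw [smul_comm, smul_comm (ℓ ^ (n + s)) a A, hA, zsmul_zero, nsmul_zero]
  · intro σ hσ
    have h5 := hc.pow_smul n hσ
    rw [key σ hσ, nsmul_sub, sub_eq_zero] at h5
    rw [map_nsmul, h5]

theorem TTs.of_separated {ζ : k} (hζ : IsPrimitiveRoot (zA F L Ω ζ) ℓ)
    (hT : Trs (cOver k F L Ω g D) N) {c : Coch ℓ k F L Ω g D} (hc : TCs N c)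
    (h : ∀ n : ℕ, ∃ y : Coch ℓ k F L Ω g D, TCs N y ∧
      TTs N (c - (fun x => x - Sup.zC ζ hζ.pow_eq_one x)^[n] y)) : TTs N c := by
  refine ⟨hc, fun n => ?_⟩
  obtain ⟨y, hy, h1⟩ := h ((ℓ - 1) * n)
  obtain ⟨A, hA, hA2⟩ := h1.2 n
  refine ⟨A, hA, fun σ hσ => ?_⟩
  rw [← hA2 σ hσ]
  have h2 : ((fun x : Coch ℓ k F L Ω g D => x - Sup.zC ζ hζ.pow_eq_one x)^[(ℓ - 1) * n] y) n σ =
      0 := by
    rw [ta07_iterate]
    exact iterate_eq_zero_of_smul _ hζ n _ (hy.pow_smul n hσ)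
  change c n σ = c n σ -
    ((fun x : Coch ℓ k F L Ω g D => x - Sup.zC ζ hζ.pow_eq_one x)^[(ℓ - 1) * n] y) n σ
  rw [h2, sub_zero]

end Pool.Agent.Lib.MP_89bcae_ag.Sup

end

section

open Polynomial IsDedekindDomain

open scoped Classical

set_option linter.unusedSectionVars false

namespace Pool.Agent.Lib.MP_89bcae_ag.Sup

universe u

variable {k F L Ω : Type u} [Field k] [Field F] [Algebra k F] [Field L] [Algebra F[X] L]
  [Field Ω] [Algebra L Ω] [IsAlgClosure k F] [IsFractionRing F[X] L] [IsAlgClosure L Ω]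
  {ℓ : ℕ} {g D : k[X]} [hG : IsGood ℓ (cOver k F L Ω g D)] {N : Subgroup (Ω ≃ₐ[L] Ω)}

theorem exists_ext {ζ : k} (hζ : IsPrimitiveRoot (zA F L Ω ζ) ℓ)
    (hT : Trs (cOver k F L Ω g D) N) (hN : Nrm k F N) (hO : Opn N) (n : ℕ)
    {x : Ch ℓ k F L Ω g D} (hx : C1s N x) (hn : ∀ σ ∈ N, ℓ ^ n • x σ = 0)
    (h : ∀ γ : Ω ≃ₐ[L] Ω, ∃ A : JacOver ℓ (curvePoly k F L g D) Ω, ℓ ^ n • A = 0 ∧
      ∀ σ ∈ N, act1 (galA k F γ) x σ = x σ + cob A σ) :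
    ∃ y : Ch ℓ k F L Ω g D, C1s ⊤ y ∧ (∀ σ, ℓ ^ n • y σ = 0) ∧ (∀ σ ∈ N, y σ = x σ) ∧
      ∀ γ : Ω ≃ₐ[L] Ω, ∀ σ ∈ N, act1 (galA k F γ) x σ = x σ + cob (y γ) σ := by
  choose y hy hy' using h
  have hyx : ∀ σ ∈ N, y σ = x σ := by
    intro γ hγ
    refine cob_injN hζ hT n (hy γ) (hn γ hγ) fun σ hσ => ?_
    have h1 := hy' γ σ hσ
    rw [act1_galA_sub hx hγ σ hσ] at h1
    exact (add_left_cancel h1).symm
  refine ⟨y, ⟨?_, ?_⟩, hy, hyx, hy'⟩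
  · intro γ _ δ _
    have h0 : ℓ ^ n • (y γ + symJ (toSym g D (galA k F γ)) (y δ)) = 0 := by
      rw [smul_add, hy γ, ← map_nsmul, hy δ, map_zero, add_zero]
    refine cob_injN hζ hT n (hy (γ * δ)) h0 fun σ hσ => ?_
    have h1 := hy' (γ * δ) σ hσ
    rw [map_mul, act1_mul] at h1
    have h2 := act1_congr hN (galA k F γ) (x := act1 (galA k F δ) x) (y := x + cob (y δ))
      (fun τ hτ => hy' δ τ hτ) σ hσ
    rw [h2, act1_add, act1_cob, Pi.add_apply, hy' γ σ hσ, add_assoc] at h1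
    rw [cob_add, Pi.add_apply]
    exact (add_left_cancel h1).symm
  · obtain ⟨S, hS⟩ := hx.cont
    obtain ⟨S', hS'⟩ := hO
    refine ⟨S ∪ S', fun σ _ hσ => ?_⟩
    have h1 : σ ∈ N := hS' σ fun z hz => hσ z (Finset.mem_union_right _ hz)
    rw [hyx σ h1]
    exact hS σ h1 fun z hz => hσ z (Finset.mem_union_left _ hz)

theorem exists_extM {ζ : k} (hζ : IsPrimitiveRoot (zA F L Ω ζ) ℓ)
    (hT : Trs (cOver k F L Ω g D) N) (hN : Nrm k F N) (hO : Opn N)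
    {x : Ch ℓ k F L Ω g D} (hx : MCs ζ hζ.pow_eq_one N x)
    (h : ∀ γ : Ω ≃ₐ[L] Ω, ∃ A : JacOver ℓ (curvePoly k F L g D) Ω, ℓ • A = 0 ∧
      ∀ σ ∈ N, act1 (galA k F γ) x σ = x σ + cob A σ) :
    ∃ y : Ch ℓ k F L Ω g D, MCs ζ hζ.pow_eq_one ⊤ y ∧ (∀ σ ∈ N, y σ = x σ) ∧
      ∀ γ : Ω ≃ₐ[L] Ω, ∀ σ ∈ N, act1 (galA k F γ) x σ = x σ + cob (y γ) σ := by
  have hn : ∀ σ ∈ N, ℓ ^ 1 • x σ = 0 := by
    intro σ hσ
    obtain ⟨e, he⟩ := exists_ram_of_zJ_eq (zA F L Ω ζ) hζ (x σ) (hx.fixed σ hσ)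
    rw [he, pow_one]
    exact smul_ram e
  have h' : ∀ γ : Ω ≃ₐ[L] Ω, ∃ A : JacOver ℓ (curvePoly k F L g D) Ω, ℓ ^ 1 • A = 0 ∧
      ∀ σ ∈ N, act1 (galA k F γ) x σ = x σ + cob A σ := by
    intro γ
    obtain ⟨A, hA, hA'⟩ := h γ
    exact ⟨A, by rw [pow_one, hA], hA'⟩
  obtain ⟨y, hy, hy1, hyx, hy'⟩ := exists_ext hζ hT hN hO 1 hx.toC1s hn h'
  refine ⟨y, ⟨hy, ?_⟩, hyx, hy'⟩
  intro γ _
  have h0 : ℓ ^ 1 • zJ (zA F L Ω ζ) hζ.pow_eq_one (y γ) = 0 := by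
    rw [← map_nsmul, hy1 γ, map_zero]
  refine cob_injN hζ hT 1 h0 (hy1 γ) fun σ hσ => ?_
  have h1 := congrArg (zJ (zA F L Ω ζ) hζ.pow_eq_one) (hy' γ σ hσ)
  have h2 := congrFun (act1_zJ (galA k F γ) ζ hζ.pow_eq_one x) σ
  rw [← h2] at h1
  have h3 := act1_congr hN (galA k F γ) (x := fun σ => zJ (zA F L Ω ζ) hζ.pow_eq_one (x σ)) (y := x)
    (fun τ hτ => hx.fixed τ hτ) σ hσ
  rw [h3, hy' γ σ hσ, map_add, hx.fixed σ hσ, zJ_cob] at h1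
  exact (add_left_cancel h1).symm

theorem exists_extT {ζ : k} (hζ : IsPrimitiveRoot (zA F L Ω ζ) ℓ)
    (hT : Trs (cOver k F L Ω g D) N) (hN : Nrm k F N) (hO : Opn N)
    {c : Coch ℓ k F L Ω g D} (hc : TCs N c)
    (h : ∀ γ : Ω ≃ₐ[L] Ω, TTs N (act (galA k F γ) c - c)) :
    ∃ c' : Coch ℓ k F L Ω g D, TCs ⊤ c' ∧ ∀ n, ∀ σ ∈ N, c' n σ = c n σ := by
  have h' : ∀ n, ∃ y : Ch ℓ k F L Ω g D, C1s ⊤ y ∧ (∀ σ, ℓ ^ n • y σ = 0) ∧
      (∀ σ ∈ N, y σ = c n σ) ∧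
      ∀ γ : Ω ≃ₐ[L] Ω, ∀ σ ∈ N, act1 (galA k F γ) (c n) σ = c n σ + cob (y γ) σ := by
    intro n
    refine exists_ext hζ hT hN hO n (hc.c1 n) (fun σ hσ => hc.pow_smul n hσ) fun γ => ?_
    obtain ⟨A, hA, hA'⟩ := (h γ).2 n
    refine ⟨A, hA, fun σ hσ => ?_⟩
    have h1 : act1 (galA k F γ) (c n) σ - c n σ = cob A σ := hA' σ hσ
    rw [← h1]
    abel
  choose c' h1 h2 h3 h4 using h'
  refine ⟨c', ⟨h1, ?_, ?_⟩, h3⟩
  · intro σ _
    have h5 := h2 0 σ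
    rwa [pow_zero, one_smul] at h5
  · intro n γ _
    have h0 : ℓ ^ n • (ℓ • c' (n + 1) γ) = 0 := by
      rw [← mul_smul, ← pow_succ, h2 (n + 1) γ]
    refine cob_injN hζ hT n h0 (h2 n γ) fun σ hσ => ?_
    have h5 := act1_congr hN (galA k F γ) (x := ℓ • c (n + 1)) (y := c n)
      (fun τ hτ => hc.smul n τ hτ) σ hσ
    rw [act1_nsmul, Pi.smul_apply, h4 (n + 1) γ σ hσ, h4 n γ σ hσ, smul_add, hc.smul n σ hσ] at h5
    rw [cob_nsmul, Pi.smul_apply]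
    exact add_left_cancel h5

/-- Cocycles of `Gal(Ω/L)` which agree on `N` are equal. -/
theorem C1s.eq_of_eqOn {ζ : k} (hζ : IsPrimitiveRoot (zA F L Ω ζ) ℓ)
    (hT : Trs (cOver k F L Ω g D) N) (hN : Nrm k F N) (n : ℕ) {y y' : Ch ℓ k F L Ω g D}
    (hy : C1s ⊤ y) (hy' : C1s ⊤ y') (hn : ∀ σ, ℓ ^ n • y σ = 0) (hn' : ∀ σ, ℓ ^ n • y' σ = 0)
    (h : ∀ σ ∈ N, y σ = y' σ) : ∀ σ, y σ = y' σ := by
  intro γ
  refine sub_eq_zero.1 (cob_injN hζ hT n (A := y γ - y' γ) (B := 0) ?_ (smul_zero _) fun σ hσ => ?_)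
  · rw [smul_sub, hn, hn', sub_zero]
  · have h1 := act1_galA_sub (hy.sub hy') (Subgroup.mem_top γ) σ (Subgroup.mem_top σ)
    have h2 := act1_congr hN (galA k F γ) (x := y - y') (y := 0)
      (fun τ hτ => by rw [Pi.sub_apply, h τ hτ, sub_self]; rfl) σ hσ
    have h3 : Sup.act1 (galA k F γ) (0 : Ch ℓ k F L Ω g D) = 0 := by
      have h4 := act1_sub (galA k F γ) (0 : Ch ℓ k F L Ω g D) 0
      rwa [sub_self, sub_self] at h4
    rw [h2, h3, Pi.sub_apply, h σ hσ, sub_self, zero_add, Pi.sub_apply] at h1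
    rw [← h1, cob_zero]

end Pool.Agent.Lib.MP_89bcae_ag.Sup

end
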