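import Mathlib
import Pool.Agent.Lib.MP_89bcae_ag.Sup.G15
import Pool.Agent.Lib.MP_89bcae_ag.Tow.M01

section

open Polynomial IsDedekindDomain

open scoped Classical

set_option linter.unusedSectionVars false

namespace Pool.Agent.Lib.MP_89bcae_ag.Sup

universe u

section

variable {ℓ : ℕ} {E : Type u} [Field E] {f : E[X]}

lemma tb02_mem_rts {θ : E} (hG : IsGood ℓ f) : θ ∈ rts f ↔ f.eval θ = 0 :=
  mem_rts hG.separable.ne_zero

lemma tb02_card (hG : IsGood ℓ f) : (rts f).card.Coprime ℓ := by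
  have := hG.alg
  have h1 : (rts f).card = f.natDegree := by
    unfold rts
    rw [Multiset.toFinset_card_of_nodup (nodup_roots hG.separable),
      IsAlgClosed.card_roots_eq_natDegree]
  rw [h1]
  exact hG.coprime

lemma tb02_zpow_eq {ζ : E} (hℓ : ℓ ≠ 0) (hζ : IsPrimitiveRoot ζ ℓ) (a b : ℤ) :
    ζ ^ a = ζ ^ b ↔ (ℓ : ℤ) ∣ a - b := by
  have h0 : ζ ≠ 0 := hζ.ne_zero hℓ
  rw [← hζ.zpow_eq_one_iff_dvd, zpow_sub₀ h0, div_eq_one_iff_eq (zpow_ne_zero _ h0)]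

lemma tb02_prod_zpow {ι : Type*} {x : E} (hx : x ≠ 0) (S : Finset ι) (e : ι → ℤ) :
    ∏ i ∈ S, x ^ e i = x ^ ∑ i ∈ S, e i := by
  induction S using Finset.induction_on with
  | empty => simp
  | insert a T ha ih => rw [Finset.prod_insert ha, Finset.sum_insert ha, zpow_add₀ hx, ih]

lemma tb02_ram_zero [hG : IsGood ℓ f] : (ram (fun _ => 0) : Jac ℓ f) = 0 := by
  have h1 := ram_sub (ℓ := ℓ) (f := f) (fun _ => 0) (fun _ => 0)
  exact h1.trans (sub_self _)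

lemma tb02_ram_neg [hG : IsGood ℓ f] (e : E → ℤ) :
    (ram (fun θ => -e θ) : Jac ℓ f) = -ram e := by
  have h1 := ram_sub (ℓ := ℓ) (f := f) (fun _ => 0) e
  rw [tb02_ram_zero, zero_sub] at h1
  rw [← h1]
  congr 1
  funext θ
  rw [zero_sub]

end

lemma tb02_coprime {K : Type*} [Field K] {ℓ : ℕ} (hℓ : ℓ.Prime) (h : (ℓ : K) ≠ 0) :
    ℓ.Coprime (ringExpChar K) := by
  have h1 := ringExpChar.expChar K
  generalize ringExpChar K = q at h1 ⊢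
  cases h1 with
  | zero => exact Nat.coprime_one_right ℓ
  | prime hp =>
    rw [Nat.coprime_primes hℓ hp]
    rintro rfl
    exact h (CharP.cast_eq_zero K _)

section

variable {k F L Ω : Type u} [Field k] [Field F] [Algebra k F] [Field L] [Algebra F[X] L]
  [Field Ω] [Algebra L Ω] [IsAlgClosure k F] [IsFractionRing F[X] L] [IsAlgClosure L Ω]
  [Algebra F Ω] {ℓ : ℕ} {g D : k[X]} {ζ : k}

omit [IsAlgClosure k F] [IsFractionRing F[X] L] [IsAlgClosure L Ω] [Algebra F Ω] in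
lemma tb02_stable (hG : IsGood ℓ (cOver k F L Ω g D)) (γ : AutO k F L Ω) {θ : Ω} :
    (γ : Ω ≃+* Ω) θ ∈ rts (cOver k F L Ω g D) ↔ θ ∈ rts (cOver k F L Ω g D) := by
  rw [tb02_mem_rts hG, tb02_mem_rts hG]
  have h1 := (toSym g D γ).2
  have h2 : (cOver k F L Ω g D).eval ((γ : Ω ≃+* Ω) θ) =
      (γ : Ω ≃+* Ω) ((cOver k F L Ω g D).eval θ) := by
    conv_lhs => rw [← h1]
    rw [eval_map]
    exact eval₂_hom (p := cOver k F L Ω g D) ((γ : Ω ≃+* Ω) : Ω →+* Ω) θ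
  rw [h2]
  exact map_eq_zero_iff _ (γ : Ω ≃+* Ω).injective

omit [IsAlgClosure k F] [IsFractionRing F[X] L] [IsAlgClosure L Ω] [Algebra F Ω] in
lemma tb02_smul_mem (hG : IsGood ℓ (cOver k F L Ω g D)) (σ : Ω ≃ₐ[L] Ω) {θ : Ω} :
    σ θ ∈ rts (cOver k F L Ω g D) ↔ θ ∈ rts (cOver k F L Ω g D) :=
  tb02_stable hG (galA k F σ)

omit [IsAlgClosure k F] [IsFractionRing F[X] L] [IsAlgClosure L Ω] [Algebra F Ω] in
lemma tb02_prod {M : Type*} [CommMonoid M] (hG : IsGood ℓ (cOver k F L Ω g D))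
    (σ : Ω ≃ₐ[L] Ω) (φ : Ω → M) :
    ∏ θ ∈ rts (cOver k F L Ω g D), φ (σ θ) = ∏ θ ∈ rts (cOver k F L Ω g D), φ θ :=
  Finset.prod_equiv σ.toEquiv (fun _ => (tb02_smul_mem hG σ).symm) (fun _ _ => rfl)

omit [IsAlgClosure k F] [IsFractionRing F[X] L] [IsAlgClosure L Ω] [Algebra F Ω] in
lemma tb02_zA (ζ : k) (σ : Ω ≃ₐ[L] Ω) : σ (zA F L Ω ζ) = zA F L Ω ζ :=
  σ.commutes _

omit [IsAlgClosure k F] [IsFractionRing F[X] L] [IsAlgClosure L Ω] in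
lemma tb02_const (hF : CompatF F L Ω) (σ : Ω ≃ₐ[L] Ω) (c : F) :
    σ (algebraMap F Ω c) = algebraMap F Ω c := by
  rw [hF c]
  exact σ.commutes _

lemma tb02_ne (hF : CompatF F L Ω) (H : GlobHyp ℓ g D ζ) {θ : Ω}
    (hθ : θ ∈ rts (cOver k F L Ω g D)) (β : F) : θ - algebraMap F Ω β ≠ 0 := by
  have h1 : aeval θ (X - C β : F[X]) = θ - algebraMap F Ω β := by
    rw [map_sub, aeval_X, aeval_C]
  rw [← h1, Ne, map_eq_zero_iff _ (aeval_root_injective hF H hθ)]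
  exact X_sub_C_ne_zero β

/-- The product `∏ (θ - β)^{e β}`. -/
noncomputable def tb02_E (F : Type u) {k Ω : Type u} [Field k] [Field F] [Algebra k F]
    [Field Ω] [Algebra F Ω] (g D : k[X]) (e : F → ℤ) (θ : Ω) : Ω :=
  ∏ β ∈ RR F g D, (θ - algebraMap F Ω β) ^ e β

lemma tb02_E_ne (hF : CompatF F L Ω) (H : GlobHyp ℓ g D ζ) (e : F → ℤ) {θ : Ω}
    (hθ : θ ∈ rts (cOver k F L Ω g D)) : tb02_E F g D e θ ≠ 0 :=
  Finset.prod_ne_zero_iff.2 fun β _ => zpow_ne_zero _ (tb02_ne hF H hθ β)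

lemma tb02_E_map (hF : CompatF F L Ω) (e : F → ℤ) (σ : Ω ≃ₐ[L] Ω) (θ : Ω) :
    σ (tb02_E F g D e θ) = tb02_E F g D e (σ θ) := by
  rw [tb02_E, map_prod, tb02_E]
  refine Finset.prod_congr rfl fun β _ => ?_
  rw [map_zpow₀, map_sub, tb02_const hF]

lemma tb02_E_add (hF : CompatF F L Ω) (H : GlobHyp ℓ g D ζ) (e e' : F → ℤ) {θ : Ω}
    (hθ : θ ∈ rts (cOver k F L Ω g D)) :
    tb02_E F g D (fun β => e β + e' β) θ = tb02_E F g D e θ * tb02_E F g D e' θ := by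
  rw [tb02_E, tb02_E, tb02_E, ← Finset.prod_mul_distrib]
  refine Finset.prod_congr rfl fun β _ => ?_
  rw [zpow_add₀ (tb02_ne hF H hθ β)]

lemma tb02_E_neg (e : F → ℤ) (θ : Ω) :
    tb02_E F g D (fun β => -e β) θ = (tb02_E F g D e θ)⁻¹ := by
  rw [tb02_E, tb02_E, ← Finset.prod_inv_distrib]
  refine Finset.prod_congr rfl fun β _ => ?_
  rw [zpow_neg]

lemma tb02_E_mul (m : ℤ) (e : F → ℤ) (θ : Ω) :
    tb02_E F g D (fun β => m * e β) θ = (tb02_E F g D e θ) ^ m := by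
  rw [tb02_E, tb02_E, ← Finset.prod_zpow]
  refine Finset.prod_congr rfl fun β _ => ?_
  rw [← zpow_mul, mul_comm]

lemma tb02_z_ne (hF : CompatF F L Ω) (H : GlobHyp ℓ g D ζ) (e : F → ℤ) {x θ : Ω}
    (hθ : θ ∈ rts (cOver k F L Ω g D)) (hx : x ^ ℓ = tb02_E F g D e θ) : x ≠ 0 := by
  rintro rfl
  rw [zero_pow H.prime.ne_zero] at hx
  exact tb02_E_ne hF H e hθ hx.symm

omit [IsAlgClosure k F] [IsFractionRing F[X] L] [IsAlgClosure L Ω] in
lemma tb02_t (hG : IsGood ℓ (cOver k F L Ω g D)) (hF : CompatF F L Ω) {θ : Ω}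
    (hθ : θ ∈ rts (cOver k F L Ω g D)) :
    tA F L Ω = aeval θ (g.map (algebraMap k F)) := by
  have h1 := (tb02_mem_rts hG).1 hθ
  have h2 := hG.separable.ne_zero
  rw [cOver_eq_locPoly hF, locPoly] at h1 h2
  have h3 := (mul_ne_zero_iff.1 h2).1
  rw [eval_mul, eval_C, mul_eq_zero] at h1
  have h4 := h1.resolve_left (C_ne_zero.1 h3)
  rw [eval_sub, eval_C, eval_map_algebraMap, sub_eq_zero] at h4
  exact h4.symm

lemma tb02_prodE (hF : CompatF F L Ω) (H : GlobHyp ℓ g D ζ) (e s : F → ℤ)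
    (hs : ∀ a : F, ∑ β ∈ (RR F g D).filter (fun β => aeval β g = a), e β = ℓ * s a) :
    ∏ θ ∈ rts (cOver k F L Ω g D), tb02_E F g D e θ =
      algebraMap F Ω (∏ β ∈ RR F g D, ((-1) ^ (g.natDegree + 1)) ^ e β) *
        (∏ a ∈ (RR F g D).image (fun β => aeval β g),
          (tA F L Ω - algebraMap F Ω a) ^ s a) ^ ℓ := by
  have ht : ∀ a : F, tA F L Ω - algebraMap F Ω a ≠ 0 := by
    intro a
    have h1 : aeval (tA F L Ω) (X - C a : F[X]) = tA F L Ω - algebraMap F Ω a := by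
      rw [map_sub, aeval_X, aeval_C]
    rw [← h1, Ne, map_eq_zero_iff _ (tA_injective hF)]
    exact X_sub_C_ne_zero a
  unfold tb02_E
  rw [Finset.prod_comm]
  have h1 : ∀ β ∈ RR F g D, ∏ θ ∈ rts (cOver k F L Ω g D), (θ - algebraMap F Ω β) ^ e β =
      algebraMap F Ω (((-1) ^ (g.natDegree + 1)) ^ e β) *
        (tA F L Ω - algebraMap F Ω (aeval β g)) ^ e β := by
    intro β _
    rw [Finset.prod_zpow, prod_rts_sub hF H, map_zpow₀, map_pow, map_neg, map_one, ← mul_zpow]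
    congr 1
    ring
  rw [Finset.prod_congr rfl h1, Finset.prod_mul_distrib, ← map_prod]
  congr 1
  rw [← Finset.prod_fiberwise_of_maps_to (g := fun β => aeval β g)
    (fun β hβ => Finset.mem_image_of_mem _ hβ), ← Finset.prod_pow]
  refine Finset.prod_congr rfl fun a _ => ?_
  rw [← zpow_natCast, ← zpow_mul, mul_comm (s a), ← hs a, ← tb02_prod_zpow (ht a)]
  refine Finset.prod_congr rfl fun β hβ => ?_
  rw [(Finset.mem_filter.1 hβ).2]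

end

variable {k F L Ω : Type u} [Field k] [Field F] [Algebra k F] [Field L] [Algebra F[X] L]
  [Field Ω] [Algebra L Ω] [IsAlgClosure k F] [IsFractionRing F[X] L] [IsAlgClosure L Ω]
  [Algebra F Ω] {ℓ : ℕ} {g E : k[X]} [hG : IsGood ℓ (cOver k F L Ω g 1)] {ζ : k}
  {hζ : (zA F L Ω ζ) ^ ℓ = 1} {N : Subgroup (Ω ≃ₐ[L] Ω)}

/-- Comparison of the exponents. -/
lemma tb02_congr (H : GlobHyp ℓ g E ζ) (σ : Ω ≃ₐ[L] Ω) (n n' : Ω → ℤ)
    (h : ∀ θ ∈ rts (cOver k F L Ω g 1),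
      zA F L Ω ζ ^ n (σ θ) = zA F L Ω ζ ^ n' (σ θ)) :
    (ram n : JacOver ℓ (curvePoly k F L g 1) Ω) = ram n' := by
  apply ram_congr
  intro θ hθ
  have h1 := h (σ⁻¹ θ) ((tb02_smul_mem hG σ⁻¹).2 ((tb02_mem_rts hG).2 hθ))
  have h2 : σ (σ⁻¹ θ) = θ := σ.apply_symm_apply θ
  rw [h2] at h1
  exact (tb02_zpow_eq H.prime.ne_zero (zA_primitive H) _ _).1 h1

lemma tb02_rts (H : GlobHyp ℓ g E ζ) :
    rts (cOver k F L Ω g 1) = rts (cOver k F L Ω g E) := by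
  have hΩ : IsAlgClosed Ω := IsAlgClosure.isAlgClosed L
  exact rts_one H

lemma HasExpM.exists_n (hF : CompatF F L Ω) (H : GlobHyp ℓ g E ζ) (e : F → ℤ) {z : Ω → Ω}
    (hz : ∀ θ ∈ rts (cOver k F L Ω g 1),
      z θ ^ ℓ = ∏ β ∈ RR F g E, (θ - algebraMap F Ω β) ^ e β) (σ : Ω ≃ₐ[L] Ω) :
    ∃ n : Ω → ℤ, ∀ θ ∈ rts (cOver k F L Ω g 1),
      σ (z θ) = zA F L Ω ζ ^ n (σ θ) * z (σ θ) := by
  have hΩ : IsAlgClosed Ω := IsAlgClosure.isAlgClosed L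
  have hGE : IsGood ℓ (cOver k F L Ω g E) := isGood_cOver H
  rw [tb02_rts H] at hz ⊢
  exact exists_n_of_pow hF H e hz σ

lemma HasExpM.add (hF : CompatF F L Ω) (H : GlobHyp ℓ g E ζ) {h h' : Ch ℓ k F L Ω g 1}
    {e e' : F → ℤ} (he : HasExpM ζ E h e) (he' : HasExpM ζ E h' e') :
    HasExpM ζ E (h + h') (fun β => e β + e' β) := by
  have hr := tb02_rts (F := F) (L := L) (Ω := Ω) H
  obtain ⟨z, hz, hzn⟩ := he.ex
  obtain ⟨z', hz', hzn'⟩ := he'.ex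
  refine ⟨fun a => ?_, fun θ => z θ * z' θ, fun θ hθ => ?_, fun σ n hn => ?_⟩
  · rw [Finset.sum_add_distrib]
    exact dvd_add (he.sum a) (he'.sum a)
  · rw [mul_pow, hz θ hθ, hz' θ hθ]
    exact (tb02_E_add hF H e e' (hr ▸ hθ)).symm
  · obtain ⟨n₁, hn₁⟩ := HasExpM.exists_n hF H e hz σ
    obtain ⟨n₂, hn₂⟩ := HasExpM.exists_n hF H e' hz' σ
    have h1 : (h + h') σ = ram (fun θ => n₁ θ + n₂ θ) := by
      rw [ram_add, ← hzn σ n₁ hn₁, ← hzn' σ n₂ hn₂]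
      rfl
    rw [h1]
    refine tb02_congr H σ _ _ fun θ hθ => ?_
    have hσθ := (tb02_smul_mem hG σ).2 hθ
    have h2 := hn θ hθ
    rw [map_mul, hn₁ θ hθ, hn₂ θ hθ] at h2
    have h3 := tb02_z_ne hF H e (hr ▸ hσθ) (hz _ hσθ)
    have h4 := tb02_z_ne hF H e' (hr ▸ hσθ) (hz' _ hσθ)
    rw [zpow_add₀ ((zA_primitive H).ne_zero H.prime.ne_zero)]
    apply mul_right_cancel₀ (mul_ne_zero h3 h4)
    rw [← h2]
    ring

lemma HasExpM.neg (hF : CompatF F L Ω) (H : GlobHyp ℓ g E ζ) {h : Ch ℓ k F L Ω g 1}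
    {e : F → ℤ} (he : HasExpM ζ E h e) : HasExpM ζ E (-h) (fun β => -e β) := by
  have hr := tb02_rts (F := F) (L := L) (Ω := Ω) H
  obtain ⟨z, hz, hzn⟩ := he.ex
  refine ⟨fun a => ?_, fun θ => (z θ)⁻¹, fun θ hθ => ?_, fun σ n hn => ?_⟩
  · rw [Finset.sum_neg_distrib]
    exact (dvd_neg).2 (he.sum a)
  · rw [inv_pow, hz θ hθ]
    exact (tb02_E_neg e θ).symm
  · obtain ⟨n₁, hn₁⟩ := HasExpM.exists_n hF H e hz σ
    have h1 : (-h) σ = ram (fun θ => -n₁ θ) := by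
      rw [tb02_ram_neg, ← hzn σ n₁ hn₁]
      rfl
    rw [h1]
    refine tb02_congr H σ _ _ fun θ hθ => ?_
    have hσθ := (tb02_smul_mem hG σ).2 hθ
    have h2 := hn θ hθ
    have h3 := tb02_z_ne hF H e (hr ▸ hσθ) (hz _ hσθ)
    rw [map_inv₀, hn₁ θ hθ, mul_inv, ← zpow_neg] at h2
    exact mul_right_cancel₀ (inv_ne_zero h3) h2

lemma HasExpM.congr (hF : CompatF F L Ω) (H : GlobHyp ℓ g E ζ) {h : Ch ℓ k F L Ω g 1}
    {e e' : F → ℤ} (he : HasExpM ζ E h e) (hd : ∀ β ∈ RR F g E, (ℓ : ℤ) ∣ e' β - e β) :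
    HasExpM ζ E h e' := by
  have hr := tb02_rts (F := F) (L := L) (Ω := Ω) H
  obtain ⟨z, hz, hzn⟩ := he.ex
  have h1 : ∀ β, ∃ i : ℤ, β ∈ RR F g E → e' β = e β + ℓ * i := by
    intro β
    by_cases hβ : β ∈ RR F g E
    · obtain ⟨i, hi⟩ := hd β hβ
      exact ⟨i, fun _ => by linarith⟩
    · exact ⟨0, fun h => absurd h hβ⟩
  choose i hi using h1
  have hE : ∀ θ ∈ rts (cOver k F L Ω g 1), tb02_E F g E e' θ =
      tb02_E F g E e θ * (tb02_E F g E i θ) ^ ℓ := by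
    intro θ hθ
    rw [← zpow_natCast, ← tb02_E_mul, ← tb02_E_add hF H _ _ (hr ▸ hθ)]
    refine Finset.prod_congr rfl fun β hβ => ?_
    rw [hi β hβ]
  refine ⟨fun a => ?_, fun θ => z θ * tb02_E F g E i θ, fun θ hθ => ?_, fun σ n hn => ?_⟩
  · have h2 : ∑ β ∈ (RR F g E).filter (fun β => aeval β g = a), e' β =
        ∑ β ∈ (RR F g E).filter (fun β => aeval β g = a), e β +
        ℓ * ∑ β ∈ (RR F g E).filter (fun β => aeval β g = a), i β := by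
      rw [Finset.mul_sum, ← Finset.sum_add_distrib]
      exact Finset.sum_congr rfl fun β hβ => hi β (Finset.mem_filter.1 hβ).1
    rw [h2]
    exact dvd_add (he.sum a) (dvd_mul_right _ _)
  · rw [mul_pow, hz θ hθ]
    exact (hE θ hθ).symm
  · apply hzn
    intro θ hθ
    have hσθ := (tb02_smul_mem hG σ).2 hθ
    have h2 := hn θ hθ
    rw [map_mul, tb02_E_map hF, ← mul_assoc] at h2
    exact mul_right_cancel₀ (tb02_E_ne hF H i (hr ▸ hσθ)) h2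

theorem HasExpM.dvd_of_cob (hF : CompatF F L Ω) (H : GlobHyp ℓ g E ζ)
    {h : Ch ℓ k F L Ω g 1} {e : F → ℤ} (he : HasExpM ζ E h e)
    {A : JacOver ℓ (curvePoly k F L g 1) Ω} (hA : zJ (zA F L Ω ζ) hζ A = A)
    (hh : ∀ σ, h σ = cob A σ) : ∀ β ∈ RR F g E, (ℓ : ℤ) ∣ e β := by
  have hr := tb02_rts (F := F) (L := L) (Ω := Ω) H
  have hΩ : IsAlgClosed Ω := IsAlgClosure.isAlgClosed L
  have hGE : IsGood ℓ (cOver k F L Ω g E) := isGood_cOver H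
  have hζ' : IsPrimitiveRoot (zA F L Ω ζ) ℓ := zA_primitive H
  have hζ0 : zA F L Ω ζ ≠ 0 := hζ'.ne_zero H.prime.ne_zero
  obtain ⟨z, hz, hzn⟩ := he.ex
  obtain ⟨m₀, hm₀⟩ := exists_ram_of_zJ_eq (zA F L Ω ζ) hζ' A hA
  have hn : ∀ σ : Ω ≃ₐ[L] Ω, ∃ κ : ℤ, ∀ θ ∈ rts (cOver k F L Ω g E),
      σ (zA F L Ω ζ ^ (-m₀ θ) * z θ) = zA F L Ω ζ ^ κ * (zA F L Ω ζ ^ (-m₀ (σ θ)) * z (σ θ)) := by
    intro σ
    obtain ⟨n, hn⟩ := HasExpM.exists_n hF H e hz σ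
    have h1 := hzn σ n hn
    rw [hh σ, cob, hm₀, symJ_ram, ← ram_sub] at h1
    have h2 := ram_sub (ℓ := ℓ) (f := cOver k F L Ω g 1) n (fun θ =>
      m₀ (((((toSym g 1) ((galA k F) σ))⁻¹ : Sym (cOver k F L Ω g 1)) : Ω ≃+* Ω) θ) - m₀ θ)
    rw [← h1, sub_self] at h2
    obtain ⟨κ, hκ⟩ := (ram_eq_zero_iff (zA F L Ω ζ) hζ' _).1 h2
    refine ⟨κ, fun θ hθ' => ?_⟩
    have hθ : θ ∈ rts (cOver k F L Ω g 1) := hr ▸ hθ'
    have hσθ := (tb02_smul_mem hG σ).2 hθ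
    have h3 := hκ (σ θ) ((tb02_mem_rts hG).1 hσθ)
    have h4 : ((((toSym g 1) ((galA k F) σ))⁻¹ : Sym (cOver k F L Ω g 1)) : Ω ≃+* Ω) (σ θ) =
        θ := σ.symm_apply_apply θ
    rw [h4] at h3
    have h5 := (tb02_zpow_eq H.prime.ne_zero hζ' (-m₀ θ + n (σ θ)) (κ + -m₀ (σ θ))).2 (by
      convert h3 using 1
      ring)
    rw [map_mul, map_zpow₀, tb02_zA, hn θ hθ, ← mul_assoc, ← mul_assoc, ← zpow_add₀ hζ0,
      ← zpow_add₀ hζ0, h5]
  set z' : Ω → Ω := fun θ => zA F L Ω ζ ^ (-m₀ θ) * z θ with hz'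
  have hz'ℓ : ∀ θ ∈ rts (cOver k F L Ω g E), z' θ ^ ℓ = tb02_E F g E e θ := by
    intro θ hθ
    have h1 : (zA F L Ω ζ ^ (-m₀ θ)) ^ ℓ = 1 := by
      rw [← zpow_natCast, ← zpow_mul, mul_comm, zpow_mul, zpow_natCast, hζ, one_zpow]
    rw [hz']
    simp only
    rw [mul_pow, h1, one_mul]
    exact hz θ (hr ▸ hθ)
  set w : Ω := ∏ θ ∈ rts (cOver k F L Ω g E), z' θ with hw
  set m : ℕ := (rts (cOver k F L Ω g E)).card with hm
  obtain ⟨θ, hθ'⟩ := IsGood.exists_root (ℓ := ℓ) (f := cOver k F L Ω g E)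
  have hθ : θ ∈ rts (cOver k F L Ω g E) := (tb02_mem_rts hGE).2 hθ'
  obtain ⟨s, PA, PB, hPB, hAB⟩ := exists_pow_eq_quot hF H hθ ((z' θ) ^ m / w) (by
    intro σ hσ
    obtain ⟨κ, hκ⟩ := hn σ
    rw [map_div₀, map_pow, hκ θ hθ, hσ, hw, map_prod, Finset.prod_congr rfl hκ,
      Finset.prod_mul_distrib, tb02_prod hGE σ (fun θ => z' θ), Finset.prod_const, mul_pow]
    rw [mul_div_mul_left _ _ (pow_ne_zero _ (zpow_ne_zero _ hζ0))])
  generalize hq : ringExpChar k ^ s = q at hAB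
  have hcop : ℓ.Coprime (m * q) := by
    refine Nat.Coprime.mul_right ?_ ?_
    · exact (tb02_card hGE).symm
    · rw [← hq]
      exact (tb02_coprime H.prime H.ne).pow_right s
  have hsum : ∀ a : F, ∃ i : ℤ,
      ∑ β ∈ (RR F g E).filter (fun β => aeval β g = a), e β = ℓ * i := fun a => he.sum a
  choose i hi using hsum
  set Y : Ω := ∏ a ∈ (RR F g E).image (fun β => aeval β g),
    (tA F L Ω - algebraMap F Ω a) ^ i a with hY
  set c₀ : F := ∏ β ∈ RR F g E, ((-1) ^ (g.natDegree + 1)) ^ e β with hc₀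
  have hc₀0 : c₀ ≠ 0 := by
    rw [hc₀, Finset.prod_ne_zero_iff]
    intro β _
    exact zpow_ne_zero _ (pow_ne_zero _ (neg_ne_zero.2 one_ne_zero))
  have hwℓ : w ^ ℓ = algebraMap F Ω c₀ * Y ^ ℓ := by
    rw [hw, ← Finset.prod_pow, Finset.prod_congr rfl hz'ℓ, tb02_prodE hF H e i hi]
  have hw0 : w ≠ 0 := by
    rw [hw, Finset.prod_ne_zero_iff]
    intro θ' hθ'
    exact tb02_z_ne hF H e hθ' (hz'ℓ _ hθ')
  have hE0 := tb02_E_ne hF H e hθ
  have hmain : (tb02_E F g E e θ) ^ (m * q) =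
      algebraMap F Ω (c₀ ^ q) * ((((z' θ) ^ m / w) ^ q) * Y ^ q) ^ ℓ := by
    have h1 : (tb02_E F g E e θ) ^ m = ((z' θ) ^ m / w) ^ ℓ * (algebraMap F Ω c₀ * Y ^ ℓ) := by
      rw [← hwℓ, ← mul_pow, div_mul_cancel₀ _ hw0, ← hz'ℓ θ hθ, ← pow_mul, ← pow_mul, mul_comm]
    rw [pow_mul, h1, map_pow]
    ring
  have hK : (((z' θ) ^ m / w) ^ q) * Y ^ q ∈ IntermediateField.adjoin F ({θ} : Set Ω) := by
    refine mul_mem ?_ (pow_mem ?_ _)
    · rw [hAB]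
      exact (IntermediateField.mem_adjoin_simple_iff F _).2 ⟨PA, PB, rfl⟩
    · rw [hY]
      refine prod_mem fun a _ => zpow_mem (sub_mem ?_ (algebraMap_mem _ a)) _
      rw [tb02_t hGE hF hθ]
      exact (IntermediateField.mem_adjoin_simple_iff F _).2
        ⟨g.map (algebraMap k F), 1, by rw [map_one, _root_.div_one]⟩
  obtain ⟨r, r', hr'⟩ := (IntermediateField.mem_adjoin_simple_iff F _).1 hK
  rw [hr'] at hmain
  have hr0 : r' ≠ 0 := by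
    rintro rfl
    rw [map_zero, div_zero, zero_pow H.prime.ne_zero, mul_zero] at hmain
    exact pow_ne_zero _ hE0 hmain
  have hfin := dvd_of_prod_eq_pow (aeval_root_injective hF H hθ) (ℓ := ℓ) (RR F g E)
    (fun β => ((m * q : ℕ) : ℤ) * e β) (c₀ ^ q) (pow_ne_zero _ hc₀0) r r' hr0 (by
      rw [← hmain, ← zpow_natCast]
      exact tb02_E_mul _ e θ)
  intro β hβ
  have h2 := hfin β hβ
  exact (Nat.isCoprime_iff_coprime.2 hcop).dvd_of_dvd_mul_left h2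

end Pool.Agent.Lib.MP_89bcae_ag.Sup

end

section

open Polynomial IsDedekindDomain

open scoped Classical

set_option linter.unusedSectionVars false

namespace Pool.Agent.Lib.MP_89bcae_ag.Sup

universe u

variable {k F L Ω : Type u} [Field k] [Field F] [Algebra k F] [Field L] [Algebra F[X] L]
  [Field Ω] [Algebra L Ω] [IsAlgClosure k F] [IsFractionRing F[X] L] [IsAlgClosure L Ω]
  [Algebra F Ω] {ℓ : ℕ} {g E : k[X]} [hG : IsGood ℓ (cOver k F L Ω g 1)] {ζ : k}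
  {hζ : (zA F L Ω ζ) ^ ℓ = 1} {N : Subgroup (Ω ≃ₐ[L] Ω)}

private lemma tb06_mem (hG' : IsGood ℓ (cOver k F L Ω g 1)) {θ : Ω} : θ ∈ rts (cOver k F L Ω g 1) ↔ (cOver k F L Ω g 1).eval θ = 0 :=
  mem_rts hG'.separable.ne_zero

private lemma tb06_stable (hG' : IsGood ℓ (cOver k F L Ω g 1)) (γ : AutO k F L Ω) {θ : Ω} :
    (γ : Ω ≃+* Ω) θ ∈ rts (cOver k F L Ω g 1) ↔ θ ∈ rts (cOver k F L Ω g 1) := by
  rw [tb06_mem hG', tb06_mem hG']
  have h1 := (toSym g 1 γ).2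
  have h2 : (cOver k F L Ω g 1).eval ((γ : Ω ≃+* Ω) θ) =
      (γ : Ω ≃+* Ω) ((cOver k F L Ω g 1).eval θ) := by
    conv_lhs => rw [← h1]
    rw [eval_map]
    exact eval₂_hom (p := cOver k F L Ω g 1) ((γ : Ω ≃+* Ω) : Ω →+* Ω) θ
  rw [h2]
  exact map_eq_zero_iff _ (γ : Ω ≃+* Ω).injective

private lemma tb06_smul_mem (hG' : IsGood ℓ (cOver k F L Ω g 1)) (σ : Ω ≃ₐ[L] Ω) {θ : Ω} :
    σ θ ∈ rts (cOver k F L Ω g 1) ↔ θ ∈ rts (cOver k F L Ω g 1) :=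
  tb06_stable hG' (galA k F σ)

private lemma tb06_exists {ζ x y : Ω} {ℓ : ℕ} (hℓ : ℓ ≠ 0) (hζ : IsPrimitiveRoot ζ ℓ)
    (hy : y ≠ 0) (h : x ^ ℓ = y ^ ℓ) : ∃ n : ℤ, x = ζ ^ n * y := by
  have : NeZero ℓ := ⟨hℓ⟩
  have h1 : (x / y) ^ ℓ = 1 := by
    rw [div_pow, h, div_self (pow_ne_zero _ hy)]
  obtain ⟨i, -, hi⟩ := hζ.eq_pow_of_pow_eq_one h1
  refine ⟨i, ?_⟩
  rw [zpow_natCast, hi, div_mul_cancel₀ _ hy]

private lemma tb06_ne (hF : CompatF F L Ω) (H : GlobHyp ℓ g E ζ) {θ : Ω}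
    (hθ : θ ∈ rts (cOver k F L Ω g 1)) (β : F) : θ - algebraMap F Ω β ≠ 0 := by
  have hΩc : IsAlgClosed Ω := IsAlgClosure.isAlgClosed L
  rw [rts_one H] at hθ
  have h1 : aeval θ (X - C β : F[X]) = θ - algebraMap F Ω β := by
    rw [map_sub, aeval_X, aeval_C]
  rw [← h1, Ne, map_eq_zero_iff _ (aeval_root_injective hF H hθ)]
  exact X_sub_C_ne_zero β

private lemma tb06_z_ne (hF : CompatF F L Ω) (H : GlobHyp ℓ g E ζ) (e : F → ℤ) {x θ : Ω}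
    (hθ : θ ∈ rts (cOver k F L Ω g 1))
    (hx : x ^ ℓ = ∏ β ∈ RR F g E, (θ - algebraMap F Ω β) ^ e β) : x ≠ 0 := by
  rintro rfl
  rw [zero_pow H.prime.ne_zero] at hx
  exact Finset.prod_ne_zero_iff.2 (fun β _ => zpow_ne_zero _ (tb06_ne hF H hθ β)) hx.symm

private lemma tb06_const (hF : CompatF F L Ω) (γ : AutO k F L Ω)
    (hγ : ∀ β ∈ RR F g E, resF γ β = β) :
    ∀ β ∈ RR F g E, (γ : Ω ≃+* Ω) (algebraMap F Ω β) = algebraMap F Ω β := by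
  intro β hβ
  rw [hF β, resF_spec, map_C]
  have h1 : (resF γ : F →+* F) β = β := hγ β hβ
  rw [h1]

private lemma tb06_map_prod (hF : CompatF F L Ω) (γ : AutO k F L Ω)
    (hγ : ∀ β ∈ RR F g E, resF γ β = β) (e : F → ℤ) (θ : Ω) :
    (γ : Ω ≃+* Ω) (∏ β ∈ RR F g E, (θ - algebraMap F Ω β) ^ e β) =
      ∏ β ∈ RR F g E, ((γ : Ω ≃+* Ω) θ - algebraMap F Ω β) ^ e β := by
  rw [map_prod]
  refine Finset.prod_congr rfl fun β hβ => ?_
  rw [map_zpow₀, map_sub, tb06_const hF γ hγ β hβ]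

private lemma tb06_conj (γ : AutO k F L Ω) (σ : Ω ≃ₐ[L] Ω) (x : Ω) :
    (conjG γ⁻¹ σ) x = (γ : Ω ≃+* Ω).symm (σ ((γ : Ω ≃+* Ω) x)) := by
  have h2 := conjG_spec γ⁻¹ σ ((γ : Ω ≃+* Ω) x)
  have h3 : ∀ y : Ω, ((γ⁻¹ : AutO k F L Ω) : Ω ≃+* Ω) y = (γ : Ω ≃+* Ω).symm y :=
    fun y => rfl
  rw [h3, h3, RingEquiv.symm_apply_apply] at h2
  exact h2

private lemma tb06_zsymm (ζ : k) (γ : AutO k F L Ω) :
    (γ : Ω ≃+* Ω).symm (zA F L Ω ζ) = zA F L Ω ζ := by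
  rw [RingEquiv.symm_apply_eq]
  exact (zA_fixed ζ γ).symm

theorem HasExpM.cob_of_dvd (hF : CompatF F L Ω) (H : GlobHyp ℓ g E ζ)
    {h : Ch ℓ k F L Ω g 1} {e : F → ℤ} (he : HasExpM ζ E h e)
    (hd : ∀ β ∈ RR F g E, (ℓ : ℤ) ∣ e β) :
    ∃ m : Ω → ℤ, ∀ σ, h σ = cob (ram m) σ := by
  have Hζ : IsPrimitiveRoot (zA F L Ω ζ) ℓ := zA_primitive H
  have hz0 : zA F L Ω ζ ≠ 0 := Hζ.ne_zero H.prime.ne_zero
  have : NeZero ℓ := ⟨H.prime.ne_zero⟩
  have h' : HasExpM ζ E h (fun _ => 0) := he.congr hF H (by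
    intro β hβ
    rw [zero_sub, dvd_neg]
    exact hd β hβ)
  obtain ⟨z, hz, hzσ⟩ := h'.ex
  have hroot : ∀ θ : Ω, ∃ m : ℤ, θ ∈ rts (cOver k F L Ω g 1) → z θ = zA F L Ω ζ ^ m := by
    intro θ
    by_cases hθ : θ ∈ rts (cOver k F L Ω g 1)
    · have h1 := hz θ hθ
      simp only [zpow_zero, Finset.prod_const_one] at h1
      obtain ⟨i, _, hi⟩ := Hζ.eq_pow_of_pow_eq_one h1
      exact ⟨i, fun _ => by rw [zpow_natCast, hi]⟩
    · exact ⟨0, fun h => absurd h hθ⟩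
  choose m₀ hm₀ using hroot
  have hfix : ∀ σ : Ω ≃ₐ[L] Ω, σ (zA F L Ω ζ) = zA F L Ω ζ := fun σ => zA_fixed ζ (galA k F σ)
  refine ⟨m₀, fun σ => ?_⟩
  have h1 := hzσ σ (fun η => m₀ (σ.symm η) - m₀ η) (by
    intro θ hθ
    rw [hm₀ θ hθ, hm₀ (σ θ) ((tb06_smul_mem hG σ).2 hθ), map_zpow₀, hfix σ, ← zpow_add₀ hz0]
    congr 1
    rw [AlgEquiv.symm_apply_apply]
    ring)
  rw [h1, ram_sub]
  unfold cob
  rw [symJ_ram]
  rfl

theorem HasExpM.unique (hF : CompatF F L Ω) (H : GlobHyp ℓ g E ζ)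
    {h h' : Ch ℓ k F L Ω g 1} {e e' : F → ℤ} (he : HasExpM ζ E h e)
    (he' : HasExpM ζ E h' e') {m : Ω → ℤ} (hh : ∀ σ, h σ = h' σ + cob (ram m) σ) :
    ∀ β ∈ RR F g E, (ℓ : ℤ) ∣ e β - e' β := by
  have hz : (zA F L Ω ζ) ^ ℓ = 1 := (zA_primitive H).pow_eq_one
  have h1 : HasExpM ζ E (h + -h') (fun β => e β + -e' β) := he.add hF H (he'.neg hF H)
  have h2 := h1.dvd_of_cob (hζ := hz) hF H (A := ram m) (zJ_ram _ hz m) (fun σ => by
    change h σ + -h' σ = _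
    rw [hh σ]
    abel)
  intro β hβ
  have h3 := h2 β hβ
  rwa [← sub_eq_add_neg] at h3

/-- The function `z` of `HasExpM` can be used to compute `γ h - h`. -/
theorem HasExpM.act_rel (hF : CompatF F L Ω) (H : GlobHyp ℓ g E ζ)
    {h : Ch ℓ k F L Ω g 1} {e : F → ℤ} (he : HasExpM ζ E h e) (γ : AutO k F L Ω)
    (hγ : ∀ β ∈ RR F g E, resF γ β = β) :
    ∃ (z : Ω → Ω) (q : Ω → ℤ),
      (∀ θ ∈ rts (cOver k F L Ω g 1),
        z θ ^ ℓ = ∏ β ∈ RR F g E, (θ - algebraMap F Ω β) ^ e β) ∧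
      (∀ (σ : Ω ≃ₐ[L] Ω) (n : Ω → ℤ), (∀ θ ∈ rts (cOver k F L Ω g 1),
        σ (z θ) = zA F L Ω ζ ^ n (σ θ) * z (σ θ)) → h σ = ram n) ∧
      (∀ θ ∈ rts (cOver k F L Ω g 1), (γ : Ω ≃+* Ω) (z θ) =
        zA F L Ω ζ ^ q ((γ : Ω ≃+* Ω) θ) * z ((γ : Ω ≃+* Ω) θ)) ∧
      ∀ σ, act1 γ h σ = h σ + cob (ram q) σ := by
  have Hζ : IsPrimitiveRoot (zA F L Ω ζ) ℓ := zA_primitive H
  have hz0 : zA F L Ω ζ ≠ 0 := Hζ.ne_zero H.prime.ne_zero
  obtain ⟨z, hz, hzσ⟩ := he.ex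
  have h1 : ∀ θ : Ω, ∃ i : ℤ, θ ∈ rts (cOver k F L Ω g 1) →
      (γ : Ω ≃+* Ω) (z θ) = zA F L Ω ζ ^ i * z ((γ : Ω ≃+* Ω) θ) := by
    intro θ
    by_cases hθ : θ ∈ rts (cOver k F L Ω g 1)
    · have hγθ := (tb06_stable hG γ).2 hθ
      obtain ⟨i, hi⟩ := tb06_exists H.prime.ne_zero Hζ (tb06_z_ne hF H e hγθ (hz _ hγθ))
        (x := (γ : Ω ≃+* Ω) (z θ)) (by
          rw [← map_pow, hz θ hθ, hz _ hγθ]
          exact tb06_map_prod hF γ hγ e θ)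
      exact ⟨i, fun _ => hi⟩
    · exact ⟨0, fun h => absurd h hθ⟩
  choose i hi using h1
  obtain ⟨q, hq⟩ : ∃ q : Ω → ℤ, ∀ θ, q ((γ : Ω ≃+* Ω) θ) = i θ :=
    ⟨fun η => i ((γ : Ω ≃+* Ω).symm η), fun θ => by
      show i ((γ : Ω ≃+* Ω).symm ((γ : Ω ≃+* Ω) θ)) = i θ
      rw [RingEquiv.symm_apply_apply]⟩
  have hq' : ∀ θ ∈ rts (cOver k F L Ω g 1), (γ : Ω ≃+* Ω) (z θ) =
      zA F L Ω ζ ^ q ((γ : Ω ≃+* Ω) θ) * z ((γ : Ω ≃+* Ω) θ) := fun θ hθ => by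
    rw [hq]
    exact hi θ hθ
  refine ⟨z, q, hz, hzσ, hq', fun σ => ?_⟩
  obtain ⟨n, hn⟩ := HasExpM.exists_n hF H e hz σ
  have hzσ' : ∀ θ ∈ rts (cOver k F L Ω g 1), z ((γ : Ω ≃+* Ω) θ) =
      zA F L Ω ζ ^ (-q ((γ : Ω ≃+* Ω) θ)) * (γ : Ω ≃+* Ω) (z θ) := by
    intro θ hθ
    rw [hq' θ hθ, ← mul_assoc, ← zpow_add₀ hz0, neg_add_cancel, zpow_zero, one_mul]
  have h2 : h (conjG γ⁻¹ σ) = ram (fun φ => q (σ.symm ((γ : Ω ≃+* Ω) φ)) +
      n ((γ : Ω ≃+* Ω) φ) - q ((γ : Ω ≃+* Ω) φ)) := by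
    apply hzσ
    intro θ hθ
    have hγθ := (tb06_stable hG γ).2 hθ
    have hφ : (conjG γ⁻¹ σ) θ ∈ rts (cOver k F L Ω g 1) := (tb06_smul_mem hG _).2 hθ
    have hγφ : (γ : Ω ≃+* Ω) ((conjG γ⁻¹ σ) θ) = σ ((γ : Ω ≃+* Ω) θ) := by
      rw [tb06_conj, RingEquiv.apply_symm_apply]
    have h3 := hzσ' _ hφ
    rw [hγφ] at h3
    rw [hγφ, AlgEquiv.symm_apply_apply, tb06_conj γ σ (z θ), RingEquiv.symm_apply_eq, hq' θ hθ,
      map_mul, map_zpow₀, show σ (zA F L Ω ζ) = zA F L Ω ζ from zA_fixed ζ (galA k F σ), hn _ hγθ,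
      h3, map_mul, map_zpow₀, zA_fixed, zpow_sub₀ hz0, zpow_add₀ hz0, zpow_neg]
    ring
  unfold act1
  rw [h2, symJ_ram]
  have h4 : (fun θ => q (σ.symm ((γ : Ω ≃+* Ω) ((((toSym g 1 γ)⁻¹ :
      Sym (cOver k F L Ω g 1)) : Ω ≃+* Ω) θ))) +
      n ((γ : Ω ≃+* Ω) ((((toSym g 1 γ)⁻¹ : Sym (cOver k F L Ω g 1)) : Ω ≃+* Ω) θ)) -
      q ((γ : Ω ≃+* Ω) ((((toSym g 1 γ)⁻¹ : Sym (cOver k F L Ω g 1)) : Ω ≃+* Ω) θ))) =
      fun θ => (n θ + q (σ.symm θ)) - q θ := by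
    funext θ
    have h5 : (γ : Ω ≃+* Ω) ((((toSym g 1 γ)⁻¹ : Sym (cOver k F L Ω g 1)) : Ω ≃+* Ω) θ) = θ :=
      (γ : Ω ≃+* Ω).apply_symm_apply θ
    rw [h5, add_comm (q (σ.symm θ))]
  rw [h4, ram_sub, ram_add, ← hzσ σ n hn]
  unfold cob
  rw [symJ_ram, add_sub_assoc]
  rfl

lemma HasExpM.act (hF : CompatF F L Ω) (H : GlobHyp ℓ g E ζ) {h : Ch ℓ k F L Ω g 1}
    {e : F → ℤ} (he : HasExpM ζ E h e) (γ : AutO k F L Ω)
    (hγ : ∀ β ∈ RR F g E, resF γ β = β) : HasExpM ζ E (act1 γ h) e := by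
  obtain ⟨z, hz, hzn⟩ := he.ex
  refine ⟨he.sum, fun θ => (γ : Ω ≃+* Ω) (z ((γ : Ω ≃+* Ω).symm θ)), fun θ hθ => ?_,
    fun σ n hn => ?_⟩
  · have hθ' : (γ : Ω ≃+* Ω).symm θ ∈ rts (cOver k F L Ω g 1) := by
      rw [← tb06_stable hG γ, RingEquiv.apply_symm_apply]
      exact hθ
    rw [← map_pow, hz _ hθ', tb06_map_prod hF γ hγ, RingEquiv.apply_symm_apply]
  · have h4 : h (conjG γ⁻¹ σ) = ram (fun x => n ((γ : Ω ≃+* Ω) x)) := by
      apply hzn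
      intro θ hθ
      have h5 := hn ((γ : Ω ≃+* Ω) θ) ((tb06_stable hG γ).2 hθ)
      simp only [RingEquiv.symm_apply_apply] at h5
      rw [tb06_conj, tb06_conj, h5, map_mul, RingEquiv.symm_apply_apply,
        RingEquiv.apply_symm_apply, map_zpow₀, tb06_zsymm]
    unfold act1
    rw [h4, symJ_ram]
    congr 1
    funext θ
    exact congrArg n ((γ : Ω ≃+* Ω).apply_symm_apply θ)

end Pool.Agent.Lib.MP_89bcae_ag.Sup

end

section

open Polynomial IsDedekindDomain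

open scoped Classical

set_option linter.unusedSectionVars false

namespace Pool.Agent.Lib.MP_89bcae_ag.Sup

universe u

variable {k F L Ω : Type u} [Field k] [Field F] [Algebra k F] [Field L] [Algebra F[X] L]
  [Field Ω] [Algebra L Ω] [IsAlgClosure k F] [IsFractionRing F[X] L] [IsAlgClosure L Ω]
  [Algebra F Ω] {ℓ : ℕ} {g E : k[X]} [hG : IsGood ℓ (cOver k F L Ω g 1)] {ζ : k}
  {hζ : (zA F L Ω ζ) ^ ℓ = 1} {N : Subgroup (Ω ≃ₐ[L] Ω)}

private lemma tb05_aeval {A : Type u} [Field A] [Algebra L A] [Algebra F A]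
    (hF : CompatF F L A) (p : F[X]) :
    aeval (tA F L A) p = algebraMap L A (algebraMap F[X] L p) := by
  have h1 : ((aeval (tA F L A) : F[X] →ₐ[F] A) : F[X] →+* A) =
      (algebraMap L A).comp (algebraMap F[X] L) := by
    apply Polynomial.ringHom_ext
    · intro c
      rw [AlgHom.coe_toRingHom, aeval_C]
      exact hF c
    · rw [AlgHom.coe_toRingHom, aeval_X]
      rfl
  exact congrArg (fun f : F[X] →+* A => f p) h1

private lemma tb05_t_inj {A : Type u} [Field A] [Algebra L A] [Algebra F A]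
    (hF : CompatF F L A) {p : F[X]} (hp : aeval (tA F L A) p = 0) : p = 0 := by
  rw [tb05_aeval hF] at hp
  have h1 : algebraMap F[X] L p = 0 := (map_eq_zero _).mp hp
  exact (IsFractionRing.injective F[X] L) (h1.trans (map_zero _).symm)

private lemma tb05_zA {A : Type u} [Field A] [Algebra L A] [Algebra F A]
    (hF : CompatF F L A) (ζ : k) : zA F L A ζ = algebraMap F A (algebraMap k F ζ) := by
  rw [hF]
  unfold zA base
  rw [RingHom.comp_apply, RingHom.comp_apply, coe_mapRingHom, map_C]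

private lemma tb05_rts_map {A : Type u} [Field A] [IsAlgClosed A] {B : Type u} [Field B] (f : A[X])
    (i : A →+* B) {x : B} : x ∈ rts (f.map i) ↔ ∃ y ∈ rts f, i y = x := by
  unfold rts
  rw [(IsAlgClosed.splits f).roots_map i, Multiset.mem_toFinset, Multiset.mem_map]
  constructor
  · rintro ⟨y, hy, h⟩
    exact ⟨y, Multiset.mem_toFinset.mpr hy, h⟩
  · rintro ⟨y, hy, h⟩
    exact ⟨y, Multiset.mem_toFinset.mp hy, h⟩

private lemma tb05_cOver {A B : Type u} [Field A] [Algebra L A] [Field B] [Algebra L B]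
    (j : A →ₐ[L] B) (g D : k[X]) :
    (cOver k F L A g D).map (j : A →+* B) = cOver k F L B g D := by
  rw [Polynomial.map_map, AlgHom.comp_algebraMap]

private lemma tb05_root_eq {M : Type u} [Field M] [Algebra L M] (j : Ω →ₐ[L] M)
    {θ : M} (hθ : θ ∈ rts (cOver k F L M g 1)) :
    ∃ θ₀ ∈ rts (cOver k F L Ω g 1), j θ₀ = θ := by
  have hcl : IsAlgClosed Ω := IsAlgClosure.isAlgClosed L
  rw [← tb05_cOver j, tb05_rts_map] at hθ
  exact hθ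

lemma badCtx_lin (H : GlobHyp ℓ g E ζ) {M : Type u} [Field M] [Algebra L M] [Algebra F M]
    (hFM : CompatF F L M) {a : F} (ha : aeval a E = 0) {ϖ : M}
    (hϖ : ϖ ^ ℓ = tA F L M - algebraMap F M a) :
    BadCtx (g.map (algebraMap k F)) (X - C a) a (tA F L M) ϖ ℓ := by
  have hdeg : g.natDegree ≠ 0 := by
    intro h0
    have h1 := H.cop
    rw [h0, Nat.coprime_zero_left] at h1
    exact H.prime.ne_one h1
  have hdeg' : (g.map (algebraMap k F)).natDegree ≠ 0 := by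
    rw [natDegree_map]
    exact hdeg
  have ha' : (E.map (algebraMap k F)).eval a = 0 := by
    rw [eval_map_algebraMap]
    exact ha
  refine ⟨H.monic.map _, hdeg', ?_, by simp, by simp, ?_, by rw [hϖ]; simp, ?_⟩
  · rw [natDegree_map]
    exact H.cop
  · intro r hr
    have hs : ((E.comp g).map (algebraMap k F)).Separable := H.sep.map
    rw [Polynomial.map_comp] at hs
    have hroot : ((E.map (algebraMap k F)).comp (g.map (algebraMap k F))).eval r = 0 := by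
      rw [eval_comp, hr, ha']
    have h1 := U01_deriv_ne hs hroot
    rw [derivative_comp, eval_mul, eval_comp, hr] at h1
    exact left_ne_zero_of_mul h1
  · intro h0
    exact X_sub_C_ne_zero _ (tb05_t_inj hFM h0)

/-- The action of `τ` on the Kummer function. -/
private lemma tb05_kummer (H : GlobHyp ℓ g E ζ) (e : F → ℤ) {a : F} (ha : aeval a E = 0)
    {K M : Type u} [Field K] [Algebra L K] [Field M] [Algebra K M] [Algebra L M]
    [IsScalarTower L K M] [Algebra F M] (hFM : CompatF F L M) {v : AbsoluteValue M ℝ}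
    (hv : LocCtx v a (tA F L M)) (hinv : ∀ (σ : M ≃ₐ[K] M) x, v (σ x) = v x)
    {δ : M} (hδ : δ ^ ℓ = tA F L M - algebraMap F M a)
    [IsAlgClosed M]
    (τ : M ≃ₐ[K] M) (i : ℤ) (hi : τ δ = zA F L M ζ ^ i * δ) {θ z : M}
    (hθ : θ ∈ rts (cOver k F L M g 1))
    (hz : z ^ ℓ = ∏ β ∈ RR F g E, (θ - algebraMap F M β) ^ e β) :
    τ θ = θ ∧ z ≠ 0 ∧ τ z = zA F L M ζ ^ (i * e (rs F v θ)) * z := by
  have hB := badCtx_lin H hFM ha hδ
  have hconst : ∀ y : L, τ (algebraMap L M y) = algebraMap L M y := by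
    intro y
    rw [IsScalarTower.algebraMap_apply L K M]
    exact τ.commutes _
  have hc : ∀ c : F, (τ : M ≃+* M) (algebraMap F M c) = algebraMap F M c := by
    intro c
    rw [hFM]
    exact hconst _
  have ht : (τ : M ≃+* M) (tA F L M) = tA F L M := hconst _
  have hτ : ∀ x, v ((τ : M ≃+* M) x) = v x := fun x => hinv τ x
  have hθt : aeval θ (g.map (algebraMap k F)) = tA F L M := by
    exact (mem_rts_one H hFM).1 hθ
  have hfix : (τ : M ≃+* M) θ = θ := hv.fix_root hB (τ : M ≃+* M) hτ hc ht hθt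
  set β := rs F v θ with hβdef
  have hβ : (g.map (algebraMap k F)).eval β = a := hv.eval_rs hB hθt
  have hres := hv.v_sub_rs (hv.v_root_le hB.monic hB.deg hθt)
  rw [← hβdef] at hres
  have hne : ∀ c : F, θ - algebraMap F M c ≠ 0 := by
    intro c h0
    have h1 : θ = algebraMap F M c := sub_eq_zero.mp h0
    rw [h1, aeval_algebraMap_apply] at hθt
    have h2 : aeval (tA F L M) (X - C (aeval c (g.map (algebraMap k F))) : F[X]) = 0 := by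
      rw [map_sub, aeval_X, aeval_C, hθt, sub_self]
    exact X_sub_C_ne_zero _ (tb05_t_inj hFM h2)
  have hβR : β ∈ RR F g E := by
    rw [mem_RR H]
    rw [eval_map_algebraMap] at hβ
    rw [hβ]
    exact ha
  have hzne : z ≠ 0 := by
    intro h0
    rw [h0, zero_pow H.prime.ne_zero] at hz
    have h1 : ∏ β ∈ RR F g E, (θ - algebraMap F M β) ^ e β ≠ 0 :=
      Finset.prod_ne_zero_iff.mpr fun c _ => zpow_ne_zero _ (hne c)
    exact h1 hz.symm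
  refine ⟨hfix, hzne, ?_⟩
  have hta : tA F L M - algebraMap F M a ≠ 0 := sub_ne_zero.mpr hv.ne
  have hδ0 : δ ≠ 0 := by
    intro h0
    apply hta
    rw [← hδ, h0, zero_pow H.prime.ne_zero]
  have hquot := hv.residue_quot hB hθt
  rw [← hβdef] at hquot
  have hv1 : v ((tA F L M - algebraMap F M a) / (θ - algebraMap F M β)) = 1 :=
    hv.v_eq_one hquot (hB.roots β hβ)
  have hv2 : v (tA F L M - algebraMap F M a) = v (θ - algebraMap F M β) := by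
    rw [map_div₀] at hv1
    exact (div_eq_one_iff_eq ((map_ne_zero v).mpr (hne β))).mp hv1
  set w₁ : M := (θ - algebraMap F M β) / (tA F L M - algebraMap F M a) with hw₁
  have hw₁v : v w₁ = 1 := by
    rw [hw₁, map_div₀, hv2, div_self ((map_ne_zero v).mpr (hne β))]
  have hDt : (τ : M ≃+* M) (tA F L M - algebraMap F M a) = tA F L M - algebraMap F M a := by
    rw [map_sub, ht, hc]
  have hw₁τ : (τ : M ≃+* M) w₁ = w₁ := by
    rw [hw₁, map_div₀, hDt, map_sub, hfix, hc]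
  set w₂ : M := ∏ β' ∈ (RR F g E).erase β, (θ - algebraMap F M β') ^ e β' with hw₂
  have hw₂v : v w₂ = 1 := by
    rw [hw₂, map_prod]
    apply Finset.prod_eq_one
    intro β' hβ'
    have hne' : β - β' ≠ 0 := sub_ne_zero.mpr (Finset.ne_of_mem_erase hβ').symm
    have h1 : v (θ - algebraMap F M β' - algebraMap F M (β - β')) < 1 := by
      have h2 : θ - algebraMap F M β' - algebraMap F M (β - β') = θ - algebraMap F M β := by
        rw [map_sub]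
        ring
      rw [h2]
      exact hres
    rw [map_zpow₀, hv.v_eq_one h1 hne', one_zpow]
  have hw₂τ : (τ : M ≃+* M) w₂ = w₂ := by
    rw [hw₂, map_prod]
    apply Finset.prod_congr rfl
    intro β' _
    rw [map_zpow₀, map_sub, hfix, hc]
  have hzw : z ^ ℓ = (δ ^ ℓ) ^ e β * (w₁ ^ e β * w₂) := by
    rw [hz, ← Finset.mul_prod_erase _ _ hβR, ← hw₂, hδ, ← mul_assoc, ← mul_zpow, hw₁,
      mul_div_cancel₀ _ hta]
  have hi' : (τ : M ≃+* M) δ = algebraMap F M (algebraMap k F ζ) ^ i * δ := by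
    rw [← tb05_zA hFM]
    exact hi
  have hζF : IsPrimitiveRoot (algebraMap k F ζ) ℓ :=
    H.zeta.map_of_injective (algebraMap k F).injective
  have hfin := hv.char_of_unit H.prime.ne_zero hδ0 hζF (τ : M ≃+* M) hτ hc (e β) i hi' hzw
    (by rw [map_mul, map_zpow₀, hw₁τ, hw₂τ]) (by rw [map_mul, map_zpow₀, hw₁v, hw₂v, one_zpow, one_mul])
  rw [tb05_zA hFM]
  exact hfin

theorem HasExpM.local_char (hF : CompatF F L Ω) (H : GlobHyp ℓ g E ζ)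
    {h : Ch ℓ k F L Ω g 1} {e : F → ℤ} (he : HasExpM ζ E h e) {a : F} (ha : aeval a E = 0)
    {K M : Type u} [Field K] [Algebra L K] [Field M] [Algebra K M] [Algebra L M]
    [IsScalarTower L K M] [Algebra F M] (hFM : CompatF F L M)
    [hGM : IsGood ℓ (cOver k F L M g 1)] {v : AbsoluteValue M ℝ}
    (hv : LocCtx v a (tA F L M)) (hinv : ∀ (σ : M ≃ₐ[K] M) x, v (σ x) = v x)
    (j : Ω →ₐ[L] M) {ϖ : M} (hϖ : ϖ ^ ℓ = tA F L M - algebraMap F M a)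
    (τ : M ≃ₐ[K] M) (τ' : Ω ≃ₐ[L] Ω) (hτ : ∀ x, j (τ' x) = τ (j x)) (i : ℤ)
    (hi : τ ϖ = zA F L M ζ ^ i * ϖ) :
    push ℓ (curvePoly k F L g 1) j (h τ') = ram fun θ => i * e (rs F v θ) := by
  obtain ⟨z, hz, hch⟩ := he.ex
  obtain ⟨n, hn⟩ := HasExpM.exists_n hF H e hz τ'
  rw [hch τ' n hn]
  have hjinj : Function.Injective j := (j : Ω →+* M).injective
  have hclM : IsAlgClosed M := hGM.alg
  have hcM0 : cOver k F L M g 1 ≠ 0 := hGM.separable.ne_zero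
  have h1 : push ℓ (curvePoly k F L g 1) j (ram n) = ram (Function.extend j n 0) :=
    jacMap_ram (j : Ω →+* M) _ n _ fun θ _ => hjinj.extend_apply n 0 θ
  rw [h1]
  apply ram_congr
  intro θ hθ
  have hθ' : θ ∈ rts (cOver k F L M g 1) := (mem_rts hcM0).mpr hθ
  obtain ⟨θ₀, hθ₀, hjθ⟩ := tb05_root_eq j hθ'
  rw [← hjθ, hjinj.extend_apply, hjθ]
  have hzj : (j (z θ₀)) ^ ℓ = ∏ β ∈ RR F g E, (θ - algebraMap F M β) ^ e β := by
    rw [← map_pow, hz θ₀ hθ₀, map_prod]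
    apply Finset.prod_congr rfl
    intro β _
    rw [map_zpow₀, map_sub, hjθ, hF, hFM, j.commutes]
  obtain ⟨hfix, hzne, hτz⟩ := tb05_kummer H e ha hFM hv hinv hϖ τ i hi hθ' hzj
  have hfix₀ : τ' θ₀ = θ₀ := by
    apply hjinj
    rw [hτ, hjθ]
    exact hfix
  have h2 := congrArg j (hn θ₀ hθ₀)
  rw [hτ, hfix₀, map_mul, map_zpow₀, map_zA, hτz] at h2
  have h3 := mul_right_cancel₀ hzne h2
  have hprim : IsPrimitiveRoot (zA F L M ζ) ℓ := by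
    rw [tb05_zA hFM]
    exact (H.zeta.map_of_injective (algebraMap k F).injective).map_of_injective
      (algebraMap F M).injective
  have hζ0 : zA F L M ζ ≠ 0 := hprim.ne_zero H.prime.ne_zero
  rw [← hprim.zpow_eq_one_iff_dvd, zpow_sub₀ hζ0, ← h3, div_self (zpow_ne_zero _ hζ0)]

end Pool.Agent.Lib.MP_89bcae_ag.Sup

end
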