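import Mathlib
import Pool.Agent.Lib.MP_89bcae_ag.Sup.GBase
import Pool.Agent.Lib.MP_89bcae_ag.Sup.L05
import Pool.Agent.Lib.MP_89bcae_ag.Sup.L07
import Pool.Agent.Lib.MP_89bcae_ag.Sup.L10
import Pool.Agent.Lib.MP_89bcae_ag.Sup.L11
import Pool.Agent.Lib.MP_89bcae_ag.Sup.R20

section

open Polynomial

open scoped Classical

set_option linter.unusedSectionVars false

namespace Pool.Agent.Lib.MP_89bcae_ag.Sup

universe u

variable {F M : Type u} [Field F] [Field M] [Algebra F M] {v : AbsoluteValue M ℝ} {a : F} {t : M}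

private lemma tc02_pow (τ : M ≃+* M) {δ z : M} (hτ : τ δ = z * δ) (hz : τ z = z) (n : ℕ) :
    (τ ^ n) δ = z ^ n * δ := by
  induction n with
  | zero => simp
  | succ n ih =>
    rw [pow_succ', RingAut.mul_apply, ih, map_mul, map_pow, hz, hτ]
    ring

/-- The values of the automorphisms at `π'`. -/
private lemma tc02_val {q : ℕ} (hq : q ≠ 0) {ξ : M} (hξ : IsPrimitiveRoot ξ q) {π' : M}
    (hπ0 : π' ≠ 0) (σ : M ≃+* M) (h : σ (π' ^ q) = π' ^ q) :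
    ∃ i < q, σ π' = ξ ^ i * π' := by
  have h3 : (σ π' / π') ^ q = 1 := by
    rw [div_pow, ← map_pow, h, div_self (pow_ne_zero _ hπ0)]
  have : NeZero q := ⟨hq⟩
  obtain ⟨j, hj, hj'⟩ := hξ.eq_pow_of_pow_eq_one h3
  exact ⟨j, hj, by rw [hj', div_mul_cancel₀ _ hπ0]⟩

private lemma tc02_v {p : ℕ} {ϖ : ℝ} {f : M[X]} {Γ : Subgroup (Sym f)}
    (hΓ : LocGrp p F v t ϖ Γ) {q : ℕ} {π' : M}
    (hπ0 : π' ≠ 0) (hπv : v π' ^ q = ϖ) : 0 < v π' ∧ v π' < 1 := by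
  have hv0 : 0 < v π' := v.pos hπ0
  refine ⟨hv0, ?_⟩
  by_contra hcon
  push Not at hcon
  have h1 : 1 ≤ v π' ^ q := one_le_pow₀ hcon
  rw [hπv] at h1
  exact absurd hΓ.lt_one (not_lt.mpr h1)

theorem LocGrp.exists_tame_pow {p ℓ r : ℕ} {ϖ : ℝ} {f : M[X]} {Γ : Subgroup (Sym f)}
    (hΓ : LocGrp p F v t ϖ Γ) (hℓ : ℓ.Prime) (hp : p.Coprime ℓ) {ξ : M}
    (hξ : IsPrimitiveRoot ξ (ℓ ^ r)) (hξΓ : ∀ σ ∈ Γ, (σ : M ≃+* M) ξ = ξ) {π' : M}
    (hπ0 : π' ≠ 0) (hπv : v π' ^ ℓ ^ r = ϖ)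
    (hπΓ : ∀ σ ∈ Γ, (σ : M ≃+* M) (π' ^ ℓ ^ r) = π' ^ ℓ ^ r) :
    ∃ τ ∈ Γ, (τ : M ≃+* M) π' = ξ * π' := by
  obtain ⟨hv0, hv1⟩ := tc02_v hΓ hπ0 hπv
  have hq0 : ℓ ^ r ≠ 0 := pow_ne_zero _ hℓ.ne_zero
  rcases Nat.eq_zero_or_pos r with hr | hr
  · subst hr
    refine ⟨1, Γ.one_mem, ?_⟩
    have h1 : ξ = 1 := by
      have h2 := hξ.pow_eq_one
      rwa [pow_zero, pow_one] at h2
    rw [h1, one_mul]
    rfl
  obtain ⟨s, rfl⟩ : ∃ s, r = s + 1 := ⟨r - 1, by omega⟩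
  -- an element with exponent prime to `ℓ`
  obtain ⟨τ, hτ, j, hj, hj0, hτj⟩ : ∃ τ ∈ Γ, ∃ j < ℓ ^ (s + 1), ¬ ℓ ∣ j ∧
      (τ : M ≃+* M) π' = ξ ^ j * π' := by
    by_contra hcon
    push Not at hcon
    have h1 : ∀ σ ∈ Γ, (σ : M ≃+* M) (π' ^ ℓ ^ s) = π' ^ ℓ ^ s := by
      intro σ hσ
      obtain ⟨j, hj, hj'⟩ := tc02_val hq0 hξ hπ0 (σ : M ≃+* M) (hπΓ σ hσ)
      by_cases hj0 : ℓ ∣ j
      · obtain ⟨i, rfl⟩ := hj0
        rw [map_pow, hj', mul_pow, ← pow_mul]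
        have h2 : ℓ * i * ℓ ^ s = ℓ ^ (s + 1) * i := by ring
        rw [h2, pow_mul, hξ.pow_eq_one, one_pow, one_mul]
      · exact absurd hj' (hcon σ hσ j hj hj0)
    have h3 := hΓ.disc _ (pow_ne_zero (ℓ ^ s) hπ0) h1
    rw [← hπv, map_pow, pow_succ, pow_mul] at h3
    have h4 := Val.dvd_of_zpow hp (pow_pos hv0 (ℓ ^ s))
      (pow_lt_one₀ hv0.le hv1 (pow_ne_zero _ hℓ.ne_zero)) 1 (by rw [zpow_one]; exact h3)
    have h5 : (ℓ : ℤ) ≤ 1 := Int.le_of_dvd one_pos h4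
    have h6 := hℓ.one_lt
    omega
  -- a power
  have hcop : Nat.Coprime j (ℓ ^ (s + 1)) :=
    Nat.Coprime.pow_right _ (Nat.Coprime.symm ((Nat.Prime.coprime_iff_not_dvd hℓ).mpr hj0))
  obtain ⟨i, -, hi⟩ := Nat.exists_mul_mod_eq_one_of_coprime hcop
    (Nat.one_lt_pow (by omega) hℓ.one_lt)
  refine ⟨τ ^ i, Subgroup.pow_mem _ hτ i, ?_⟩
  have h1 : ((τ ^ i : Sym f) : M ≃+* M) = (τ : M ≃+* M) ^ i := rfl
  rw [h1, tc02_pow (τ : M ≃+* M) hτj (by rw [map_pow, hξΓ τ hτ]), ← pow_mul]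
  congr 1
  rw [← Nat.div_add_mod (j * i) (ℓ ^ (s + 1)), hi, pow_add, pow_mul, hξ.pow_eq_one, one_pow,
    one_mul, pow_one]

/-- The stabilizer of `π'` in `Γ`. -/
def stabG {f : M[X]} (Γ : Subgroup (Sym f)) (π' : M) : Subgroup (Sym f) where
  carrier := {σ | σ ∈ Γ ∧ (σ : M ≃+* M) π' = π'}
  mul_mem' := by
    rintro σ τ ⟨h1, h2⟩ ⟨h3, h4⟩
    refine ⟨Γ.mul_mem h1 h3, ?_⟩
    change (σ : M ≃+* M) ((τ : M ≃+* M) π') = π'
    rw [h4, h2]
  one_mem' := ⟨Γ.one_mem, rfl⟩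
  inv_mem' := by
    rintro σ ⟨h1, h2⟩
    refine ⟨Γ.inv_mem h1, ?_⟩
    change (σ : M ≃+* M).symm π' = π'
    rw [RingEquiv.symm_apply_eq, h2]

theorem LocGrp.stab {p ℓ r : ℕ} {ϖ : ℝ} {f : M[X]} {Γ : Subgroup (Sym f)}
    (hΓ : LocGrp p F v t ϖ Γ) (hℓ : ℓ.Prime) {ξ : M}
    (hξ : IsPrimitiveRoot ξ (ℓ ^ r)) (hξΓ : ∀ σ ∈ Γ, (σ : M ≃+* M) ξ = ξ) {π' : M}
    (hπ0 : π' ≠ 0) (hπv : v π' ^ ℓ ^ r = ϖ)
    (hπΓ : ∀ σ ∈ Γ, (σ : M ≃+* M) (π' ^ ℓ ^ r) = π' ^ ℓ ^ r) :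
    LocGrp p F v t (v π') (stabG Γ π') := by
  obtain ⟨hv0, hv1⟩ := tc02_v hΓ hπ0 hπv
  have hq0 : ℓ ^ r ≠ 0 := pow_ne_zero _ hℓ.ne_zero
  have hξ0 : ξ ≠ 0 := hξ.ne_zero hq0
  have hΓ₀ : ∀ κ ∈ stabG Γ π', κ ∈ Γ ∧ (κ : M ≃+* M) π' = π' := fun κ hκ => hκ
  refine ⟨hv0, hv1, fun σ hσ => hΓ.inv σ hσ.1, fun σ hσ => hΓ.fix σ hσ.1,
    fun σ hσ => hΓ.fixt σ hσ.1, fun x hx0 hx => ?_⟩
  -- the smallest exponent
  have hex : ∃ d : ℕ, 0 < d ∧ ∃ σ ∈ Γ, (σ : M ≃+* M) π' = ξ ^ d * π' := by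
    refine ⟨ℓ ^ r, Nat.pos_of_ne_zero hq0, 1, Γ.one_mem, ?_⟩
    rw [hξ.pow_eq_one, one_mul]
    rfl
  have hd0 : 0 < Nat.find hex := (Nat.find_spec hex).1
  obtain ⟨τ, hτ, hτd⟩ := (Nat.find_spec hex).2
  have hdmin : ∀ i : ℕ, 0 < i → (∃ σ ∈ Γ, (σ : M ≃+* M) π' = ξ ^ i * π') → Nat.find hex ≤ i :=
    fun i hi h => Nat.find_min' hex ⟨hi, h⟩
  generalize Nat.find hex = d at hd0 hτd hdmin
  have hfixζ : ∀ σ ∈ Γ, ∀ i : ℕ, (σ : M ≃+* M) (ξ ^ i) = ξ ^ i := fun σ hσ i => by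
    rw [map_pow, hξΓ σ hσ]
  have hτi : ∀ i : ℕ, ((τ ^ i : Sym f) : M ≃+* M) π' = ξ ^ (d * i) * π' := fun i => by
    have h1 := tc02_pow (τ : M ≃+* M) hτd (hfixζ τ hτ d) i
    rw [← pow_mul] at h1
    exact h1
  have hinv : ∀ (σ : Sym f) (y : M),
      ((σ⁻¹ : Sym f) : M ≃+* M) ((σ : M ≃+* M) y) = y := fun σ y =>
    (σ : M ≃+* M).symm_apply_apply y
  -- all the exponents are multiples of `d`
  have hval : ∀ σ ∈ Γ, ∀ i : ℕ, (σ : M ≃+* M) π' = ξ ^ i * π' → d ∣ i := by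
    intro σ hσ i hi
    by_contra hcon
    have h0 : 0 < i % d := Nat.pos_of_ne_zero fun h => hcon (Nat.dvd_of_mod_eq_zero h)
    have h1 : (((τ ^ (i / d))⁻¹ * σ : Sym f) : M ≃+* M) π' = ξ ^ (i % d) * π' := by
      have hmem : (τ ^ (i / d))⁻¹ ∈ Γ := Γ.inv_mem (Γ.pow_mem hτ _)
      change (((τ ^ (i / d))⁻¹ : Sym f) : M ≃+* M) ((σ : M ≃+* M) π') = _
      have h2 : ξ ^ i * π' = ξ ^ (i % d) * (ξ ^ (d * (i / d)) * π') := by
        rw [← mul_assoc, ← pow_add, add_comm, Nat.div_add_mod]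
      rw [hi, h2, ← hτi, map_mul, hfixζ _ hmem, hinv]
    have h3 := hdmin _ h0 ⟨_, Γ.mul_mem (Γ.inv_mem (Γ.pow_mem hτ _)) hσ, h1⟩
    exact absurd (Nat.mod_lt i hd0) (not_lt.mpr h3)
  obtain ⟨n, hn⟩ : d ∣ ℓ ^ r := by
    refine hval 1 Γ.one_mem _ ?_
    rw [hξ.pow_eq_one, one_mul]
    rfl
  have hn0 : n ≠ 0 := by
    rintro rfl
    exact hq0 (by rw [hn, mul_zero])
  -- the norm
  have hκx : ∀ κ ∈ stabG Γ π', ∀ i : ℕ, (κ : M ≃+* M) (((τ ^ i : Sym f) : M ≃+* M) x) =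
      ((τ ^ i : Sym f) : M ≃+* M) x := by
    intro κ hκ i
    have h1 : (τ ^ i)⁻¹ * κ * τ ^ i ∈ stabG Γ π' := by
      refine ⟨Γ.mul_mem (Γ.mul_mem (Γ.inv_mem (Γ.pow_mem hτ i)) (hΓ₀ κ hκ).1)
        (Γ.pow_mem hτ i), ?_⟩
      change (((τ ^ i)⁻¹ : Sym f) : M ≃+* M) ((κ : M ≃+* M)
        (((τ ^ i : Sym f) : M ≃+* M) π')) = π'
      rw [hτi, map_mul, hfixζ κ (hΓ₀ κ hκ).1, (hΓ₀ κ hκ).2, ← hτi, hinv]
    have h3 := hx _ h1
    change (((τ ^ i)⁻¹ : Sym f) : M ≃+* M) ((κ : M ≃+* M)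
        (((τ ^ i : Sym f) : M ≃+* M) x)) = x at h3
    have h4 := congrArg (((τ ^ i : Sym f) : M ≃+* M)) h3
    exact ((((τ ^ i : Sym f) : M ≃+* M)).apply_symm_apply _).symm.trans h4
  have hN0 : ∀ σ ∈ stabG Γ π', (σ : M ≃+* M) (∏ i ∈ Finset.range n,
      ((τ ^ i : Sym f) : M ≃+* M) x) =
        ∏ i ∈ Finset.range n, ((τ ^ i : Sym f) : M ≃+* M) x := by
    intro σ hσ
    rw [map_prod]
    exact Finset.prod_congr rfl fun i _ => hκx σ hσ i
  have hτN : (τ : M ≃+* M) (∏ i ∈ Finset.range n, ((τ ^ i : Sym f) : M ≃+* M) x) =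
      ∏ i ∈ Finset.range n, ((τ ^ i : Sym f) : M ≃+* M) x := by
    rw [map_prod]
    have h1 : ∀ i ∈ Finset.range n, (τ : M ≃+* M) (((τ ^ i : Sym f) : M ≃+* M) x) =
        ((τ ^ (i + 1) : Sym f) : M ≃+* M) x := by
      intro i _
      rw [pow_succ']
      rfl
    rw [Finset.prod_congr rfl h1]
    have h3 : ((τ ^ n : Sym f) : M ≃+* M) x = x := by
      refine hx _ ⟨Γ.pow_mem hτ n, ?_⟩
      rw [hτi, ← hn, hξ.pow_eq_one, one_mul]
    obtain ⟨m, hm⟩ : ∃ m, n = m + 1 := ⟨n - 1, by omega⟩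
    have h4 : ((τ ^ (m + 1) : Sym f) : M ≃+* M) x = x := by
      rw [← hm]; exact h3
    have h5 : ∏ i ∈ Finset.range n, ((τ ^ (i + 1) : Sym f) : M ≃+* M) x =
        (∏ i ∈ Finset.range m, ((τ ^ (i + 1) : Sym f) : M ≃+* M) x) * x := by
      rw [hm, Finset.prod_range_succ, h4]
    have h6 : ∏ i ∈ Finset.range n, ((τ ^ i : Sym f) : M ≃+* M) x =
        (∏ i ∈ Finset.range m, ((τ ^ (i + 1) : Sym f) : M ≃+* M) x) * x := by
      rw [hm, Finset.prod_range_succ']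
      rfl
    rw [h5, h6]
  have hτN' : ∀ i : ℕ, (((τ ^ i : Sym f) : M ≃+* M))
      (∏ i ∈ Finset.range n, ((τ ^ i : Sym f) : M ≃+* M) x) =
        ∏ i ∈ Finset.range n, ((τ ^ i : Sym f) : M ≃+* M) x := by
    intro i
    induction i with
    | zero => rfl
    | succ i ih =>
      rw [pow_succ]
      change ((τ ^ i : Sym f) : M ≃+* M) ((τ : M ≃+* M)
        (∏ i ∈ Finset.range n, ((τ ^ i : Sym f) : M ≃+* M) x)) = _
      rw [hτN, ih]
  have hN : ∀ σ ∈ Γ, (σ : M ≃+* M) (∏ i ∈ Finset.range n, ((τ ^ i : Sym f) : M ≃+* M) x) =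
      ∏ i ∈ Finset.range n, ((τ ^ i : Sym f) : M ≃+* M) x := by
    intro σ hσ
    obtain ⟨i, -, hi⟩ := tc02_val hq0 hξ hπ0 (σ : M ≃+* M) (hπΓ σ hσ)
    obtain ⟨j, rfl⟩ := hval σ hσ i hi
    have h1 : (τ ^ j)⁻¹ * σ ∈ stabG Γ π' := by
      refine ⟨Γ.mul_mem (Γ.inv_mem (Γ.pow_mem hτ j)) hσ, ?_⟩
      change (((τ ^ j)⁻¹ : Sym f) : M ≃+* M) ((σ : M ≃+* M) π') = π'
      rw [hi, ← hτi, hinv]
    have h3 := hN0 _ h1
    change (((τ ^ j)⁻¹ : Sym f) : M ≃+* M) ((σ : M ≃+* M) _) = _ at h3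
    have h4 := congrArg (((τ ^ j : Sym f) : M ≃+* M)) h3
    rw [hτN' j] at h4
    exact ((((τ ^ j : Sym f) : M ≃+* M)).apply_symm_apply _).symm.trans h4
  have hN1 : v (∏ i ∈ Finset.range n, ((τ ^ i : Sym f) : M ≃+* M) x) = v x ^ n := by
    rw [map_prod, Finset.prod_congr rfl fun i _ => hΓ.inv _ (Γ.pow_mem hτ i) x,
      Finset.prod_const, Finset.card_range]
  have hN2 := hΓ.disc _ (Finset.prod_ne_zero_iff.mpr fun i _ =>
    (EmbeddingLike.map_ne_zero_iff (f := ((τ ^ i : Sym f) : M ≃+* M))).mpr hx0) hN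
  have hN3 := hN2.pow d
  rw [hN1, ← hπv, ← pow_mul, mul_comm n d, ← hn] at hN3
  exact Val.root hq0 hv0 (v.pos hx0) hN3

end Pool.Agent.Lib.MP_89bcae_ag.Sup

end

section

open Polynomial IsDedekindDomain

open scoped Classical

set_option linter.unusedSectionVars false

namespace Pool.Agent.Lib.MP_89bcae_ag.Sup

universe u

variable {k F L Ω : Type u} [Field k] [Field F] [Algebra k F] [Field L] [Algebra F[X] L]
  [Field Ω] [Algebra L Ω] [IsAlgClosure k F] [IsFractionRing F[X] L] [IsAlgClosure L Ω]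
  [Algebra F Ω] {ℓ : ℕ} {g E : k[X]} [hG : IsGood ℓ (cOver k F L Ω g 1)] {ζ : k}
  {hζ : (zA F L Ω ζ) ^ ℓ = 1} {N : Subgroup (Ω ≃ₐ[L] Ω)}

/-- Local data at `t = a`. -/
structure LocDat (F L : Type u) [Field F] [Field L] [Algebra F[X] L] [IsFractionRing F[X] L]
    (a : F) (M : Type u) [Field M] [Algebra ((plc a).adicCompletion L) M] [Algebra L M]
    [IsScalarTower L ((plc a).adicCompletion L) M] [Algebra F M] (v : AbsoluteValue M ℝ) :
    Prop where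
  compat : CompatF F L M
  ctx : LocCtx v a (tA F L M)
  inv : ∀ (σ : M ≃ₐ[(plc a).adicCompletion L] M) x, v (σ x) = v x
  val : ∀ x : (plc a).adicCompletion L, x ≠ 0 → ∃ i : ℤ,
    v (algebraMap ((plc a).adicCompletion L) M x) = v (tA F L M - algebraMap F M a) ^ i
  iso : ∀ (w : M ≃+* M) (φ : (plc a).adicCompletion L ≃+* (plc a).adicCompletion L),
    (∀ x, Valued.v (φ x) = Valued.v x) →
    (∀ x, w (algebraMap ((plc a).adicCompletion L) M x) =
      algebraMap ((plc a).adicCompletion L) M (φ x)) → ∀ x, v (w x) = v x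

theorem exists_locDat [IsAlgClosed F] (a : F) :
    ∃ (M : Type u) (_ : Field M) (_ : Algebra ((plc a).adicCompletion L) M)
      (_ : IsAlgClosure ((plc a).adicCompletion L) M) (_ : Algebra L M)
      (_ : IsScalarTower L ((plc a).adicCompletion L) M) (_ : Algebra F M)
      (v : AbsoluteValue M ℝ) (_ : Ω →ₐ[L] M), LocDat F L a M v := by
  have hΩalg : Algebra.IsAlgebraic L Ω := IsAlgClosure.isAlgebraic
  let iF : Algebra F (AlgebraicClosure ((plc a).adicCompletion L)) :=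
    ((algebraMap L (AlgebraicClosure ((plc a).adicCompletion L))).comp
      ((algebraMap F[X] L).comp (C : F →+* F[X]))).toAlgebra
  have hFM : CompatF F L (AlgebraicClosure ((plc a).adicCompletion L)) := fun _ => rfl
  have hXL : ∀ P : F[X], algebraMap ((plc a).adicCompletion L)
      (AlgebraicClosure ((plc a).adicCompletion L))
      (algebraMap F[X] ((plc a).adicCompletion L) P) =
      algebraMap L (AlgebraicClosure ((plc a).adicCompletion L)) (algebraMap F[X] L P) := by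
    intro P
    rw [IsScalarTower.algebraMap_apply F[X] L ((plc a).adicCompletion L),
      ← IsScalarTower.algebraMap_apply L ((plc a).adicCompletion L)]
  obtain ⟨v, hv, hval, hinv, hsemi⟩ := exists_locCtx (L := L)
    (M := AlgebraicClosure ((plc a).adicCompletion L)) a (fun c => by rw [hXL, hFM])
  rw [hXL] at hv hval
  let j : Ω →ₐ[L] AlgebraicClosure ((plc a).adicCompletion L) := IsAlgClosed.lift
  exact ⟨AlgebraicClosure ((plc a).adicCompletion L), inferInstance, inferInstance, inferInstance,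
    inferInstance, inferInstance, iF, v, j, ⟨hFM, hv, hinv, hval, hsemi⟩⟩

section

variable {a : F} {M : Type u} [Field M] [Algebra ((plc a).adicCompletion L) M]
  [IsAlgClosure ((plc a).adicCompletion L) M] [Algebra L M]
  [IsScalarTower L ((plc a).adicCompletion L) M] [Algebra F M] {v : AbsoluteValue M ℝ}

lemma LocDat.hfK (g D : k[X]) : ((curvePoly k F L g D).map
    (algebraMap L ((plc a).adicCompletion L))).map
      (algebraMap ((plc a).adicCompletion L) M) = cOver k F L M g D := by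
  rw [Polynomial.map_map, ← IsScalarTower.algebraMap_eq]

theorem LocDat.locGrp (hd : LocDat F L a M v) (g D : k[X]) :
    LocGrp (ringExpChar ((plc a).adicCompletion L)) F v (tA F L M)
      (v (tA F L M - algebraMap F M a))
      (galSym (LocDat.hfK (k := k) (F := F) (L := L) (a := a) (M := M) g D)).range := by
  refine hd.ctx.locGrp _ hd.inv hd.val (fun c =>
    ⟨algebraMap L ((plc a).adicCompletion L) (algebraMap F[X] L (C c)), ?_⟩)
    ⟨algebraMap L ((plc a).adicCompletion L) (algebraMap F[X] L X), ?_⟩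
  · rw [← IsScalarTower.algebraMap_apply, ← hd.compat]
  · rw [← IsScalarTower.algebraMap_apply]
    rfl

lemma LocDat.coprime (H : GlobHyp ℓ g E ζ) :
    (ringExpChar ((plc a).adicCompletion L)).Coprime ℓ := by
  have hℓK : (ℓ : (plc a).adicCompletion L) ≠ 0 := by
    intro h0
    apply H.ne
    let ι : k →+* (plc a).adicCompletion L :=
      (algebraMap L ((plc a).adicCompletion L)).comp ((algebraMap F[X] L).comp
        ((C : F →+* F[X]).comp (algebraMap k F)))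
    apply ι.injective
    rw [map_natCast, map_zero]
    exact h0
  rcases expChar_is_prime_or_one ((plc a).adicCompletion L)
    (ringExpChar ((plc a).adicCompletion L)) with h1 | h1
  · rw [Nat.coprime_primes h1 H.prime]
    intro h2
    apply hℓK
    rw [← h2]
    have h3 : ringExpChar ((plc a).adicCompletion L) = ringChar ((plc a).adicCompletion L) := by
      have h4 : 1 < ringExpChar ((plc a).adicCompletion L) := h1.one_lt
      unfold ringExpChar at h4 ⊢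
      rcases max_cases (ringChar ((plc a).adicCompletion L)) 1 with h5 | h5
      · exact h5.1
      · rw [h5.1] at h4
        exact absurd h4 (lt_irrefl _)
    rw [h3]
    exact ringChar.Nat.cast_ringChar
  · rw [h1]
    exact Nat.coprime_one_left ℓ

/-- The restriction to `Ω` of an automorphism of `M` over the completion. -/
lemma LocDat.restrict (j : Ω →ₐ[L] M) (σ : M ≃ₐ[(plc a).adicCompletion L] M) :
    ∃ σ' : Ω ≃ₐ[L] Ω, ∀ x, j (σ' x) = σ (j x) :=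
  exists_restrict j (σ.restrictScalars L)

/-- A local semilinear automorphism with a given restriction `U` to `F`, `U a = a`. -/
theorem LocDat.exists_semilinear (hd : LocDat F L a M v) (j : Ω →ₐ[L] M)
    (γ₀ : AutO k F L Ω) (ha : resF γ₀ a = a) :
    ∃ (w : M ≃+* M) (φ : (plc a).adicCompletion L ≃+* (plc a).adicCompletion L)
      (γ : AutO k F L Ω),
      (∀ x, w (algebraMap ((plc a).adicCompletion L) M x) =
        algebraMap ((plc a).adicCompletion L) M (φ x)) ∧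
      (∀ x, v (w x) = v x) ∧ (∀ x, j ((γ : Ω ≃+* Ω) x) = w (j x)) ∧ resF γ = resF γ₀ := by
  have hFc : IsAlgClosed F := IsAlgClosure.isAlgClosed k
  have hφ : ∃ φ : (plc a).adicCompletion L ≃+* (plc a).adicCompletion L,
      (∀ x : L, φ (algebraMap L _ x) = algebraMap L _ (coefL L (resF γ₀ : F ≃+* F) x)) ∧
      ∀ x, Valued.v (φ x) = Valued.v x := by
    have h1 := exists_adic_equiv L (resF γ₀ : F ≃+* F) a
    have h2 : (resF γ₀ : F ≃+* F) a = a := ha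
    rwa [h2] at h1
  obtain ⟨φ, hφL, hφv⟩ := hφ
  obtain ⟨w, hw⟩ := exists_extend_alg (M := M) φ
  have hwL : ∀ x : L, w (algebraMap L M x) =
      algebraMap L M (coefL L (resF γ₀ : F ≃+* F) x) := by
    intro x
    rw [IsScalarTower.algebraMap_apply L ((plc a).adicCompletion L) M, hw, hφL,
      ← IsScalarTower.algebraMap_apply L ((plc a).adicCompletion L)]
  obtain ⟨γ₁, hγ₁, hjγ₁⟩ := exists_compat j (coefL L (resF γ₀ : F ≃+* F)) w hwL
  have hγP : ∀ P : F[X], γ₁ (algebraMap L Ω (algebraMap F[X] L P)) =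
      algebraMap L Ω (algebraMap F[X] L (P.map (resF γ₀ : F →+* F))) := by
    intro P
    rw [hγ₁, coefL_algebraMap]
    rfl
  let γ' : AutO k F L Ω := ⟨γ₁, fun p => by
    have h1 := hγP (p.map (algebraMap k F))
    have h2 : (p.map (algebraMap k F)).map (resF γ₀ : F →+* F) = p.map (algebraMap k F) := by
      rw [Polynomial.map_map]
      congr 1
      exact (resF γ₀ : F →ₐ[k] F).comp_algebraMap
    rw [h2] at h1
    exact h1⟩
  have hres : resF γ' = resF γ₀ := by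
    ext x
    have h1 := resF_spec γ' (C x)
    have h2 := hγP (C x)
    have h3 : (γ' : Ω ≃+* Ω) (algebraMap L Ω (algebraMap F[X] L (C x))) =
      γ₁ (algebraMap L Ω (algebraMap F[X] L (C x))) := rfl
    rw [h3, h2] at h1
    have h4 := IsFractionRing.injective F[X] L ((algebraMap L Ω).injective h1)
    rw [Polynomial.map_C, Polynomial.map_C] at h4
    exact (C_injective h4).symm
  exact ⟨w, φ, γ', hw, hd.iso w φ hφv hw, hjγ₁, hres⟩

end

end Pool.Agent.Lib.MP_89bcae_ag.Sup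

end

section

open Polynomial

open scoped Classical

set_option linter.unusedSectionVars false

namespace Pool.Agent.Lib.MP_89bcae_ag.Sup

universe u

variable {F M : Type u} [Field F] [Field M] [Algebra F M] {v : AbsoluteValue M ℝ} {a : F} {t : M}

theorem LocCtx.eval_q (h : LocCtx v a t) {ℓ : ℕ} (hℓ : ℓ ≠ 0) {g D : F[X]} {δ : M}
    (hB : BadCtx g D a t δ ℓ) {ζ : F} (hζ : IsPrimitiveRoot ζ ℓ)
    (u : M ≃+* M) (U : F ≃+* F) (huv : ∀ x, v (u x) = v x)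
    (huF : ∀ c : F, u (algebraMap F M c) = algebraMap F M (U c)) (hut : u t = t)
    (hUζ : U ζ = ζ) (huδ : u δ = δ) (R : Finset F) (hR : ∀ β, g.eval β = a → β ∈ R) {lc : F}
    (hDg : D.comp g = C lc * ∏ β ∈ R, (X - C β)) (hUR : ∀ β ∈ R, U β = β)
    (e : F → ℤ) {θ z : M} (hθ : aeval θ g = t)
    (hz : z ^ ℓ = ∏ β ∈ R, (θ - algebraMap F M β) ^ e β) (q : ℤ)
    (hq : u z = algebraMap F M ζ ^ q * z) :
    ∀ x : F, x ^ ℓ = lc ^ (-e (rs F v θ)) *
        ∏ β ∈ R.erase (rs F v θ), (rs F v θ - β) ^ (e β - e (rs F v θ)) →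
      U x = ζ ^ q * x := by
  intro x hx
  set β₀ := rs F v θ with hβ₀
  have hβR : β₀ ∈ R := hR β₀ (h.eval_rs hB hθ)
  have hres : v (θ - algebraMap F M β₀) < 1 := h.v_sub_rs (h.v_root_le hB.monic hB.deg hθ)
  have hDt : aeval t D = algebraMap F M lc * ∏ β ∈ R, (θ - algebraMap F M β) := by
    have h1 : aeval θ (D.comp g) = aeval t D := by rw [aeval_comp, hθ]
    rw [← h1, hDg, map_mul, map_prod, aeval_C]
    congr 1
    apply Finset.prod_congr rfl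
    intro β _
    rw [map_sub, aeval_X, aeval_C]
  have hne := hB.ne
  rw [hDt] at hne
  have hlcM : algebraMap F M lc ≠ 0 := left_ne_zero_of_mul hne
  have hlc : lc ≠ 0 := by
    intro h0
    apply hlcM
    rw [h0, map_zero]
  have hθβ : ∀ β ∈ R, θ - algebraMap F M β ≠ 0 := fun β hβ =>
    Finset.prod_ne_zero_iff.mp (right_ne_zero_of_mul hne) β hβ
  have hδ0 : δ ≠ 0 := by
    intro h0
    apply hB.ne
    rw [← hB.delta, h0, zero_pow hℓ]
  set Y := z / δ ^ e β₀ with hY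
  have hYl : Y ^ ℓ = algebraMap F M (lc ^ (-e β₀)) *
      ∏ β ∈ R.erase β₀, (θ - algebraMap F M β) ^ (e β - e β₀) := by
    have h1 : (δ ^ e β₀) ^ ℓ = (aeval t D) ^ e β₀ := by
      rw [← hB.delta, ← zpow_natCast, ← zpow_natCast, ← zpow_mul, ← zpow_mul, mul_comm]
    have h2 : ∏ β ∈ R.erase β₀, (θ - algebraMap F M β) ^ (e β - e β₀) =
        ∏ β ∈ R, (θ - algebraMap F M β) ^ (e β - e β₀) :=
      Finset.prod_erase _ (by rw [sub_self, zpow_zero])
    have h3 : ∏ β ∈ R, (θ - algebraMap F M β) ^ (e β - e β₀) =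
        (∏ β ∈ R, (θ - algebraMap F M β) ^ e β) / (∏ β ∈ R, (θ - algebraMap F M β)) ^ e β₀ := by
      rw [← Finset.prod_zpow, ← Finset.prod_div_distrib]
      apply Finset.prod_congr rfl
      intro β hβ
      rw [zpow_sub₀ (hθβ β hβ)]
    rw [hY, div_pow, hz, h1, hDt, h2, h3, mul_zpow, map_zpow₀, zpow_neg,
      div_mul_eq_div_div_swap, div_eq_inv_mul]
  have hw0 : ∀ β ∈ R.erase β₀, β₀ - β ≠ 0 := fun β hβ =>
    sub_ne_zero.mpr (Finset.ne_of_mem_erase hβ).symm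
  have hrβ : ∀ β : F, v ((θ - algebraMap F M β) - algebraMap F M (β₀ - β)) < 1 := by
    intro β
    have h1 : (θ - algebraMap F M β) - algebraMap F M (β₀ - β) = θ - algebraMap F M β₀ := by
      rw [map_sub]; ring
    rw [h1]
    exact hres
  have hprod : ∀ S : Finset F, S ⊆ R.erase β₀ →
      v (∏ β ∈ S, (θ - algebraMap F M β) ^ (e β - e β₀) -
        algebraMap F M (∏ β ∈ S, (β₀ - β) ^ (e β - e β₀))) < 1 := by
    intro S
    induction S using Finset.induction_on with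
    | empty =>
      intro _
      rw [Finset.prod_empty, Finset.prod_empty, map_one, sub_self, map_zero]
      exact zero_lt_one
    | insert b S hb ih =>
      intro hS
      rw [Finset.prod_insert hb, Finset.prod_insert hb]
      exact h.residue_mul (h.residue_zpow (hrβ b) (hw0 b (hS (Finset.mem_insert_self _ _))) _)
        (ih fun y hy => hS (Finset.mem_insert_of_mem hy))
  have hYr : v (Y ^ ℓ - algebraMap F M (x ^ ℓ)) < 1 := by
    rw [hYl, hx]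
    apply h.residue_mul _ (hprod _ subset_rfl)
    rw [sub_self, map_zero]
    exact zero_lt_one
  have hx0 : x ≠ 0 := by
    intro h0
    rw [h0, zero_pow hℓ] at hx
    exact mul_ne_zero (zpow_ne_zero _ hlc)
      (Finset.prod_ne_zero_iff.mpr fun β hβ => zpow_ne_zero _ (hw0 β hβ)) hx.symm
  have hvYl : v (Y ^ ℓ) = 1 := h.v_eq_one hYr (pow_ne_zero _ hx0)
  have hvY : v Y = 1 := by
    rw [map_pow] at hvYl
    exact (pow_eq_one_iff_of_nonneg (v.nonneg _) hℓ).mp hvYl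
  obtain ⟨c, hc⟩ := h.residue Y hvY.le
  have hc0 : c ≠ 0 := by
    intro h0
    rw [h0, map_zero, sub_zero, hvY] at hc
    exact lt_irrefl _ hc
  have hcl : c ^ ℓ = x ^ ℓ := by
    have h1 := h.residue_zpow hc hc0 (ℓ : ℤ)
    rw [zpow_natCast, zpow_natCast] at h1
    exact h.residue_unique h1 hYr
  have : NeZero ℓ := ⟨hℓ⟩
  obtain ⟨i, -, hi⟩ := hζ.eq_pow_of_pow_eq_one (show (c / x) ^ ℓ = 1 by
    rw [div_pow, hcl, div_self (pow_ne_zero _ hx0)])
  have hcx : c = ζ ^ i * x := by rw [hi, div_mul_cancel₀ _ hx0]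
  have huY : u Y = algebraMap F M ζ ^ q * Y := by
    rw [hY, map_div₀, map_zpow₀, huδ, hq, mul_div_assoc]
  have h1 : v (u Y - algebraMap F M (U c)) < 1 := by
    rw [← huF, ← map_sub, huv]
    exact hc
  have h2 : v (u Y - algebraMap F M (ζ ^ q * c)) < 1 := by
    rw [huY]
    apply h.residue_mul _ hc
    rw [map_zpow₀, sub_self, map_zero]
    exact zero_lt_one
  have h3 : U c = ζ ^ q * c := h.residue_unique h1 h2
  rw [hcx, map_mul, map_pow, hUζ] at h3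
  have hζi : ζ ^ i ≠ 0 := pow_ne_zero _ (hζ.ne_zero hℓ)
  apply mul_left_cancel₀ hζi
  rw [h3]
  ring

end Pool.Agent.Lib.MP_89bcae_ag.Sup

end

section

open Polynomial

open scoped Classical

set_option linter.unusedSectionVars false

namespace Pool.Agent.Lib.MP_89bcae_ag.Sup

universe u

variable {F M : Type u} [Field F] [Field M] [Algebra F M] {v : AbsoluteValue M ℝ} {a : F} {t : M}

lemma LocCtx.badCtx_lin' (h : LocCtx v a t) [IsAlgClosed M] {g : F[X]} {ℓ : ℕ} (hg : g.Monic)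
    (hm : g.natDegree ≠ 0) (hmℓ : g.natDegree.Coprime ℓ)
    (hroots : ∀ r, g.eval r = a → (derivative g).eval r ≠ 0) {δ : M}
    (hδ : δ ^ ℓ = t - algebraMap F M a) : BadCtx g (X - C a) a t δ ℓ := by
  refine ⟨hg, hm, hmℓ, ?_, ?_, hroots, ?_, ?_⟩
  · simp
  · simp
  · rw [hδ]; simp
  · simp only [map_sub, aeval_X, aeval_C]
    exact sub_ne_zero.mpr h.ne

theorem LocCtx.good_fixed (h : LocCtx v a t) {ℓ p : ℕ} (hp : p.Coprime ℓ) {g : F[X]}
    (hg : g.Monic) (hm : g.natDegree ≠ 0) (hmℓ : g.natDegree.Coprime ℓ)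
    (hroots : ∀ r, g.eval r = a → (derivative g).eval r ≠ 0) {f : M[X]}
    (hf : f = locPoly g t 1) [hG : IsGood ℓ f] {ζ : F} (hζ : IsPrimitiveRoot ζ ℓ)
    (hζ' : IsPrimitiveRoot (algebraMap F M ζ) ℓ) {ϖ : ℝ} {Γ : Subgroup (Sym f)}
    (hΓ : LocGrp p F v t ϖ Γ) {π' : M} (hπ : v π' = ϖ)
    (hπΓ : ∀ σ ∈ Γ, (σ : M ≃+* M) π' = π') (Q : Jac ℓ f)
    (hQ : ∀ σ ∈ Γ, zJ (algebraMap F M ζ) hζ'.pow_eq_one (symJ σ Q - Q) = symJ σ Q - Q) :
    ∀ σ ∈ Γ, symJ σ Q = Q := by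
  subst hf
  have hAC : IsAlgClosed M := hG.alg
  have hℓ0 : ℓ ≠ 0 := hG.prime.ne_zero
  have hf0 : locPoly g t 1 ≠ 0 := locPoly_ne_zero hg hm one_ne_zero
  obtain ⟨δ, hδ⟩ := IsAlgClosed.exists_pow_nat_eq (t - algebraMap F M a) (Nat.pos_of_ne_zero hℓ0)
  have hB := h.badCtx_lin' hg hm hmℓ hroots hδ
  have hroot : ∀ θ : M, (locPoly g t 1).eval θ = 0 → aeval θ g = t := fun θ hθ =>
    (eval_locPoly_eq_zero one_ne_zero).mp hθ
  have hfixr : ∀ σ ∈ Γ, ∀ θ : M, (locPoly g t 1).eval θ = 0 → (σ : M ≃+* M) θ = θ :=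
    fun σ hσ θ hθ => h.fix_root hB (σ : M ≃+* M) (hΓ.inv σ hσ) (hΓ.fix σ hσ) (hΓ.fixt σ hσ)
      (hroot θ hθ)
  have hnear : ∀ r' : F, ∀ θ, θ ∈ near v (locPoly g t 1) r' →
      (locPoly g t 1).eval θ = 0 ∧ v (θ - algebraMap F M r') < 1 := by
    intro r' θ hθ
    unfold near at hθ
    rw [Finset.mem_filter] at hθ
    exact ⟨(mem_rts hf0).mp hθ.1, hθ.2⟩
  have huniq : ∀ r' : F, ∀ θ ∈ near v (locPoly g t 1) r', ∀ θ' ∈ near v (locPoly g t 1) r',
      θ = θ' := by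
    intro r' θ hθ θ' hθ'
    obtain ⟨h1, h2⟩ := hnear r' θ hθ
    obtain ⟨h3, h4⟩ := hnear r' θ' hθ'
    apply h.rs_injOn hB (hroot θ h1) (hroot θ' h3)
    rw [h.rs_eq h2, h.rs_eq h4]
  have horb : ∀ r' : F, ∀ θ ∈ near v (locPoly g t 1) r', ∀ θ' ∈ near v (locPoly g t 1) r',
      ∃ σ ∈ Γ, (σ : M ≃+* M) θ = θ' := by
    intro r' θ hθ θ' hθ'
    refine ⟨1, Γ.one_mem, ?_⟩
    rw [huniq r' θ hθ θ' hθ']
    rfl
  have hfixζ : ∀ σ ∈ Γ, (σ : M ≃+* M) (algebraMap F M ζ) = algebraMap F M ζ :=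
    fun σ hσ => hΓ.fix σ hσ ζ
  have hstab : ∀ σ ∈ (Γ : Set (Sym (locPoly g t 1))),
      symJ σ (Q - zJ (algebraMap F M ζ) hζ'.pow_eq_one Q) =
        Q - zJ (algebraMap F M ζ) hζ'.pow_eq_one Q := by
    intro σ hσ
    have h1 := hQ σ hσ
    rw [map_sub] at h1
    rw [map_sub, ← zJ_symJ _ _ σ (hfixζ σ hσ)]
    have h2 : symJ σ Q - zJ (algebraMap F M ζ) hζ'.pow_eq_one (symJ σ Q) -
        (Q - zJ (algebraMap F M ζ) hζ'.pow_eq_one Q) =
        (symJ σ Q - Q) - (zJ (algebraMap F M ζ) hζ'.pow_eq_one (symJ σ Q) -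
          zJ (algebraMap F M ζ) hζ'.pow_eq_one Q) := by abel
    rw [← sub_eq_zero, h2, h1, sub_self]
  obtain ⟨D, hDcl, hDfix⟩ := exists_stable (algebraMap F M ζ) hζ'
    (Γ : Set (Sym (locPoly g t 1))) _ hstab
  obtain ⟨z', hz', hkum⟩ := kummer_formula (algebraMap F M ζ) hζ' Q D hDcl.symm
  intro σ hσ
  have hπ0 : π' ≠ 0 := by
    intro h0
    rw [h0, map_zero] at hπ
    exact hΓ.pos.ne hπ
  have hk := hkum σ (hfixζ σ hσ) (hDfix σ hσ) (fun _ => 0) (by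
    intro θ hθ
    rw [hfixr σ hσ θ hθ, zpow_zero, one_mul]
    refine h.root_fixed_of_val hℓ0 hp hζ (σ : M ≃+* M) (hΓ.inv σ hσ) (hΓ.fix σ hσ) (hz' θ hθ).1
      hπ0 (hπΓ σ hσ) ?_ ?_
    · rw [(hz' θ hθ).2, map_mul, sym_uval σ D (hDfix σ hσ), map_zpow₀, map_pow, map_neg, map_one,
        hfixr σ hσ θ hθ]
    · have hres := h.v_sub_rs (h.v_root_le hg hm (hroot θ hθ))
      have hmem : θ ∈ near v (locPoly g t 1) (rs F v θ) := by
        unfold near
        rw [Finset.mem_filter]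
        exact ⟨(mem_rts hf0).mpr hθ, hres⟩
      have hcard : (near v (locPoly g t 1) (rs F v θ)).card = 1 := by
        rw [Finset.card_eq_one]
        refine ⟨θ, ?_⟩
        ext x
        rw [Finset.mem_singleton]
        constructor
        · intro hx
          exact huniq _ x hx θ hmem
        · rintro rfl
          exact hmem
      have hval := h.val_uval (p := p) hg hm one_ne_zero hmℓ hΓ
        (by rw [map_one]; exact Val.one p (ϖ ^ ℓ)) D (hDfix) (r := rs F v θ)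
        (horb (rs F v θ)) hmem
      rw [hcard, pow_one] at hval
      have hv1 : v (z' θ ^ ℓ) = v (uval D θ) := by
        rw [(hz' θ hθ).2, map_mul, map_zpow₀, map_pow, v.map_neg, map_one, one_pow, one_zpow,
          one_mul]
      rw [hv1, hπ]
      exact hval)
  have h0 : (ram (fun _ => 0) : Jac ℓ (locPoly g t 1)) = 0 := by
    have h1 := ram_sub (ℓ := ℓ) (f := locPoly g t 1) (fun _ => 0) (fun _ => 0)
    simpa using h1
  rw [h0] at hk
  exact sub_eq_zero.mp hk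

end Pool.Agent.Lib.MP_89bcae_ag.Sup

end

section

open Polynomial

open scoped Classical

set_option linter.unusedSectionVars false

namespace Pool.Agent.Lib.MP_89bcae_ag.Sup

universe u

variable {F M : Type u} [Field F] [Field M] [Algebra F M] {v : AbsoluteValue M ℝ} {a : F} {t : M}

private lemma tc09_exists_zpow {K : Type*} [Field K] {ℓ : ℕ} (hℓ : ℓ ≠ 0) {ζ : K}
    (hζ : IsPrimitiveRoot ζ ℓ) {x y : K} (hy : y ≠ 0) (h : x ^ ℓ = y ^ ℓ) :
    ∃ k : ℤ, x = ζ ^ k * y := by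
  have : NeZero ℓ := ⟨hℓ⟩
  have h1 : (x / y) ^ ℓ = 1 := by
    rw [div_pow, h, div_self (pow_ne_zero _ hy)]
  obtain ⟨i, _, hi⟩ := hζ.eq_pow_of_pow_eq_one h1
  refine ⟨i, ?_⟩
  rw [zpow_natCast, hi, div_mul_cancel₀ _ hy]

private lemma tc09_res_const (x : F) : v (algebraMap F M x - algebraMap F M x) < 1 := by
  rw [sub_self, map_zero]; exact one_pos

private lemma tc09_res_sub (h : LocCtx v a t) {x y : M} {c d : F}
    (hc : v (x - algebraMap F M c) < 1) (hd : v (y - algebraMap F M d) < 1) :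
    v (x - y - algebraMap F M (c - d)) < 1 := by
  have e : x - y - algebraMap F M (c - d) =
      (x - algebraMap F M c) + -(y - algebraMap F M d) := by
    rw [map_sub]; ring
  rw [e]
  refine lt_of_le_of_lt (h.nonarch _ _) (max_lt hc ?_)
  rw [map_neg_eq_map]
  exact hd

private lemma tc09_res_prod (h : LocCtx v a t) {ι : Type*} (s : Finset ι) (x : ι → M) (c : ι → F)
    (hx : ∀ i ∈ s, v (x i - algebraMap F M (c i)) < 1) :
    v (∏ i ∈ s, x i - algebraMap F M (∏ i ∈ s, c i)) < 1 := by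
  induction s using Finset.induction_on with
  | empty => simp
  | insert i s hi ih =>
    rw [Finset.prod_insert hi, Finset.prod_insert hi]
    exact h.residue_mul (hx i (Finset.mem_insert_self _ _))
      (ih fun j hj => hx j (Finset.mem_insert_of_mem hj))

private lemma tc09_res_pow (h : LocCtx v a t) {x : M} {c : F}
    (hc : v (x - algebraMap F M c) < 1) (n : ℕ) :
    v (x ^ n - algebraMap F M (c ^ n)) < 1 := by
  have := h.residue_eval hc (X ^ n)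
  simpa using this

/-- An `ℓ`-th root of `ε = (-1) ^ (ℓ + 1)` fixed by `U`. -/
private lemma tc09_eps {K : Type*} [Field K] [IsAlgClosed K] {ℓ : ℕ} (hℓ : ℓ ≠ 0) (U : K ≃+* K)
    (h1 : ∀ x : K, x ^ ℓ = -1 → U x = x) :
    ∃ x₀ : K, x₀ ^ ℓ = (-1) ^ (ℓ + 1) ∧ U x₀ = x₀ := by
  rcases Nat.even_or_odd (ℓ + 1) with he | ho
  · exact ⟨1, by rw [one_pow, he.neg_one_pow], map_one U⟩
  · obtain ⟨x, hx⟩ := IsAlgClosed.exists_pow_nat_eq (-1 : K) (Nat.pos_of_ne_zero hℓ)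
    exact ⟨x, by rw [hx, ho.neg_one_pow], h1 x hx⟩

theorem LocCtx.sym_eval (h : LocCtx v a t) [IsAlgClosed M] {ℓ : ℕ} {g : F[X]}
    (hg : g.Monic) (hm : g.natDegree ≠ 0) (hmℓ : g.natDegree.Coprime ℓ)
    (hroots : ∀ r, g.eval r = a → (derivative g).eval r ≠ 0) {f : M[X]}
    (hf : f = locPoly g t 1) [hG : IsGood ℓ f] {ζ : F} (hζ : IsPrimitiveRoot ζ ℓ)
    (hζ' : IsPrimitiveRoot (algebraMap F M ζ) ℓ)
    (u : Sym f) (U : F ≃+* F) (huv : ∀ x, v ((u : M ≃+* M) x) = v x)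
    (huF : ∀ c : F, (u : M ≃+* M) (algebraMap F M c) = algebraMap F M (U c))
    (hut : (u : M ≃+* M) t = t) (hug : g.map (U : F →+* F) = g) (hUζ : U ζ = ζ)
    (hU : ∀ β, g.eval β = a → U β = β)
    (h1 : ∀ x : F, x ^ ℓ = -1 → U x = x)
    (e : F → ℤ) (Q : Jac ℓ f)
    (hQ : Q - zJ (algebraMap F M ζ) hζ'.pow_eq_one Q = ram fun θ => e (rs F v θ))
    (R₀ : Finset F) (hR₀ : ∀ β, β ∈ R₀ ↔ g.eval β = a) :
    ∃ n : M → ℤ, symJ u Q = Q + ram n ∧ ∀ θ ∈ rts f, ∀ x : F,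
      x ^ ℓ = ∏ β' ∈ R₀.erase (rs F v θ), (rs F v θ - β') ^ (e β' - e (rs F v θ)) →
      U x = ζ ^ n θ * x := by
  subst hf
  have hFac : IsAlgClosed F := h.alg
  have hℓ0 : ℓ ≠ 0 := hG.prime.ne_zero
  have hζ0 : ζ ≠ 0 := hζ.ne_zero hℓ0
  have huζ : (u : M ≃+* M) (algebraMap F M ζ) = algebraMap F M ζ := by rw [huF, hUζ]
  obtain ⟨δ, hδ⟩ := IsAlgClosed.exists_pow_nat_eq (t - algebraMap F M a) (Nat.pos_of_ne_zero hℓ0)
  have hB : BadCtx g (X - C a) a t δ ℓ := h.badCtx_lin' hg hm hmℓ hroots hδ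
  have hroot : ∀ {θ : M}, (locPoly g t (1 : M)).eval θ = 0 ↔ aeval θ g = t := fun {θ} =>
    eval_locPoly_eq_zero one_ne_zero
  have hmemr : ∀ {θ : M}, θ ∈ rts (locPoly g t (1 : M)) ↔ aeval θ g = t := fun {θ} => by
    rw [mem_rts (locPoly_ne_zero hg hm one_ne_zero), hroot]
  have hsep : (locPoly g t (1 : M)).Separable := hG.separable
  have hres : ∀ {θ : M}, aeval θ g = t → v (θ - algebraMap F M (rs F v θ)) < 1 := fun {θ} hθ =>
    h.v_sub_rs (h.v_root_le hg hm hθ)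
  -- `u` fixes the roots
  have hufix : ∀ θ : M, (locPoly g t (1 : M)).eval θ = 0 → (u : M ≃+* M) θ = θ := by
    intro θ hθ
    have hθt := hroot.1 hθ
    have huθ : aeval ((u : M ≃+* M) θ) g = t := hroot.1 ((eval_sym_eq_zero u).2 hθ)
    refine h.rs_injOn hB huθ hθt ?_
    apply h.rs_eq
    have h1 := hres hθt
    have h2 : U (rs F v θ) = rs F v θ := hU _ (h.eval_rs hB hθt)
    rw [← huv, map_sub, huF, h2] at h1
    exact h1
  have hufix' : ∀ θ : M, (locPoly g t (1 : M)).eval θ = 0 →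
      ((u⁻¹ : Sym _) : M ≃+* M) θ = θ := by
    intro θ hθ
    have h1 : ((u⁻¹ : Sym _) : M ≃+* M) ((u : M ≃+* M) θ) = θ :=
      (u : M ≃+* M).symm_apply_apply θ
    rwa [hufix θ hθ] at h1
  -- the Kummer formula
  obtain ⟨w, hw, hker⟩ := kummer_formula (algebraMap F M ζ) hζ' Q
    (ramDiv fun θ => e (rs F v θ)) hQ
  have hDfix : (ramDiv (fun θ => e (rs F v θ)) :
      Pt ℓ (locPoly g t (1 : M)) →₀ ℤ).mapDomain (Pt.sym u) =
      ramDiv fun θ => e (rs F v θ) := by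
    rw [mapDomain_sym_ramDiv]
    refine ramDiv_congr _ _ ?_
    intro θ hθ
    rw [hufix' θ hθ]
  have hn : ∀ θ : M, ∃ n : ℤ, (locPoly g t (1 : M)).eval θ = 0 →
      (u : M ≃+* M) (w θ) = algebraMap F M ζ ^ n * w θ := by
    intro θ
    by_cases hθ : (locPoly g t (1 : M)).eval θ = 0
    · obtain ⟨n, hn⟩ : ∃ n : ℤ, (u : M ≃+* M) (w θ) = algebraMap F M ζ ^ n * w θ := by
        refine tc09_exists_zpow hℓ0 hζ' (hw θ hθ).1 ?_
        rw [← map_pow, (hw θ hθ).2, map_mul, map_zpow₀, map_pow, map_neg, map_one,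
          sym_uval u _ hDfix, hufix θ hθ]
      exact ⟨n, fun _ => hn⟩
    · exact ⟨0, fun h0 => absurd h0 hθ⟩
  choose n hn using hn
  have hkn : symJ u Q - Q = ram n := by
    refine hker u huζ hDfix n ?_
    intro θ hθ
    rw [hufix θ hθ]
    exact hn θ hθ
  refine ⟨n, by rw [← hkn, add_sub_cancel], ?_⟩
  intro θ hθm x hx
  have hθt := hmemr.1 hθm
  have hθ := hroot.2 hθt
  have hneg : ∀ θ' ∈ (rts (locPoly g t (1 : M))).erase θ, rs F v θ - rs F v θ' ≠ 0 := by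
    intro θ' hθ' h0
    obtain ⟨h2, h3⟩ := Finset.mem_erase.1 hθ'
    exact h2 (h.rs_injOn hB hθt (hmemr.1 h3) (sub_eq_zero.1 h0)).symm
  -- the set of the residues
  have hR₁ : R₀.erase (rs F v θ) = ((rts (locPoly g t (1 : M))).erase θ).image (rs F v) := by
    ext β
    rw [Finset.mem_erase, Finset.mem_image, hR₀]
    constructor
    · rintro ⟨h2, h3⟩
      obtain ⟨θ', hθ', rfl⟩ := h.exists_root hB h3
      refine ⟨θ', Finset.mem_erase.2 ⟨?_, hmemr.2 hθ'⟩, rfl⟩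
      rintro rfl
      exact h2 rfl
    · rintro ⟨θ', hθ', rfl⟩
      refine ⟨fun h0 => hneg θ' hθ' (sub_eq_zero.2 h0.symm), ?_⟩
      exact h.eval_rs hB (hmemr.1 (Finset.mem_of_mem_erase hθ'))
  rw [hR₁, Finset.prod_image] at hx
  swap
  · intro x hx y hy hxy
    exact h.rs_injOn hB (hmemr.1 (Finset.mem_of_mem_erase hx))
      (hmemr.1 (Finset.mem_of_mem_erase hy)) hxy
  -- the residue of `(w θ) ^ ℓ`
  obtain ⟨x₀, hx₀, hUx₀⟩ := tc09_eps hℓ0 U h1
  have hx₀0 : x₀ ≠ 0 := by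
    rintro rfl
    rw [zero_pow hℓ0] at hx₀
    exact pow_ne_zero _ (neg_ne_zero.2 one_ne_zero) hx₀.symm
  have hx0 : x ≠ 0 := by
    rintro rfl
    rw [zero_pow hℓ0] at hx
    exact (Finset.prod_ne_zero_iff.2 fun θ' hθ' => zpow_ne_zero _ (hneg θ' hθ')) hx.symm
  have hwl : w θ ^ ℓ = ((-1) ^ (ℓ + 1)) ^ e (rs F v θ) *
      ∏ θ' ∈ (rts (locPoly g t (1 : M))).erase θ, (θ - θ') ^ (e (rs F v θ') - e (rs F v θ)) := by
    have hne : ∀ θ' ∈ (rts (locPoly g t (1 : M))).erase θ, θ - θ' ≠ 0 := fun θ' hθ' =>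
      sub_ne_zero.2 (Finset.ne_of_mem_erase hθ').symm
    rw [(hw θ hθ).2, atR_ramDiv _ hθ, uval_ramDiv _ hθ,
      derivative_locPoly_eval hg hm one_ne_zero hsep hθm, inv_one, one_mul]
    congr 1
    have h2 : (locPoly g t (1 : M)).roots.toFinset = rts (locPoly g t (1 : M)) := rfl
    rw [h2, ← Finset.prod_inv_distrib, ← Finset.prod_zpow, ← Finset.prod_mul_distrib]
    refine Finset.prod_congr rfl fun θ' hθ' => ?_
    rw [inv_zpow, ← zpow_neg, ← zpow_add₀ (hne θ' hθ')]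
    congr 1
    ring
  have hkey : v (w θ ^ ℓ - algebraMap F M ((x₀ ^ e (rs F v θ) * x) ^ ℓ)) < 1 := by
    have h2 : (x₀ ^ e (rs F v θ) * x) ^ ℓ = ((-1) ^ (ℓ + 1)) ^ e (rs F v θ) *
        ∏ θ' ∈ (rts (locPoly g t (1 : M))).erase θ,
          (rs F v θ - rs F v θ') ^ (e (rs F v θ') - e (rs F v θ)) := by
      rw [mul_pow, hx, ← hx₀, ← zpow_natCast, ← zpow_natCast, ← zpow_mul, ← zpow_mul,
        mul_comm (e (rs F v θ))]
    rw [hwl, h2]
    refine h.residue_mul ?_ (tc09_res_prod h _ _ _ fun θ' hθ' => h.residue_zpow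
      (tc09_res_sub h (hres hθt) (hres (hmemr.1 (Finset.mem_of_mem_erase hθ')))) (hneg θ' hθ') _)
    have h3 : (((-1 : M) ^ (ℓ + 1)) ^ e (rs F v θ)) =
        algebraMap F M (((-1) ^ (ℓ + 1)) ^ e (rs F v θ)) := by
      rw [map_zpow₀, map_pow, map_neg, map_one]
    rw [h3]
    exact tc09_res_const _
  have hy0 : x₀ ^ e (rs F v θ) * x ≠ 0 := mul_ne_zero (zpow_ne_zero _ hx₀0) hx0
  have hvw : v (w θ) = 1 := by
    have h2 := h.v_eq_one hkey (pow_ne_zero ℓ hy0)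
    rw [map_pow] at h2
    exact (pow_eq_one_iff_of_nonneg (v.nonneg _) hℓ0).1 h2
  obtain ⟨y₀, hy₀⟩ := h.residue _ hvw.le
  have hpow : y₀ ^ ℓ = (x₀ ^ e (rs F v θ) * x) ^ ℓ :=
    h.residue_unique (tc09_res_pow h hy₀ ℓ) hkey
  obtain ⟨k, hk⟩ := tc09_exists_zpow hℓ0 hζ hy0 hpow
  -- the action of `u`
  have hr1 : v ((u : M ≃+* M) (w θ) - algebraMap F M (U y₀)) < 1 := by
    rw [← huF, ← map_sub, huv]
    exact hy₀
  have hr2 : v ((u : M ≃+* M) (w θ) - algebraMap F M (ζ ^ n θ * y₀)) < 1 := by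
    rw [hn θ hθ, ← map_zpow₀]
    exact h.residue_mul (tc09_res_const _) hy₀
  have hUy : U y₀ = ζ ^ n θ * y₀ := h.residue_unique hr1 hr2
  rw [hk, map_mul, map_mul, map_zpow₀, map_zpow₀, hUζ, hUx₀] at hUy
  have hc0 : ζ ^ k * x₀ ^ e (rs F v θ) ≠ 0 := mul_ne_zero (zpow_ne_zero _ hζ0)
    (zpow_ne_zero _ hx₀0)
  refine mul_left_cancel₀ hc0 ?_
  linear_combination hUy

end Pool.Agent.Lib.MP_89bcae_ag.Sup

end
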