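import Mathlib
import Pool.Agent.Lib.MP_89bcae_ag.Tow.M03
import Pool.Agent.Lib.MP_89bcae_ag.Tow.M04
import Pool.Agent.Lib.MP_89bcae_ag.Tow.M06

section

open Polynomial IsDedekindDomain

open scoped Classical

set_option linter.unusedSectionVars false

namespace Pool.Agent.Lib.MP_89bcae_ag.Sup

universe u

variable {k F L Ω : Type u} [Field k] [Field F] [Algebra k F] [Field L] [Algebra F[X] L]
  [Field Ω] [Algebra L Ω] [IsAlgClosure k F] [IsFractionRing F[X] L] [IsAlgClosure L Ω]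
  [Algebra F Ω] {ℓ : ℕ} {g E : k[X]} [hG : IsGood ℓ (cOver k F L Ω g 1)] {ζ : k}
  {hζ : (zA F L Ω ζ) ^ ℓ = 1} {N : Subgroup (Ω ≃ₐ[L] Ω)}

variable {a : F} {M : Type u} [Field M] [Algebra ((plc a).adicCompletion L) M]
  [IsAlgClosure ((plc a).adicCompletion L) M] [Algebra L M]
  [IsScalarTower L ((plc a).adicCompletion L) M] [Algebra F M] {v : AbsoluteValue M ℝ}

/-- The local condition on `N` at `a`: locally `N` is the stabilizer of `s₀`, `s₀ ^ (ℓ ^ r)` has the value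
of `t - a`. -/
structure RamAt (a : F) (N : Subgroup (Ω ≃ₐ[L] Ω)) (r ℓ : ℕ) (s₀ : Ω) (M : Type u) [Field M]
    [Algebra ((plc a).adicCompletion L) M] [Algebra L M] [Algebra F M]
    (v : AbsoluteValue M ℝ) (j : Ω →ₐ[L] M) : Prop where
  mem : ∀ (σ : M ≃ₐ[(plc a).adicCompletion L] M) (σ' : Ω ≃ₐ[L] Ω), (∀ x, j (σ' x) = σ (j x)) →
    (σ' ∈ N ↔ σ (j s₀) = j s₀)
  val : v (j s₀) ^ ℓ ^ r = v (tA F L M - algebraMap F M a)
  fix : ∀ σ : M ≃ₐ[(plc a).adicCompletion L] M, σ (j s₀ ^ ℓ ^ r) = j s₀ ^ ℓ ^ r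

lemma tc05_smul {c : Coch ℓ k F L Ω g 1} (hc : TCs N c) (n : ℕ) {σ : Ω ≃ₐ[L] Ω}
    (hσ : σ ∈ N) : ℓ ^ n • c n σ = 0 := by
  induction n with
  | zero => rw [pow_zero, one_smul, hc.zero σ hσ]
  | succ n ih => rw [pow_succ, mul_smul, hc.smul n σ hσ, ih]

lemma tc05_iter {A : Type u} [AddCommGroup A] (Z : A →+ A) (G : Set (A →+ A))
    (hG : ∀ s ∈ G, ∀ x, Z (s x) = s (Z x))
    (h1 : ∀ Q : A, (∀ s ∈ G, Z (s Q - Q) = s Q - Q) → ∀ s ∈ G, s Q = Q) (m : ℕ) :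
    ∀ Q : A, (∀ s ∈ G, (fun x => x - Z x)^[m] (s Q - Q) = 0) → ∀ s ∈ G, s Q = Q := by
  induction m with
  | zero =>
    intro Q hQ s hs
    exact sub_eq_zero.mp (hQ s hs)
  | succ m ih =>
    intro Q hQ
    apply h1
    intro s hs
    have h2 := ih (Q - Z Q) (by
      intro s' hs'
      have h3 := hQ s' hs'
      rw [Function.iterate_succ_apply] at h3
      have h4 : s' (Q - Z Q) - (Q - Z Q) = (s' Q - Q) - Z (s' Q - Q) := by
        rw [map_sub, map_sub, hG s' hs']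
        abel
      rw [h4]
      exact h3) s hs
    have h5 : s (Q - Z Q) - (Q - Z Q) = (s Q - Q) - Z (s Q - Q) := by
      rw [map_sub, map_sub, hG s hs]
      abel
    rw [h2, sub_self] at h5
    exact (sub_eq_zero.mp h5.symm).symm

theorem LTs.vanish (hd : LocDat F L a M v) (H : GlobHyp ℓ g E ζ) (ha : aeval a E = 0)
    {r : ℕ} {ζr : F} (hr : IsPrimitiveRoot ζr (ℓ ^ r)) {s₀ : Ω} (j : Ω →ₐ[L] M)
    (hR : RamAt a N r ℓ s₀ M v j) {c : Coch ℓ k F L Ω g 1} (hc : TCs N c) (hLT : LTs N c)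
    (n : ℕ) {σ : M ≃ₐ[(plc a).adicCompletion L] M} {σ' : Ω ≃ₐ[L] Ω}
    (hσ : ∀ x, j (σ' x) = σ (j x)) (hN : σ' ∈ N) : c n σ' = 0 := by
  have hMc : IsAlgClosed M := IsAlgClosure.isAlgClosed ((plc a).adicCompletion L)
  have hGM : IsGood ℓ (cOver k F L M g 1) := goodAll_one H M
  have hℓ0 : ℓ ≠ 0 := H.prime.ne_zero
  obtain ⟨ϖ, hϖ⟩ := IsAlgClosed.exists_pow_nat_eq (tA F L M - algebraMap F M a)
    (Nat.pos_of_ne_zero hℓ0)
  have hB := badCtx_lin H hd.compat ha hϖ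
  have hf : cOver k F L M g 1 = locPoly (g.map (algebraMap k F)) (tA F L M) 1 :=
    cOver_one hd.compat g
  have hζF : IsPrimitiveRoot (algebraMap k F ζ) ℓ :=
    H.zeta.map_of_injective (algebraMap k F).injective
  have hζM : IsPrimitiveRoot (algebraMap F M (algebraMap k F ζ)) ℓ :=
    hζF.map_of_injective (algebraMap F M).injective
  have hvt : 0 < v (tA F L M - algebraMap F M a) := v.pos (sub_ne_zero.mpr hd.ctx.ne)
  have hπ0 : j s₀ ≠ 0 := by
    intro h0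
    have h1 := hR.val
    rw [h0, map_zero, zero_pow (pow_ne_zero _ hℓ0)] at h1
    exact hvt.ne h1
  have hΓ := hd.locGrp (k := k) g 1
  have hΓ' := hΓ.stab (r := r) H.prime (hr.map_of_injective (algebraMap F M).injective)
    (fun τ hτ => hΓ.fix τ hτ ζr) hπ0 hR.val (by
      rintro _ ⟨τ, rfl⟩
      exact hR.fix τ)
  have hmemΓ : ∀ τ : M ≃ₐ[(plc a).adicCompletion L] M, τ (j s₀) = j s₀ →
      galSym (LocDat.hfK (k := k) (F := F) (L := L) (a := a) (M := M) g 1) τ ∈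
        stabG (galSym (LocDat.hfK (k := k) (F := F) (L := L) (a := a) (M := M) g 1)).range
          (j s₀) := fun τ hτ => ⟨⟨τ, rfl⟩, hτ⟩
  obtain ⟨Q, hQ⟩ := hLT a n M j
  have hpush : ∀ τ : M ≃ₐ[(plc a).adicCompletion L] M,
      push ℓ (curvePoly k F L g 1) (τ.restrictScalars L : M →ₐ[L] M) Q =
        symJ (galSym (LocDat.hfK (k := k) (F := F) (L := L) (a := a) (M := M) g 1) τ) Q :=
    fun _ => rfl
  have hfixζ : ∀ τ ∈ stabG (galSym (LocDat.hfK (k := k) (F := F) (L := L) (a := a)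
      (M := M) g 1)).range (j s₀),
      (τ : M ≃+* M) (algebraMap F M (algebraMap k F ζ)) = algebraMap F M (algebraMap k F ζ) :=
    fun τ hτ => hΓ'.fix τ hτ _
  have key := tc05_iter (zJ (algebraMap F M (algebraMap k F ζ)) hζM.pow_eq_one :
      Jac ℓ (cOver k F L M g 1) →+ Jac ℓ (cOver k F L M g 1))
    {s | ∃ τ ∈ stabG (galSym (LocDat.hfK (k := k) (F := F) (L := L) (a := a)
      (M := M) g 1)).range (j s₀), s = symJ τ}
    (by
      rintro _ ⟨τ, hτ, rfl⟩ x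
      exact zJ_symJ _ _ τ (hfixζ τ hτ) x)
    (by
      rintro P hP _ ⟨τ, hτ, rfl⟩
      exact hd.ctx.good_fixed (LocDat.coprime H) hB.monic hB.deg hB.cop hB.roots hf hζF hζM hΓ'
        rfl (fun τ' hτ' => hτ'.2) P (fun τ' hτ' => hP _ ⟨τ', hτ', rfl⟩) τ hτ)
    ((ℓ - 1) * n) Q
    (by
      rintro _ ⟨_, ⟨⟨τ, rfl⟩, hτs⟩, rfl⟩
      obtain ⟨τ', hτ'⟩ := LocDat.restrict j τ
      have hN' : τ' ∈ N := (hR.mem τ τ' hτ').mpr hτs
      have h1 := hQ τ τ' hN' hτ'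
      rw [hpush τ] at h1
      rw [← h1]
      apply iterate_eq_zero_of_smul _ hζM
      rw [← map_nsmul, tc05_smul hc n hN', map_zero])
  have hσs : σ (j s₀) = j s₀ := (hR.mem σ σ' hσ).mp hN
  have h2 := key _ ⟨_, hmemΓ σ hσs, rfl⟩
  apply push_inj_torsion H j n (c n σ') (tc05_smul hc n hN)
  rw [hQ σ σ' hN hσ, hpush σ, h2, sub_self]

end Pool.Agent.Lib.MP_89bcae_ag.Sup

end

section

open Polynomial IsDedekindDomain

open scoped Classical

set_option linter.unusedSectionVars false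

namespace Pool.Agent.Lib.MP_89bcae_ag.Sup

universe u

variable {k F L Ω : Type u} [Field k] [Field F] [Algebra k F] [Field L] [Algebra F[X] L]
  [Field Ω] [Algebra L Ω] [IsAlgClosure k F] [IsFractionRing F[X] L] [IsAlgClosure L Ω]
  [Algebra F Ω] {ℓ : ℕ} {g E : k[X]} {ζ : k}

variable {a : F} {M : Type u} [Field M] [Algebra ((plc a).adicCompletion L) M]
  [IsAlgClosure ((plc a).adicCompletion L) M] [Algebra L M]
  [IsScalarTower L ((plc a).adicCompletion L) M] [Algebra F M] {v : AbsoluteValue M ℝ}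

variable {r : ℕ} {ζr : F} {s : Ω}

private lemma tc07_aeval {A : Type u} [Field A] [Algebra L A] [Algebra F A]
    (hF : CompatF F L A) (p : F[X]) :
    aeval (tA F L A) p = algebraMap L A (algebraMap F[X] L p) := by
  have h1 : ((aeval (tA F L A) : F[X] →ₐ[F] A) : F[X] →+* A) =
      (algebraMap L A).comp (algebraMap F[X] L) := by
    apply Polynomial.ringHom_ext
    · intro c
      rw [AlgHom.coe_toRingHom, aeval_C]
      exact hF c
    · rw [AlgHom.coe_toRingHom, aeval_X]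
      rfl
  exact congrArg (fun f : F[X] →+* A => f p) h1

private lemma tc07_base {A : Type u} [Field A] [Algebra L A] [Algebra F A]
    (hF : CompatF F L A) (p : k[X]) :
    base k F L A p = aeval (tA F L A) (p.map (algebraMap k F)) := by
  rw [tc07_aeval hF]
  rfl

private lemma tc07_hs (hD : TowDat (L := L) ℓ r g E ζ ζr s) {A : Type u} [Field A]
    [Algebra L A] (j : Ω →ₐ[L] A) : (j s) ^ ℓ ^ r = base k F L A E := by
  rw [← map_pow, hD.hs]
  exact j.commutes _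

private lemma tc07_pow_s {τ : Ω ≃ₐ[L] Ω} {c : F} {s : Ω} (h : τ s = xA F L Ω c * s) (n : ℕ) :
    (τ ^ n) s = xA F L Ω c ^ n * s := by
  induction n with
  | zero => simp
  | succ n ih =>
    have h1 : (τ ^ (n + 1)) s = (τ ^ n) (τ s) := by
      rw [pow_succ]
      rfl
    have h2 : (τ ^ n) (xA F L Ω c) = xA F L Ω c := AlgEquiv.commutes _ _
    rw [h1, h, map_mul, h2, ih, pow_succ]
    ring

private lemma tc07_cancel (hD : TowDat (L := L) ℓ r g E ζ ζr s) (i : ℕ) :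
    xA F L Ω ζr ^ i * (xA F L Ω ζr ^ ((ℓ ^ r - 1) * i) * s) = s := by
  have h0 : 0 < ℓ ^ r := pow_pos hD.glob.prime.pos r
  have h1 : xA F L Ω ζr ^ ℓ ^ r = 1 := by
    unfold xA
    rw [← map_pow, ← map_pow, ← map_pow, hD.prim.pow_eq_one, C_1, map_one, map_one]
  rw [← mul_assoc, ← pow_add]
  have h2 : i + (ℓ ^ r - 1) * i = ℓ ^ r * i := by
    obtain ⟨q, hq⟩ : ∃ q, ℓ ^ r = q + 1 := ⟨ℓ ^ r - 1, by omega⟩
    rw [hq]
    simp only [Nat.add_sub_cancel]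
    ring
  rw [h2, pow_mul, h1, one_pow, one_mul]

lemma TowDat.ramAt (hD : TowDat (L := L) ℓ r g E ζ ζr s) (hd : LocDat F L a M v)
    (ha : aeval a E = 0) (j : Ω →ₐ[L] M) :
    RamAt a (Nst s : Subgroup (Ω ≃ₐ[L] Ω)) r ℓ s M v j := by
  have hpow : (j s) ^ ℓ ^ r = base k F L M E := tc07_hs hD j
  have hE : base k F L M E = aeval (tA F L M) (E.map (algebraMap k F)) :=
    tc07_base hd.compat E
  refine ⟨?_, ?_, ?_⟩
  · intro σ σ' hσ
    constructor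
    · intro h
      have h1 : σ' s = s := h
      rw [← hσ, h1]
    · intro h
      rw [← hσ] at h
      exact (j : Ω →+* M).injective h
  · have hB := hD.glob.badCtx hd.compat ha (δ := (j s) ^ ℓ ^ (r - 1)) (by
      rw [← pow_mul, ← pow_succ, Nat.sub_add_cancel hD.rpos, hpow, hE])
    rw [← map_pow, hpow, hE]
    exact (hd.ctx.v_bad hB).1
  · intro σ
    rw [hpow]
    change σ (algebraMap L M _) = algebraMap L M _
    rw [IsScalarTower.algebraMap_apply L ((plc a).adicCompletion L) M]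
    exact σ.commutes _

lemma TowDat.exists_tame_loc (hD : TowDat (L := L) ℓ r g E ζ ζr s)
    (hd : LocDat F L a M v) (ha : aeval a E = 0) (j : Ω →ₐ[L] M) :
    ∃ (σ : M ≃ₐ[(plc a).adicCompletion L] M) (σ' : Ω ≃ₐ[L] Ω),
      (∀ x, j (σ' x) = σ (j x)) ∧ σ' s = xA F L Ω ζr * s := by
  have hR := hD.ramAt hd ha j
  have hG := hd.locGrp g (1 : k[X])
  have hjs : j s ≠ 0 := by
    intro h0
    exact hD.ne_zero ((j : Ω →+* M).injective (h0.trans (map_zero (j : Ω →+* M)).symm))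
  have hξ : IsPrimitiveRoot (algebraMap F M ζr) (ℓ ^ r) :=
    hD.prim.map_of_injective (algebraMap F M).injective
  obtain ⟨τ, hτ, h⟩ := hG.exists_tame_pow hD.glob.prime (LocDat.coprime hD.glob) hξ
    (fun σ hσ => hG.fix σ hσ ζr) hjs hR.val (by
      rintro _ ⟨σ, rfl⟩
      exact hR.fix σ)
  obtain ⟨σ, rfl⟩ := hτ
  obtain ⟨σ', hσ'⟩ := LocDat.restrict j σ
  refine ⟨σ, σ', hσ', ?_⟩
  apply (j : Ω →+* M).injective
  change j (σ' s) = j (xA F L Ω ζr * s)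
  have h2 : j (xA F L Ω ζr) = algebraMap F M ζr := by
    rw [hd.compat]
    exact j.commutes _
  rw [hσ', map_mul, h2]
  exact h

lemma LocDat.fix_rts (hd : LocDat F L a M v) (H : GlobHyp ℓ g E ζ) (ha : aeval a E = 0)
    (j : Ω →ₐ[L] M) {σ : M ≃ₐ[(plc a).adicCompletion L] M} {σ' : Ω ≃ₐ[L] Ω}
    (hσ : ∀ x, j (σ' x) = σ (j x)) : ∀ θ ∈ rts (cOver k F L Ω g 1), σ' θ = θ := by
  intro θ hθ
  have hclM : IsAlgClosed M := IsAlgClosure.isAlgClosed ((plc a).adicCompletion L)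
  have hclΩ : IsAlgClosed Ω := IsAlgClosure.isAlgClosed L
  obtain ⟨δ, hδ⟩ := IsAlgClosed.exists_pow_nat_eq
    (aeval (tA F L M) (E.map (algebraMap k F))) H.prime.pos
  have hB := H.badCtx hd.compat ha hδ
  have hθM : j θ ∈ rts (cOver k F L M g 1) := by
    haveI : IsGood ℓ (cOver k F L Ω g E) := isGood_cOver H
    rw [rts_one H]
    rw [rts_one H] at hθ
    exact map_root_mem H j hθ
  have hroot := (mem_rts_one H hd.compat).mp hθM
  have hL : ∀ y : L, σ (algebraMap L M y) = algebraMap L M y := by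
    intro y
    rw [IsScalarTower.algebraMap_apply L ((plc a).adicCompletion L) M]
    exact σ.commutes _
  have h := hd.ctx.fix_root hB (σ : M ≃+* M) (fun x => hd.inv σ x)
    (fun c => by rw [hd.compat]; exact hL _) (hL _) hroot
  apply (j : Ω →+* M).injective
  change j (σ' θ) = j θ
  rw [hσ]
  exact h

/-- There is `τ` with `τ s = ζr s` which fixes the roots of `g(x) = t`. -/
lemma TowDat.exists_tau (hD : TowDat (L := L) ℓ r g E ζ ζr s) :
    ∃ τ : Ω ≃ₐ[L] Ω, τ s = xA F L Ω ζr * s ∧ ∀ θ ∈ rts (cOver k F L Ω g 1), τ θ = θ := by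
  have hcl : IsAlgClosed F := IsAlgClosure.isAlgClosed k
  obtain ⟨a, ha⟩ : ∃ a : F, aeval a E = 0 := by
    apply IsAlgClosed.exists_aeval_eq_zero_of_injective F (algebraMap k F).injective
    apply degree_ne_of_natDegree_ne
    exact hD.glob.pos
  obtain ⟨M, _, _, _, _, _, _, v, j, hd⟩ := exists_locDat (L := L) (Ω := Ω) a
  obtain ⟨σ, σ', hσ, hs⟩ := hD.exists_tame_loc hd ha j
  exact ⟨σ', hs, hd.fix_rts hD.glob ha j hσ⟩

lemma TowDat.trs (hD : TowDat (L := L) ℓ r g E ζ ζr s) :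
    Trs (cOver k F L Ω g 1) (Nst s : Subgroup (Ω ≃ₐ[L] Ω)) := by
  intro θ hθ θ' hθ'
  have hclΩ : IsAlgClosed Ω := IsAlgClosure.isAlgClosed L
  haveI : IsGood ℓ (cOver k F L Ω g 1) := goodAll_one hD.glob Ω
  obtain ⟨σ, -, hσ⟩ := trs_top hD.glob θ hθ θ' hθ'
  obtain ⟨τ, hτs, hτ⟩ := hD.exists_tau
  obtain ⟨i, hi⟩ := hD.exists_powG σ
  refine ⟨σ * τ ^ ((ℓ ^ r - 1) * i), ?_, ?_⟩
  · change σ ((τ ^ ((ℓ ^ r - 1) * i)) s) = s
    have h2 : σ (xA F L Ω ζr) = xA F L Ω ζr := AlgEquiv.commutes _ _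
    rw [tc07_pow_s hτs, map_mul, map_pow, h2, hi]
    have h3 := tc07_cancel hD i
    calc xA F L Ω ζr ^ ((ℓ ^ r - 1) * i) * (xA F L Ω ζr ^ i * s)
        = xA F L Ω ζr ^ i * (xA F L Ω ζr ^ ((ℓ ^ r - 1) * i) * s) := by ring
      _ = s := h3
  · change σ ((τ ^ ((ℓ ^ r - 1) * i)) θ) = θ'
    have h4 : ∀ n : ℕ, (τ ^ n) θ = θ := by
      intro n
      induction n with
      | zero => rfl
      | succ n ih =>
        have h1 : (τ ^ (n + 1)) θ = (τ ^ n) (τ θ) := by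
          rw [pow_succ]
          rfl
        rw [h1, hτ θ hθ, ih]
    rw [h4, hσ]

lemma TowDat.exists_gamma (hD : TowDat (L := L) ℓ r g E ζ ζr s)
    (hd : LocDat F L a M v) (ha : aeval a E = 0) (j : Ω →ₐ[L] M) (γ₀ : AutO k F L Ω)
    (hUa : resF γ₀ a = a) :
    ∃ (w : M ≃+* M) (φ : (plc a).adicCompletion L ≃+* (plc a).adicCompletion L)
      (γ : AutO k F L Ω),
      (∀ x, w (algebraMap ((plc a).adicCompletion L) M x) =
        algebraMap ((plc a).adicCompletion L) M (φ x)) ∧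
      (∀ x, v (w x) = v x) ∧ (∀ x, j ((γ : Ω ≃+* Ω) x) = w (j x)) ∧ resF γ = resF γ₀ ∧
      (γ : Ω ≃+* Ω) s = s := by
  obtain ⟨w, φ, γ, h1, h2, h3, h4⟩ := hd.exists_semilinear j γ₀ hUa
  obtain ⟨i, hi⟩ := hD.exists_pow γ
  obtain ⟨σ, σ', hσ, hs⟩ := hD.exists_tame_loc hd ha j
  have hpow : ∀ (n : ℕ) (x : Ω), j ((σ' ^ n) x) = (σ ^ n) (j x) := by
    intro n
    induction n with
    | zero => intro x; rfl
    | succ n ih =>
      intro x
      have e1 : (σ' ^ (n + 1)) x = (σ' ^ n) (σ' x) := by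
        rw [pow_succ]
        rfl
      have e2 : (σ ^ (n + 1)) (j x) = (σ ^ n) (σ (j x)) := by
        rw [pow_succ]
        rfl
      rw [e1, e2, ih, hσ]
  refine ⟨w.trans ((σ ^ ((ℓ ^ r - 1) * i) : M ≃ₐ[(plc a).adicCompletion L] M) : M ≃+* M), φ,
    galA k F (σ' ^ ((ℓ ^ r - 1) * i)) * γ, ?_, ?_, ?_, ?_, ?_⟩
  · intro x
    change (σ ^ ((ℓ ^ r - 1) * i)) (w (algebraMap _ M x)) = _
    rw [h1]
    exact AlgEquiv.commutes _ _
  · intro x
    change v ((σ ^ ((ℓ ^ r - 1) * i)) (w x)) = v x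
    rw [hd.inv, h2]
  · intro x
    change j ((σ' ^ ((ℓ ^ r - 1) * i)) ((γ : Ω ≃+* Ω) x)) = (σ ^ ((ℓ ^ r - 1) * i)) (w (j x))
    rw [hpow, h3]
  · rw [map_mul, resF_galA, one_mul, h4]
  · change (σ' ^ ((ℓ ^ r - 1) * i)) ((γ : Ω ≃+* Ω) s) = s
    have e3 : (σ' ^ ((ℓ ^ r - 1) * i)) (xA F L Ω ζr) = xA F L Ω ζr := AlgEquiv.commutes _ _
    rw [hi, map_mul, map_pow, e3, tc07_pow_s hs]
    exact tc07_cancel hD i

lemma TowDat.exists_gamma_glob (hD : TowDat (L := L) ℓ r g E ζ ζr s)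
    (U : F ≃ₐ[k] F) : ∃ γ : AutO k F L Ω, resF γ = U ∧ (γ : Ω ≃+* Ω) s = s := by
  obtain ⟨γ, hγ⟩ := resF_surjective (L := L) (Ω := Ω) U
  obtain ⟨i, hi⟩ := hD.exists_pow γ
  obtain ⟨τ, hτs, -⟩ := hD.exists_tau
  refine ⟨galA k F (τ ^ ((ℓ ^ r - 1) * i)) * γ, ?_, ?_⟩
  · rw [map_mul, resF_galA, one_mul, hγ]
  · change (τ ^ ((ℓ ^ r - 1) * i)) ((γ : Ω ≃+* Ω) s) = s
    have e3 : (τ ^ ((ℓ ^ r - 1) * i)) (xA F L Ω ζr) = xA F L Ω ζr := AlgEquiv.commutes _ _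
    rw [hi, map_mul, map_pow, e3, tc07_pow_s hτs]
    exact tc07_cancel hD i

end Pool.Agent.Lib.MP_89bcae_ag.Sup

end

section

open Polynomial IsDedekindDomain

open scoped Classical

set_option linter.unusedSectionVars false

namespace Pool.Agent.Lib.MP_89bcae_ag.Sup

universe u

variable {k F L Ω : Type u} [Field k] [Field F] [Algebra k F] [Field L] [Algebra F[X] L]
  [Field Ω] [Algebra L Ω] [IsAlgClosure k F] [IsFractionRing F[X] L] [IsAlgClosure L Ω]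
  [Algebra F Ω] {ℓ : ℕ} {g E : k[X]} [hG : IsGood ℓ (cOver k F L Ω g 1)] {ζ : k}
  {hζ : (zA F L Ω ζ) ^ ℓ = 1} {r : ℕ} {ζr : F} {s : Ω}

/-- `σ'` is the restriction to `Ω` of an automorphism over the completion at `t = a`, for some choice of the
algebraic closure and of the embedding. -/
def IsLoc (F L : Type u) {Ω : Type u} [Field F] [Field L] [Algebra F[X] L]
    [IsFractionRing F[X] L] [Field Ω] [Algebra L Ω] (a : F) (σ' : Ω ≃ₐ[L] Ω) : Prop :=
  ∃ (M : Type u) (_ : Field M) (_ : Algebra ((plc a).adicCompletion L) M)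
      (_ : IsAlgClosure ((plc a).adicCompletion L) M) (_ : Algebra L M)
      (_ : IsScalarTower L ((plc a).adicCompletion L) M) (_ : Algebra F M)
      (v : AbsoluteValue M ℝ) (j : Ω →ₐ[L] M) (σ : M ≃ₐ[(plc a).adicCompletion L] M),
      LocDat F L a M v ∧ ∀ x, j (σ' x) = σ (j x)

theorem TowDat.fixt (hD : TowDat (L := L) ℓ r g E ζ ζr s) {a : F}
    (ha : aeval a E = 0) {σ' : Ω ≃ₐ[L] Ω} (hσ : IsLoc F L a σ') (n : ℕ)
    (Q : JacOver ℓ (curvePoly k F L g 1) Ω) (hQ : ℓ ^ n • Q = 0) :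
    symJ (toSym g 1 (galA k F σ')) Q = Q := by
  obtain ⟨M, _, _, _, _, _, _, v, j, σ, hd, hj⟩ := hσ
  exact hd.fix_torsion hD.glob ha j hj n Q hQ

theorem TowDat.vanish (hD : TowDat (L := L) ℓ r g E ζ ζr s) {a : F}
    (ha : aeval a E = 0) {c : Coch ℓ k F L Ω g 1} (hc : TCs (Nst s) c) (hLT : LTs (Nst s) c)
    (n : ℕ) {σ' : Ω ≃ₐ[L] Ω} (hσ : IsLoc F L a σ')
    (hN : σ' ∈ (Nst s : Subgroup (Ω ≃ₐ[L] Ω))) : c n σ' = 0 := by
  obtain ⟨M, _, _, _, _, _, _, v, j, σ, hd, hj⟩ := hσ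
  exact LTs.vanish hd hD.glob ha hD.prim j (hD.ramAt hd ha j) hc hLT n hj hN

end Pool.Agent.Lib.MP_89bcae_ag.Sup

end
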