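import Mathlib
import Pool.Agent.Lib.MP_89bcae_ag.Tow.M02
import Pool.Agent.Lib.MP_89bcae_ag.Tow.M06

section

/-!
The commutator formula.
-/

open Polynomial IsDedekindDomain

open scoped Classical

set_option linter.unusedSectionVars false

namespace Pool.Agent.Lib.MP_89bcae_ag.Sup

universe u

variable {k F L Ω : Type u} [Field k] [Field F] [Algebra k F] [Field L] [Algebra F[X] L]
  [Field Ω] [Algebra L Ω] [IsAlgClosure k F] [IsFractionRing F[X] L] [IsAlgClosure L Ω]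
  {ℓ : ℕ} {g D : k[X]} [hG : IsGood ℓ (cOver k F L Ω g D)] {N : Subgroup (Ω ≃ₐ[L] Ω)}

lemma ta09_act1_zsmul (γ : AutO k F L Ω) (b : ℤ) (x : Ch ℓ k F L Ω g D) :
    act1 γ (b • x) = b • act1 γ x := by
  funext σ
  change symJ (toSym g D γ) (b • x (conjG γ⁻¹ σ)) = b • symJ (toSym g D γ) (x (conjG γ⁻¹ σ))
  exact map_zsmul _ _ _

lemma ta09_cob_zsmul (b : ℤ) (A : JacOver ℓ (curvePoly k F L g D) Ω) :
    cob (b • A) = b • cob A := by
  funext σ
  change symJ (toSym g D (galA k F σ)) (b • A) - b • A =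
    b • (symJ (toSym g D (galA k F σ)) A - A)
  rw [map_zsmul, smul_sub]

lemma ta09_fix_pow {τ : Ω ≃ₐ[L] Ω} {B : JacOver ℓ (curvePoly k F L g D) Ω}
    (fB : symJ (toSym g D (galA k F τ)) B = B) (m : ℕ) :
    symJ (toSym g D (galA k F (τ ^ m))) B = B := by
  induction m with
  | zero =>
    rw [pow_zero, map_one, map_one, symJ_one]
  | succ m ih =>
    rw [pow_succ, map_mul, map_mul, symJ_mul, fB, ih]

/-- powers of `τ` on a cocycle of the whole group -/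
lemma ta09_pow_top {h : Ch ℓ k F L Ω g D} (hh : C1s ⊤ h) {τ : Ω ≃ₐ[L] Ω}
    (fh : symJ (toSym g D (galA k F τ)) (h τ) = h τ) (m : ℕ) :
    act1 (galA k F (τ ^ m)) h = h + cob (m • h τ) := by
  have h1 : act1 (galA k F τ) h = h + cob (h τ) := by
    funext σ
    exact act1_galA_sub hh (Subgroup.mem_top τ) σ (Subgroup.mem_top σ)
  induction m with
  | zero =>
    rw [pow_zero, map_one, act1_one, zero_smul, cob_zero, add_zero]
  | succ m ih =>
    rw [pow_succ', map_mul, act1_mul, ih, act1_add, h1, act1_cob, map_nsmul, fh, add_assoc,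
      ← cob_add, succ_nsmul']

/-- powers of `τ` on `x` -/
lemma ta09_pow_x (hN : Nrm k F N) {x h : Ch ℓ k F L Ω g D} (hh : C1s ⊤ h) (b : ℤ)
    {τ : Ω ≃ₐ[L] Ω} {A : JacOver ℓ (curvePoly k F L g D) Ω}
    (h1 : ∀ σ ∈ N, act1 (galA k F τ) x σ = x σ - b • h σ + cob A σ)
    (fA : symJ (toSym g D (galA k F τ)) A = A)
    (fh : symJ (toSym g D (galA k F τ)) (h τ) = h τ) (m : ℕ) :
    ∀ σ ∈ N, act1 (galA k F (τ ^ m)) x σ =
      x σ - b • (m • h σ) + cob (m • A - b • (m.choose 2 • h τ)) σ := by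
  have h2 : act1 (galA k F τ) h = h + cob (h τ) := by
    funext σ
    exact act1_galA_sub hh (Subgroup.mem_top τ) σ (Subgroup.mem_top σ)
  induction m with
  | zero =>
    intro σ hσ
    rw [pow_zero, map_one, act1_one, zero_smul, zero_smul, Nat.choose_zero_succ, zero_smul,
      smul_zero, sub_zero, sub_zero, cob_zero, Pi.zero_apply, add_zero]
  | succ m ih =>
    intro σ hσ
    rw [pow_succ', map_mul, act1_mul]
    rw [act1_congr hN (galA k F τ)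
      (y := x - b • (m • h) + cob (m • A - b • (m.choose 2 • h τ))) ih σ hσ]
    rw [act1_add, act1_sub, ta09_act1_zsmul, act1_nsmul, act1_cob, h2, map_sub, map_nsmul,
      map_zsmul, map_nsmul, fA, fh]
    rw [Pi.add_apply, Pi.sub_apply, h1 σ hσ, Pi.smul_apply, Pi.smul_apply, Pi.add_apply]
    have e1 : cob ((m + 1) • A - b • ((m + 1).choose 2 • h τ)) σ =
        cob (m • A - b • (m.choose 2 • h τ)) σ + cob A σ - b • (m • cob (h τ) σ) := by
      have e2 : (m + 1) • A - b • ((m + 1).choose 2 • h τ) =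
          (m • A - b • (m.choose 2 • h τ)) + A - b • (m • h τ) := by
        rw [Nat.choose_succ_succ' m 1, Nat.choose_one_right, succ_nsmul, add_smul, smul_add]
        abel
      rw [e2, cob_sub, cob_add, ta09_cob_zsmul, cob_nsmul]
      rfl
    rw [e1, succ_nsmul, smul_add, smul_add, smul_add]
    abel

theorem commutator_formula {ζ : k} (hζ : IsPrimitiveRoot (zA F L Ω ζ) ℓ)
    (hT : Trs (cOver k F L Ω g D) N) (hN : Nrm k F N) (n : ℕ) {x h y : Ch ℓ k F L Ω g D}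
    (hx : C1s N x) (hh : C1s ⊤ h) (hy : C1s ⊤ y) (b : ℤ) (q : ℕ) {τ g₀ : Ω ≃ₐ[L] Ω}
    {γ : AutO k F L Ω} {A B C : JacOver ℓ (curvePoly k F L g D) Ω}
    (hA : ℓ ^ n • A = 0) (hB : ℓ ^ n • B = 0) (hC : ℓ ^ n • C = 0)
    (hyn : ℓ ^ n • y τ = 0)
    (h1 : ∀ σ ∈ N, act1 (galA k F τ) x σ = x σ - b • h σ + cob A σ)
    (h2 : ∀ σ ∈ N, act1 γ x σ = x σ + y σ + cob B σ)
    (h3 : ∀ σ, act1 γ h σ = h σ + cob C σ)
    (hg₀ : g₀ ∈ N) (hc : γ * galA k F τ = galA k F g₀ * galA k F (τ ^ q) * γ)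
    (qh : ∀ σ, q • h σ = h σ) (qA : q • A = A) (qy : q • y τ = y τ)
    (q2 : q.choose 2 • h τ = 0)
    (hx0 : x g₀ = 0) (hh0 : h g₀ = 0) (hy0 : y g₀ = 0)
    (fA : symJ (toSym g D (galA k F τ)) A = A)
    (fB : symJ (toSym g D (galA k F τ)) B = B)
    (fh : symJ (toSym g D (galA k F τ)) (h τ) = h τ)
    (fy : symJ (toSym g D (galA k F τ)) (y τ) = y τ)
    (gA : symJ (toSym g D (galA k F g₀)) A = A)
    (gB : symJ (toSym g D (galA k F g₀)) B = B)
    (gy : symJ (toSym g D (galA k F g₀)) (y τ) = y τ) :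
    y τ = -(b • C) + (symJ (toSym g D γ) A - A) := by
  -- the action of `τ ^ q`
  have hxq : ∀ σ ∈ N, act1 (galA k F (τ ^ q)) x σ = x σ - b • h σ + cob A σ := by
    intro σ hσ
    rw [ta09_pow_x hN hh b h1 fA fh q σ hσ, qh, qA, q2, smul_zero, sub_zero]
  have hyq : act1 (galA k F (τ ^ q)) y = y + cob (y τ) := by
    rw [ta09_pow_top hy fy q, qy]
  have hgx : ∀ σ ∈ N, act1 (galA k F g₀) x σ = x σ := by
    intro σ hσ
    rw [act1_galA_sub hx hg₀ σ hσ, hx0, cob_zero, Pi.zero_apply, add_zero]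
  have hgh : act1 (galA k F g₀) h = h := by
    funext σ
    rw [act1_galA_sub hh (Subgroup.mem_top g₀) σ (Subgroup.mem_top σ), hh0, cob_zero,
      Pi.zero_apply, add_zero]
  have hgy : act1 (galA k F g₀) y = y := by
    funext σ
    rw [act1_galA_sub hy (Subgroup.mem_top g₀) σ (Subgroup.mem_top σ), hy0, cob_zero,
      Pi.zero_apply, add_zero]
  have h3' : act1 γ h = h + cob C := by
    funext σ
    exact h3 σ
  -- first computation
  have k1 : ∀ σ ∈ N, act1 (γ * galA k F τ) x σ =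
      (x σ + y σ + cob B σ) - b • (h σ + cob C σ) + cob (symJ (toSym g D γ) A) σ := by
    intro σ hσ
    rw [act1_mul, act1_congr hN γ (y := x - b • h + cob A) h1 σ hσ, act1_add, act1_sub,
      ta09_act1_zsmul, act1_cob, h3', Pi.add_apply, Pi.sub_apply, h2 σ hσ, Pi.smul_apply,
      Pi.add_apply]
  -- second computation
  have k2 : ∀ σ ∈ N, act1 (galA k F (τ ^ q)) (act1 γ x) σ =
      (x - b • h + cob A + (y + cob (y τ)) + cob B) σ := by
    intro σ hσ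
    rw [act1_congr hN (galA k F (τ ^ q)) (y := x + y + cob B) h2 σ hσ, act1_add, act1_add,
      hyq, act1_cob, ta09_fix_pow fB, Pi.add_apply, Pi.add_apply, hxq σ hσ]
    rfl
  have k3 : ∀ σ ∈ N, act1 (galA k F g₀ * galA k F (τ ^ q) * γ) x σ =
      x σ - b • h σ + cob A σ + (y σ + cob (y τ) σ) + cob B σ := by
    intro σ hσ
    rw [mul_assoc, act1_mul, act1_mul, act1_congr hN (galA k F g₀) k2 σ hσ, act1_add, act1_add,
      act1_add, act1_sub, act1_add, ta09_act1_zsmul, hgh, hgy, act1_cob, act1_cob, act1_cob,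
      gA, gB, gy]
    simp only [Pi.add_apply, Pi.sub_apply, Pi.smul_apply]
    rw [hgx σ hσ]
  have k4 : ∀ σ ∈ N, cob (y τ) σ = cob (-(b • C) + (symJ (toSym g D γ) A - A)) σ := by
    intro σ hσ
    have e := k1 σ hσ
    rw [hc, k3 σ hσ, smul_add] at e
    rw [cob_add, cob_neg, cob_sub, ta09_cob_zsmul]
    simp only [Pi.add_apply, Pi.sub_apply, Pi.smul_apply, Pi.neg_apply]
    have e2 : cob (y τ) σ = (x σ - b • h σ + cob A σ + (y σ + cob (y τ) σ) + cob B σ)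
        - (x σ - b • h σ + cob A σ + y σ + cob B σ) := by abel
    rw [e2, e]
    abel
  refine cob_injN hζ hT n hyn ?_ k4
  rw [smul_add, smul_neg, smul_sub, smul_comm (ℓ ^ n) b C, hC, smul_zero, ← map_nsmul, hA,
    map_zero, neg_zero, sub_zero, add_zero]

end Pool.Agent.Lib.MP_89bcae_ag.Sup

end

section

open Polynomial IsDedekindDomain

open scoped Classical

set_option linter.unusedSectionVars false

namespace Pool.Agent.Lib.MP_89bcae_ag.Sup

universe u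

variable {k F L Ω : Type u} [Field k] [Field F] [Algebra k F] [Field L] [Algebra F[X] L]
  [Field Ω] [Algebra L Ω] [IsAlgClosure k F] [IsFractionRing F[X] L] [IsAlgClosure L Ω]
  {ℓ : ℕ} {g D : k[X]} [hG : IsGood ℓ (cOver k F L Ω g D)] {N : Subgroup (Ω ≃ₐ[L] Ω)}

lemma TTs.act_pow_mul (hN : Nrm k F N) {c : Coch ℓ k F L Ω g D} (hc : TCs N c)
    {γ : AutO k F L Ω} {M : ℕ} (h : TTs N (Sup.act (γ ^ M) c - c)) (m : ℕ) :
    TTs N (Sup.act (γ ^ (M * m)) c - c) := by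
  induction m with
  | zero =>
    rw [Nat.mul_zero, pow_zero, act_one, sub_self]
    exact TTs.zero'
  | succ m ih =>
    have e : Sup.act (γ ^ (M * (m + 1))) c - c =
        Sup.act (γ ^ (M * m)) (Sup.act (γ ^ M) c - c) + (Sup.act (γ ^ (M * m)) c - c) := by
      rw [Nat.mul_succ, pow_add, act_mul, act_sub]
      abel
    rw [e]
    exact (h.act hN _).add ih

lemma TTs.wws (hN : Nrm k F N) {c : Coch ℓ k F L Ω g D} (hc : TTs N c) : WWs N c := by
  refine ⟨hc.1, hc.lts, fun γ => ⟨1, one_pos, ?_⟩⟩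
  rw [pow_one]
  exact (hc.act hN γ).sub hc

lemma WWs.add (hN : Nrm k F N) {c c' : Coch ℓ k F L Ω g D} (hc : WWs N c)
    (hc' : WWs N c') : WWs N (c + c') := by
  refine ⟨hc.1.add hc'.1, hc.2.1.add hc'.2.1, fun γ => ?_⟩
  obtain ⟨M, hM, h⟩ := hc.2.2 γ
  obtain ⟨M', hM', h'⟩ := hc'.2.2 γ
  refine ⟨M * M', Nat.mul_pos hM hM', ?_⟩
  have h1 : TTs N (Sup.act (γ ^ (M * M')) c - c) := TTs.act_pow_mul hN hc.1 h M'
  have h2 : TTs N (Sup.act (γ ^ (M' * M)) c' - c') := TTs.act_pow_mul hN hc'.1 h' M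
  rw [Nat.mul_comm M' M] at h2
  have e : Sup.act (γ ^ (M * M')) (c + c') - (c + c') =
      (Sup.act (γ ^ (M * M')) c - c) + (Sup.act (γ ^ (M * M')) c' - c') := by
    rw [act_add]
    abel
  rw [e]
  exact h1.add h2

lemma WWs.neg (hN : Nrm k F N) {c : Coch ℓ k F L Ω g D} (hc : WWs N c) : WWs N (-c) := by
  refine ⟨hc.1.neg, hc.2.1.neg, fun γ => ?_⟩
  obtain ⟨M, hM, h⟩ := hc.2.2 γ
  refine ⟨M, hM, ?_⟩
  have e : Sup.act (γ ^ M) (-c) - -c = -(Sup.act (γ ^ M) c - c) := by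
    rw [act_neg]
    abel
  rw [e]
  exact h.neg

lemma WWs.sub (hN : Nrm k F N) {c c' : Coch ℓ k F L Ω g D} (hc : WWs N c)
    (hc' : WWs N c') : WWs N (c - c') := by
  have e : c - c' = c + -c' := sub_eq_add_neg _ _
  rw [e]
  exact WWs.add hN hc (WWs.neg hN hc')

lemma WWs.zC (hA : GoodAll ℓ k F L g D) (hN : Nrm k F N) {ζ : k} {c : Coch ℓ k F L Ω g D}
    (hc : WWs N c) (hζ : (zA F L Ω ζ) ^ ℓ = 1) : WWs N (Sup.zC ζ hζ c) := by
  refine ⟨hc.1.zC ζ hζ, hc.2.1.zC hA hζ, fun γ => ?_⟩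
  obtain ⟨M, hM, h⟩ := hc.2.2 γ
  refine ⟨M, hM, ?_⟩
  rw [act_zC, ← map_sub]
  exact h.zC ζ hζ

lemma WWs.act (hN : Nrm k F N) {c : Coch ℓ k F L Ω g D} (hc : WWs N c)
    (γ : AutO k F L Ω) : WWs N (Sup.act γ c) := by
  refine ⟨hc.1.act hN γ, LTs.act hN hc.2.1 γ, fun γ' => ?_⟩
  obtain ⟨M, hM, h⟩ := hc.2.2 (γ⁻¹ * γ' * γ)
  refine ⟨M, hM, ?_⟩
  have e1 : γ'^ M * γ = γ * (γ⁻¹ * γ' * γ) ^ M := by
    have h1 : (γ⁻¹ * γ' * γ⁻¹⁻¹) ^ M = γ⁻¹ * γ' ^ M * γ⁻¹⁻¹ := conj_pow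
    rw [inv_inv] at h1
    rw [h1]
    group
  have e : Sup.act (γ' ^ M) (Sup.act γ c) - Sup.act γ c =
      Sup.act γ (Sup.act ((γ⁻¹ * γ' * γ) ^ M) c - c) := by
    rw [← act_mul, e1, act_mul, act_sub]
  rw [e]
  exact h.act hN γ

lemma WWs.congr {c c' : Coch ℓ k F L Ω g D} (hN : Nrm k F N) (hc : WWs N c)
    (h : ∀ n, ∀ σ ∈ N, c' n σ = c n σ) : WWs N c' := by
  refine ⟨hc.1.congr h, hc.2.1.congr h, fun γ => ?_⟩
  obtain ⟨M, hM, h1⟩ := hc.2.2 γ
  refine ⟨M, hM, h1.congr fun n σ hσ => ?_⟩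
  change Sup.act1 (γ ^ M) (c' n) σ - c' n σ = Sup.act1 (γ ^ M) (c n) σ - c n σ
  rw [h n σ hσ, act1_congr hN (γ ^ M) (h n) σ hσ]

/-- If `c' - c` is trivial and `c` is in `WWs N`, then so is `c'`. -/
lemma WWs.of_sub (hN : Nrm k F N) {c c' : Coch ℓ k F L Ω g D} (hc : WWs N c)
    (h : TTs N (c' - c)) : WWs N c' := by
  refine WWs.congr hN (WWs.add hN hc (TTs.wws hN h)) fun n σ _ => ?_
  change c' n σ = c n σ + (c' n σ - c n σ)
  abel

end Pool.Agent.Lib.MP_89bcae_ag.Sup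

end

section

open Polynomial IsDedekindDomain

open scoped Classical

set_option linter.unusedSectionVars false

namespace Pool.Agent.Lib.MP_89bcae_ag.Sup

universe u

variable {k F L Ω : Type u} [Field k] [Field F] [Algebra k F] [Field L] [Algebra F[X] L]
  [Field Ω] [Algebra L Ω] [IsAlgClosure k F] [IsFractionRing F[X] L] [IsAlgClosure L Ω]
  [Algebra F Ω] {ℓ : ℕ} {g E : k[X]} [hG : IsGood ℓ (cOver k F L Ω g 1)] {ζ : k}
  {hζ : (zA F L Ω ζ) ^ ℓ = 1} {N : Subgroup (Ω ≃ₐ[L] Ω)}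

theorem exists_divisionN (H : GlobHyp ℓ g E ζ) (hζ' : IsPrimitiveRoot (zA F L Ω ζ) ℓ)
    (hT : Trs (cOver k F L Ω g 1) N) (hN : Nrm k F N) {c : Coch ℓ k F L Ω g 1}
    (hc : WWs N c) (m : Ω → ℤ)
    (h1 : ∀ σ ∈ N, vJ (zA F L Ω ζ) hζ (c 1 σ) = cob (ram m) σ) :
    ∃ y : Coch ℓ k F L Ω g 1, WWs N y ∧ TTs N (c - (y - Sup.zC ζ hζ y)) := by
  have hA : GoodAll ℓ k F L g 1 := goodAll_one H
  set B : JacOver ℓ (curvePoly k F L g 1) Ω := (ram m : Jac ℓ (cOver k F L Ω g 1)) with hB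
  have hv1 : ∀ σ ∈ N, vJ (zA F L Ω ζ) hζ (c 1 σ) = cob B σ := h1
  -- the divisions of B
  choose dv hdv using fun Q : JacOver ℓ (curvePoly k F L g 1) Ω =>
    exists_smul_eq (zA F L Ω ζ) hζ' Q
  set Q : ℕ → JacOver ℓ (curvePoly k F L g 1) Ω := fun n => dv^[n] B with hQ
  have hQ0 : Q 0 = B := rfl
  have hQs : ∀ n, ℓ • Q (n + 1) = Q n := by
    intro n
    simp only [hQ]
    rw [Function.iterate_succ_apply']
    exact hdv _
  set y : Coch ℓ k F L Ω g 1 := fun n σ => vJ (zA F L Ω ζ) hζ (c (n + 1) σ) -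
    cob (Q n) σ with hy
  have hyTC : TCs N y := by
    refine ⟨?_, ?_, ?_⟩
    · intro n
      exact ((hc.1.c1 (n + 1)).vJ ζ hζ).sub (C1s.cob (Q n))
    · intro σ hσ
      simp only [hy]
      rw [Nat.zero_add, hv1 σ hσ, hQ0, sub_self]
    · intro n σ hσ
      simp only [hy]
      have h2 : ℓ • cob (Q (n + 1)) σ = cob (Q n) σ := by
        have h3 := congrFun (cob_nsmul (g := g) (D := 1) ℓ (Q (n + 1))) σ
        rw [hQs n] at h3
        rw [h3]
        rfl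
      rw [smul_sub, ← vJ_smul, hc.1.smul (n + 1) σ hσ, h2]
  have hyLT : LTs N y := by
    have h1 : LTs N (fun n σ => vJ (zA F L Ω ζ) hζ ((fun n => c (n + 1)) n σ) :
        Coch ℓ k F L Ω g 1) := LTs.v hA (hc.2.1.shift fun n => n + 1) hζ
    have h2 : LTs N (fun n σ => cob (Q n) σ : Coch ℓ k F L Ω g 1) :=
      LTs.of_cob fun n => ⟨Q n, fun σ _ => rfl⟩
    have h3 := h1.add h2.neg
    have h4 : y = (fun n σ => vJ (zA F L Ω ζ) hζ ((fun n => c (n + 1)) n σ) :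
        Coch ℓ k F L Ω g 1) + -(fun n σ => cob (Q n) σ : Coch ℓ k F L Ω g 1) := by
      funext n σ
      simp only [hy, Pi.add_apply, Pi.neg_apply]
      abel
    rw [h4]
    exact h3
  have hyZ : TCs N (c - (y - Sup.zC ζ hζ y)) := hc.1.sub (hyTC.sub (hyTC.zC ζ hζ))
  have hQn : ∀ n, ℓ ^ n • Q n = B := by
    intro n
    induction n with
    | zero => rw [pow_zero, one_smul, hQ0]
    | succ n ih =>
      rw [pow_succ, mul_smul, hQs, ih]
  have hTT : TTs N (c - (y - Sup.zC ζ hζ y)) := by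
    refine ⟨hyZ, ?_⟩
    intro n
    refine ⟨Q n - zJ (zA F L Ω ζ) hζ (Q n), ?_, ?_⟩
    · rw [smul_sub, ← map_nsmul, hQn, hB, zJ_ram, sub_self]
    · intro σ hσ
      have h1 : (c - (y - Sup.zC ζ hζ y)) n σ =
          c n σ - (y n σ - zJ (zA F L Ω ζ) hζ (y n σ)) := rfl
      rw [h1, cob_sub]
      have h3 : (cob (Q n) - cob (zJ (zA F L Ω ζ) hζ (Q n)) : Ch ℓ k F L Ω g 1) σ =
          cob (Q n) σ - zJ (zA F L Ω ζ) hζ (cob (Q n) σ) := by
        rw [zJ_cob]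
        rfl
      rw [h3]
      simp only [hy]
      rw [map_sub]
      have h2 := vJ_sub_zJ (zA F L Ω ζ) hζ' (c (n + 1) σ)
      rw [hc.1.smul n σ hσ] at h2
      rw [← h2]
      abel
  refine ⟨y, ⟨hyTC, hyLT, ?_⟩, hTT⟩
  intro γ
  obtain ⟨M, hM, hMT⟩ := hc.2.2 γ
  refine ⟨M, hM, ?_⟩
  have hx : TCs N (Sup.act (γ ^ M) y - y) := (hyTC.act hN (γ ^ M)).sub hyTC
  apply TTs.of_sub_zC hζ' hT hx
  have h1 : Sup.act (γ ^ M) y - y - Sup.zC ζ hζ (Sup.act (γ ^ M) y - y) =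
      (Sup.act (γ ^ M) c - c) - (Sup.act (γ ^ M) (c - (y - Sup.zC ζ hζ y)) -
        (c - (y - Sup.zC ζ hζ y))) := by
    rw [act_sub, act_sub, act_zC, map_sub]
    abel
  rw [h1]
  exact hMT.sub ((hTT.act hN (γ ^ M)).sub hTT)

end Pool.Agent.Lib.MP_89bcae_ag.Sup

end
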