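import Mathlib
import Pool.Agent.Lib.MP_89bcae_ag.BasS8
import Pool.Agent.Lib.MP_89bcae_ag.DefsSupTow7
import Pool.Agent.Lib.MP_89bcae_ag.Sup.G20
import Pool.Agent.Lib.MP_89bcae_ag.Tow.M03

section

/-!
# The definitions for a subfield `K`, in terms of `Sup.JacOver`
-/

open Polynomial IsDedekindDomain

open scoped Classical

namespace Pool.Agent.Lib.MP_89bcae_ag.Sup

universe u

section

variable {L Ω : Type u} [Field L] [Field Ω] [Algebra L Ω]

/-- See `Superelliptic.IsTateCocycleOver`. -/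
structure IsTateCocycleOver (ℓ : ℕ) (f : L[X]) (K : Subfield Ω)
    (c : ℕ → galOver L K → JacOver ℓ f Ω) : Prop where
  zero : ∀ σ, c 0 σ = 0
  smul : ∀ n σ, ℓ • c (n + 1) σ = c n σ
  cocycle : ∀ n (σ τ : galOver L K),
    c n (σ * τ) = c n σ + push ℓ f ((σ : Ω ≃ₐ[L] Ω) : Ω →ₐ[L] Ω) (c n τ)
  locallyConstant : ∀ n, IsLocallyConstant (c n)

/-- See `Superelliptic.IsLocallyTrivialOver`. -/
def IsLocallyTrivialOver (ℓ : ℕ) (f : L[X]) (K : Subfield Ω) (c : galOver L K → JacOver ℓ f Ω)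
    (Lv : Type u) [Field Lv] [Algebra L Lv] : Prop :=
  ∀ (M : Type u) [Field M] [Algebra Lv M] [IsAlgClosure Lv M] [Algebra L M] [IsScalarTower L Lv M]
    (j : Ω →ₐ[L] M), ∃ Q : JacOver ℓ f M, ∀ (g : M ≃ₐ[Lv] M) (g' : galOver L K),
      (∀ x, j ((g' : Ω ≃ₐ[L] Ω) x) = g (j x)) →
        push ℓ f j (c g') = push ℓ f (g.restrictScalars L : M →ₐ[L] M) Q - Q

/-- See `Superelliptic.IsFixedByOver`. -/
def IsFixedByOver (ℓ : ℕ) (f : L[X]) (K : Subfield Ω) (c : ℕ → galOver L K → JacOver ℓ f Ω)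
    (γ : Ω ≃+* Ω)
    (hγ : (f.map (algebraMap L Ω)).map (γ : Ω →+* Ω) = f.map (algebraMap L Ω)) : Prop :=
  ∃ m : ℕ, 0 < m ∧ ∀ n, ∃ A : JacOver ℓ f Ω, ℓ ^ n • A = 0 ∧
    ∀ g h : galOver L K, (∀ x, γ ((g : Ω ≃ₐ[L] Ω) x) = (h : Ω ≃ₐ[L] Ω) (γ x)) →
      m • (jacMap ℓ (γ : Ω →+* Ω) hγ (c n g) - c n h) =
        push ℓ f ((h : Ω ≃ₐ[L] Ω) : Ω →ₐ[L] Ω) A - A

/-- See `Superelliptic.IsTrivialOver`. -/
def IsTrivialOver (ℓ : ℕ) (f : L[X]) (K : Subfield Ω)
    (c : ℕ → galOver L K → JacOver ℓ f Ω) : Prop :=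
  ∀ n, ∃ A : JacOver ℓ f Ω, ℓ ^ n • A = 0 ∧ ∀ g : galOver L K,
    c n g = push ℓ f ((g : Ω ≃ₐ[L] Ω) : Ω →ₐ[L] Ω) A - A

end

/-- See `Superelliptic.NoTateClassOver`. -/
def NoTateClassOver (ℓ : ℕ) (k F L : Type u) {Ω : Type u} [Field k] [Field F] [Algebra k F]
    [Field L] [Algebra F[X] L] [IsFractionRing F[X] L] [Field Ω] [Algebra L Ω] (g D : k[X])
    (K : Subfield Ω) : Prop :=
  ∀ c : ℕ → galOver L K → JacOver ℓ (curvePoly k F L g D) Ω,
    IsTateCocycleOver ℓ (curvePoly k F L g D) K c →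
    (∀ (v : HeightOneSpectrum F[X]) (n : ℕ),
      IsLocallyTrivialOver ℓ (curvePoly k F L g D) K (c n) (v.adicCompletion L)) →
    (∀ (γ : Ω ≃+* Ω) hγ, (∀ x ∈ K, γ x = x) →
      IsFixedByOver ℓ (curvePoly k F L g D) K c γ hγ) →
    IsTrivialOver ℓ (curvePoly k F L g D) K c

end Pool.Agent.Lib.MP_89bcae_ag.Sup

namespace Pool.Agent.Lib.MP_89bcae_ag.Superelliptic

universe u

theorem NoTateClassOver.ofSup {ℓ : ℕ} {k F L Ω : Type u} [Field k] [Field F] [Algebra k F]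
    [Field L] [Algebra F[X] L] [IsFractionRing F[X] L] [Field Ω] [Algebra L Ω] {g D : k[X]}
    {K : Subfield Ω} (h : Sup.NoTateClassOver ℓ k F L g D K) :
    NoTateClassOver ℓ k F L g D K := by
  intro c hc hloc hfix
  exact h c ⟨hc.zero, hc.smul, hc.cocycle, hc.locallyConstant⟩ hloc hfix

end Pool.Agent.Lib.MP_89bcae_ag.Superelliptic

end

section

open Polynomial IsDedekindDomain

open scoped Classical

set_option linter.unusedSimpArgs false
set_option linter.unusedVariables false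
set_option linter.unusedSectionVars false
set_option linter.style.haveILetI false

namespace Pool.Agent.Lib.MP_89bcae_ag.Superelliptic

universe u

/-- The statement for a polynomial `f` and a subfield. -/
def tg05_NT (ℓ : ℕ) {F L Ω : Type u} [Field F] [Field L] [Algebra F[X] L]
    [IsFractionRing F[X] L] [Field Ω] [Algebra L Ω] (f : L[X]) (K : Subfield Ω) : Prop :=
  ∀ c : ℕ → galOver L K → JacOver ℓ f Ω,
    IsTateCocycleOver ℓ f K c →
    (∀ (v : HeightOneSpectrum F[X]) (n : ℕ),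
      IsLocallyTrivialOver ℓ f K (c n) (v.adicCompletion L)) →
    (∀ (γ : Ω ≃+* Ω) hγ, (∀ x ∈ K, γ x = x) → IsFixedByOver ℓ f K c γ hγ) →
    IsTrivialOver ℓ f K c

theorem tg05_iff {ℓ : ℕ} {k F L Ω : Type u} [Field k] [Field F] [Algebra k F]
    [Field L] [Algebra F[X] L] [IsFractionRing F[X] L] [Field Ω] [Algebra L Ω] {g D : k[X]}
    {K : Subfield Ω} : NoTateClassOver ℓ k F L g D K ↔
      tg05_NT (F := F) ℓ (curvePoly k F L g D) K := Iff.rfl

theorem noTateClassOver_mono {ℓ : ℕ} {k F L Ω : Type u} [Field k] [Field F] [Algebra k F]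
    [Field L] [Algebra F[X] L] [IsFractionRing F[X] L] [Field Ω] [Algebra L Ω] {g D : k[X]}
    {K₁ K₂ : Subfield Ω} (hle : K₁ ≤ K₂) (hK : galOver L K₁ = galOver L K₂)
    (h : NoTateClassOver ℓ k F L g D K₂) : NoTateClassOver ℓ k F L g D K₁ := by
  intro c hc hloc hfix
  have h21 : ∀ σ : Ω ≃ₐ[L] Ω, σ ∈ galOver L K₂ → σ ∈ galOver L K₁ := fun σ hσ => hK ▸ hσ
  have h12 : ∀ σ : Ω ≃ₐ[L] Ω, σ ∈ galOver L K₁ → σ ∈ galOver L K₂ := fun σ hσ => hK ▸ hσ
  let φ : galOver L K₂ → galOver L K₁ := fun σ => ⟨σ.1, h21 σ.1 σ.2⟩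
  have hφ : Continuous φ := continuous_subtype_val.subtype_mk _
  have hT := h (fun n σ => c n (φ σ))
    { zero := fun σ => hc.zero _
      smul := fun n σ => hc.smul n _
      cocycle := fun n σ τ => hc.cocycle n (φ σ) (φ τ)
      locallyConstant := fun n => (hc.locallyConstant n).comp_continuous hφ }
    (fun v n M _ _ _ _ _ j => by
      obtain ⟨Q, hQ⟩ := hloc v n M j
      exact ⟨Q, fun g g' hg => hQ g (φ g') hg⟩)
    (fun γ hγ hx => by
      obtain ⟨m, hm, hA⟩ := hfix γ hγ fun x hx' => hx x (hle hx')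
      refine ⟨m, hm, fun n => ?_⟩
      obtain ⟨A, hA0, hA1⟩ := hA n
      exact ⟨A, hA0, fun g h hgh => hA1 (φ g) (φ h) hgh⟩)
  intro n
  obtain ⟨A, hA0, hA1⟩ := hT n
  exact ⟨A, hA0, fun g => hA1 ⟨g.1, h12 g.1 g.2⟩⟩

private lemma tg05_mem {k F L Ω : Type u} [Field k] [Field F] [Algebra k F]
    [Field L] [Algebra F[X] L] [Field Ω] [Algebra L Ω] (s : Ω) (σ : Ω ≃ₐ[L] Ω) :
    σ ∈ galOver L (cover k F L s) ↔ σ s = s := by
  constructor
  · intro h
    exact h s (Subfield.subset_closure (Set.mem_insert _ _))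
  · intro h x hx
    unfold cover at hx
    induction hx using Subfield.closure_induction with
    | mem x hx =>
      rcases hx with rfl | ⟨p, rfl⟩
      · exact h
      · exact σ.commutes _
    | one => exact map_one σ
    | add x y _ _ hx hy => rw [map_add, hx, hy]
    | neg x _ hx => rw [map_neg, hx]
    | inv x _ hx => rw [map_inv₀, hx]
    | mul x y _ _ hx hy => rw [map_mul, hx, hy]

theorem noTateClassOver_base {k K F L Ω : Type u} [Field k] [Field K] [Field F] [Algebra k K]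
    [Algebra K F] [Algebra k F] [IsScalarTower k K F] [Field L] [Algebra F[X] L]
    [IsFractionRing F[X] L] [Field Ω] [Algebra L Ω] {ℓ : ℕ} {g : k[X]} {s : Ω}
    {k' : IntermediateField k F} {K' : IntermediateField K F} (hle : ∀ x ∈ k', x ∈ K')
    (h : NoTateClassOver ℓ K F L (g.map (algebraMap k K)) 1 (cover K' F L s)) :
    NoTateClassOver ℓ k F L g 1 (cover k' F L s) := by
  have h0 : NoTateClassOver ℓ k F L g 1 (cover K' F L s) := by
    rw [tg05_iff] at h ⊢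
    have h1 : curvePoly K F L (g.map (algebraMap k K)) 1 = curvePoly k F L g 1 := by
      have h2 := curvePoly_map8 (k := k) (K := K) (F := F) (L := L) g 1
      rwa [Polynomial.map_one] at h2
    rwa [h1] at h
  refine noTateClassOver_mono ?_ ?_ h0
  · unfold cover
    apply Subfield.closure_mono
    apply Set.insert_subset_insert
    rintro _ ⟨p, rfl⟩
    let i : k' →+* K' :=
      (algebraMap k' F).codRestrict K'.toSubalgebra.toSubring fun x => hle x x.2
    refine ⟨p.map i, ?_⟩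
    show algebraMap L Ω (algebraMap F[X] L ((p.map i).map (algebraMap K' F))) =
      algebraMap L Ω (algebraMap F[X] L (p.map (algebraMap k' F)))
    rw [Polynomial.map_map]
    rfl
  · ext σ
    rw [tg05_mem, tg05_mem]

end Pool.Agent.Lib.MP_89bcae_ag.Superelliptic

end

section

open Polynomial IsDedekindDomain

open scoped Classical

set_option linter.unusedSectionVars false

namespace Pool.Agent.Lib.MP_89bcae_ag.Sup

universe u

variable {k F L Ω : Type u} [Field k] [Field F] [Algebra k F] [Field L] [Algebra F[X] L]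
  [Field Ω] [Algebra L Ω] [IsAlgClosure k F] [IsFractionRing F[X] L] [IsAlgClosure L Ω]
  {ℓ : ℕ} {g E : k[X]}

lemma mem_galOver_cover (k' : IntermediateField k F) (s : Ω) (σ : Ω ≃ₐ[L] Ω) :
    σ ∈ galOver L (cover k' F L s) ↔ σ ∈ (Nst s : Subgroup (Ω ≃ₐ[L] Ω)) := by
  constructor
  · intro h
    exact h s (Subfield.subset_closure (Set.mem_insert _ _))
  · intro h x hx
    have h' : σ s = s := h
    unfold cover at hx
    induction hx using Subfield.closure_induction with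
    | mem x hx =>
      rcases hx with rfl | ⟨p, rfl⟩
      · exact h'
      · exact σ.commutes _
    | one => exact map_one σ
    | add x y _ _ hx hy => rw [map_add, hx, hy]
    | neg x _ hx => rw [map_neg, hx]
    | inv x _ hx => rw [map_inv₀, hx]
    | mul x y _ _ hx hy => rw [map_mul, hx, hy]

private lemma tg02_pow (γ : AutO k F L Ω) {x : Ω} (h : (γ : Ω ≃+* Ω) x = x) (n : ℕ) :
    ((γ ^ n : AutO k F L Ω) : Ω ≃+* Ω) x = x := by
  induction n with
  | zero => rfl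
  | succ n ih =>
    have e : ((γ ^ (n + 1) : AutO k F L Ω) : Ω ≃+* Ω) x =
        ((γ ^ n : AutO k F L Ω) : Ω ≃+* Ω) ((γ : Ω ≃+* Ω) x) := by
      rw [pow_succ]
      rfl
    rw [e, h, ih]

lemma exists_pow_cover (hℓ : ℓ ≠ 0) (k' : IntermediateField k F) [FiniteDimensional k k']
    {r : ℕ} {s : Ω} (hs : s ^ ℓ ^ r = base k F L Ω E) (γ : AutO k F L Ω) :
    ∃ M : ℕ, 0 < M ∧ ∀ x ∈ cover k' F L s,
      ((γ ^ M : AutO k F L Ω) : Ω ≃+* Ω) x = x := by
  obtain ⟨M₁, hM₁, hMx⟩ := G20_exists_pow k' (resF γ)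
  have hpos : 0 < ℓ ^ r := Nat.pos_of_ne_zero (pow_ne_zero _ hℓ)
  have hroot : ∀ n : ℕ, ((γ ^ n : AutO k F L Ω) : Ω ≃+* Ω) s ∈
      (nthRoots (ℓ ^ r) (base k F L Ω E)).toFinset := by
    intro n
    rw [Multiset.mem_toFinset, mem_nthRoots hpos, ← map_pow, hs]
    exact (γ ^ n).2 E
  obtain ⟨a, b, hab, h⟩ := Finite.exists_ne_map_eq_of_infinite
    (fun n : ℕ => (⟨((γ ^ n : AutO k F L Ω) : Ω ≃+* Ω) s, hroot n⟩ :
      {x // x ∈ (nthRoots (ℓ ^ r) (base k F L Ω E)).toFinset}))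
  have hm : ∃ m : ℕ, 0 < m ∧ ((γ ^ m : AutO k F L Ω) : Ω ≃+* Ω) s = s := by
    have h1 : ((γ ^ a : AutO k F L Ω) : Ω ≃+* Ω) s = ((γ ^ b : AutO k F L Ω) : Ω ≃+* Ω) s :=
      congrArg Subtype.val h
    clear h
    wlog hlt : a < b generalizing a b with H
    · exact H b a hab.symm h1.symm (lt_of_le_of_ne (not_lt.mp hlt) hab.symm)
    refine ⟨b - a, Nat.sub_pos_of_lt hlt, ?_⟩
    have e : ((γ ^ b : AutO k F L Ω) : Ω ≃+* Ω) s =
        ((γ ^ a : AutO k F L Ω) : Ω ≃+* Ω) (((γ ^ (b - a) : AutO k F L Ω) : Ω ≃+* Ω) s) := by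
      have e1 : γ ^ b = γ ^ a * γ ^ (b - a) := by
        rw [← pow_add, Nat.add_sub_cancel' hlt.le]
      rw [e1]
      rfl
    rw [e] at h1
    exact (((γ ^ a : AutO k F L Ω) : Ω ≃+* Ω).injective h1).symm
  obtain ⟨m, hm0, hms⟩ := hm
  refine ⟨M₁ * m, Nat.mul_pos hM₁ hm0, fun x hx => ?_⟩
  have hs' : ((γ ^ (M₁ * m) : AutO k F L Ω) : Ω ≃+* Ω) s = s := by
    rw [Nat.mul_comm, pow_mul]
    exact tg02_pow (γ ^ m) hms M₁
  have hp : ∀ p : k'[X], ((γ ^ (M₁ * m) : AutO k F L Ω) : Ω ≃+* Ω) (base k' F L Ω p) =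
      base k' F L Ω p := by
    intro p
    rw [pow_mul]
    refine tg02_pow (γ ^ M₁) ?_ m
    have h1 : base k' F L Ω p =
        algebraMap L Ω (algebraMap F[X] L (p.map (algebraMap k' F))) := rfl
    rw [h1, resF_spec, Polynomial.map_map]
    have h2 : ((resF (γ ^ M₁) : F ≃ₐ[k] F) : F →+* F).comp (algebraMap k' F) =
        algebraMap k' F := by
      refine RingHom.ext fun x => ?_
      rw [map_pow]
      exact hMx x
    rw [h2]
  unfold cover at hx
  induction hx using Subfield.closure_induction with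
  | mem x hx =>
    rcases hx with rfl | ⟨p, rfl⟩
    · exact hs'
    · exact hp p
  | one => exact map_one _
  | add x y _ _ hx hy => rw [map_add, hx, hy]
  | neg x _ hx => rw [map_neg, hx]
  | inv x _ hx => rw [map_inv₀, hx]
  | mul x y _ _ hx hy => rw [map_mul, hx, hy]

end Pool.Agent.Lib.MP_89bcae_ag.Sup

end
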