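import Mathlib
import Pool.Agent.Lib.MP_89bcae_ag.DvrS8
import Pool.Agent.Lib.MP_89bcae_ag.EisD7
import Pool.Agent.Lib.MP_89bcae_ag.SDenE14
import Pool.Agent.Lib.MP_89bcae_ag.SDenF14
import Pool.Agent.Lib.MP_89bcae_ag.Tow.M13
import Pool.Agent.Lib.MP_89bcae_ag.Tow.M14

section

open Polynomial IsDedekindDomain

open scoped Classical

set_option linter.unusedSectionVars false

namespace Pool.Agent.Lib.MP_89bcae_ag.Sup

universe u

variable {k F L Ω : Type u} [Field k] [Field F] [Algebra k F] [Field L] [Algebra F[X] L]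
  [Field Ω] [Algebra L Ω] [IsAlgClosure k F] [IsFractionRing F[X] L] [IsAlgClosure L Ω]
  {ℓ : ℕ} {g E : k[X]} [hG : IsGood ℓ (cOver k F L Ω g 1)] {ζ : k}

lemma tg03_fix (S : Finset Ω) (K₀ : IntermediateField L Ω)
    (hS : IntermediateField.adjoin L (S : Set Ω) = K₀) {σ : Ω ≃ₐ[L] Ω}
    (hσ : ∀ y ∈ S, σ y = y) : ∀ x ∈ K₀, σ x = x := by
  intro x hx
  rw [← hS] at hx
  induction hx using IntermediateField.adjoin_induction with
  | mem x hx => exact hσ x hx
  | algebraMap x => exact σ.commutes x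
  | add x y _ _ h1 h2 => rw [map_add, h1, h2]
  | inv x _ h1 => rw [map_inv₀, h1]
  | mul x y _ _ h1 h2 => rw [map_mul, h1, h2]

/-- The extension by zero of a cochain of `galOver L K`. -/
noncomputable def tg03_ext (K : Subfield Ω)
    (c : ℕ → galOver L K → JacOver ℓ (curvePoly k F L g 1) Ω) : Coch ℓ k F L Ω g 1 :=
  fun n σ => if h : σ ∈ galOver L K then c n ⟨σ, h⟩ else 0

lemma tg03_apply (K : Subfield Ω)
    (c : ℕ → galOver L K → JacOver ℓ (curvePoly k F L g 1) Ω) (n : ℕ) {σ : Ω ≃ₐ[L] Ω}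
    (h : σ ∈ galOver L K) : tg03_ext K c n σ = c n ⟨σ, h⟩ := dif_pos h

lemma tg03_cont {K : Subfield Ω}
    {c : ℕ → galOver L K → JacOver ℓ (curvePoly k F L g 1) Ω}
    (hc : IsTateCocycleOver ℓ (curvePoly k F L g 1) K c) (n : ℕ) :
    ∃ S : Finset Ω, ∀ σ ∈ galOver L K, (∀ y ∈ S, σ y = y) → tg03_ext K c n σ = 0 := by
  have hc1 : c n 1 = 0 := by
    have h2 := hc.cocycle n 1 1
    rw [mul_one] at h2
    have h3 : push ℓ (curvePoly k F L g 1)
        (((1 : galOver L K) : Ω ≃ₐ[L] Ω) : Ω →ₐ[L] Ω) (c n 1) = 0 := by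
      have h4 := add_left_cancel ((add_zero (c n 1)).trans h2)
      exact h4.symm
    have h5 : (((1 : galOver L K) : Ω ≃ₐ[L] Ω)) = 1 := rfl
    rw [h5, push_eq (k := k) (F := F) (g := g) (D := 1), map_one, map_one, symJ_one] at h3
    exact h3
  have hopen : {σ : galOver L K | c n σ = 0} ∈ nhds (1 : galOver L K) :=
    ((hc.locallyConstant n).isOpen_fiber 0).mem_nhds hc1
  rw [nhds_subtype_eq_comap, Filter.mem_comap] at hopen
  obtain ⟨t, ht, hts⟩ := hopen
  obtain ⟨K₀, hK₀, hKt⟩ := (krullTopology_mem_nhds_one_iff L Ω t).1 ht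
  obtain ⟨S, hS⟩ := (IntermediateField.essFiniteType_iff (K := K₀)).1 inferInstance
  refine ⟨S, fun σ hσ hSσ => ?_⟩
  rw [tg03_apply K c n hσ]
  have h1 : σ ∈ t := by
    apply hKt
    rw [SetLike.mem_coe, IntermediateField.mem_fixingSubgroup_iff]
    exact tg03_fix S K₀ hS hSσ
  exact hts (a := (⟨σ, hσ⟩ : galOver L K)) h1

theorem noTateClassOver_of_wws (H : GlobHyp ℓ g E ζ) {r : ℕ} {s : Ω}
    (hs : s ^ ℓ ^ r = base k F L Ω E) (hN : Nrm k F (Nst s : Subgroup (Ω ≃ₐ[L] Ω)))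
    (hT : Trs (cOver k F L Ω g 1) (Nst s : Subgroup (Ω ≃ₐ[L] Ω)))
    (hW : ∀ c : Coch ℓ k F L Ω g 1, WWs (Nst s) c → TTs (Nst s) c)
    (k' : IntermediateField k F) [FiniteDimensional k k'] :
    NoTateClassOver ℓ k F L g 1 (cover k' F L s) := by
  intro c hc hloc hfix
  have hmem : ∀ σ : Ω ≃ₐ[L] Ω, σ ∈ galOver L (cover k' F L s) ↔
      σ ∈ (Nst s : Subgroup (Ω ≃ₐ[L] Ω)) := mem_galOver_cover k' s
  have hζ : IsPrimitiveRoot (zA F L Ω ζ) ℓ := zA_primitive H
  have hTC : TCs (Nst s : Subgroup (Ω ≃ₐ[L] Ω)) (tg03_ext (cover k' F L s) c) := by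
    refine ⟨fun n => ⟨?_, ?_⟩, ?_, ?_⟩
    · intro σ hσ τ hτ
      have hσ' := (hmem σ).2 hσ
      have hτ' := (hmem τ).2 hτ
      rw [tg03_apply _ c n (mul_mem hσ' hτ'), tg03_apply _ c n hσ', tg03_apply _ c n hτ']
      exact hc.cocycle n ⟨σ, hσ'⟩ ⟨τ, hτ'⟩
    · obtain ⟨S, hS⟩ := tg03_cont hc n
      exact ⟨S, fun σ hσ => hS σ ((hmem σ).2 hσ)⟩
    · intro σ hσ
      rw [tg03_apply _ c 0 ((hmem σ).2 hσ)]
      exact hc.zero _
    · intro n σ hσ
      rw [tg03_apply _ c _ ((hmem σ).2 hσ), tg03_apply _ c _ ((hmem σ).2 hσ)]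
      exact hc.smul n _
  have hLT : LTs (Nst s : Subgroup (Ω ≃ₐ[L] Ω)) (tg03_ext (cover k' F L s) c) := by
    intro a n M _ _ _ _ _ j
    obtain ⟨Q, hQ⟩ := hloc (plc a) n M j
    refine ⟨Q, fun σ σ' hσ' hj => ?_⟩
    rw [tg03_apply _ c n ((hmem σ').2 hσ')]
    exact hQ σ ⟨σ', (hmem σ').2 hσ'⟩ hj
  have hWW : WWs (Nst s : Subgroup (Ω ≃ₐ[L] Ω)) (tg03_ext (cover k' F L s) c) := by
    refine ⟨hTC, hLT, fun γ => ?_⟩
    obtain ⟨M, hM, hMx⟩ := exists_pow_cover H.prime.ne_zero k' hs γ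
    refine ⟨M, hM, ?_⟩
    obtain ⟨m, hm, h1⟩ := hfix ((γ ^ M : AutO k F L Ω) : Ω ≃+* Ω) (toSym g 1 (γ ^ M)).2 hMx
    have hcoc : TCs (Nst s : Subgroup (Ω ≃ₐ[L] Ω))
        (Sup.act (γ ^ M) (tg03_ext (cover k' F L s) c) - tg03_ext (cover k' F L s) c) :=
      (hTC.act hN (γ ^ M)).sub hTC
    have hcocm : TCs (Nst s : Subgroup (Ω ≃ₐ[L] Ω))
        (m • (Sup.act (γ ^ M) (tg03_ext (cover k' F L s) c) - tg03_ext (cover k' F L s) c)) := by
      clear h1 hm
      induction m with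
      | zero =>
        rw [zero_smul]
        exact TCs.zero'
      | succ m ih =>
        rw [succ_nsmul]
        exact ih.add hcoc
    refine TTs.of_smul hζ hT hcoc hm ⟨hcocm, fun n => ?_⟩
    obtain ⟨A, hA, hA2⟩ := h1 n
    refine ⟨A, hA, fun σ hσ => ?_⟩
    have hσ' := (hmem σ).2 hσ
    have hτ := (hmem _).2 (hN (γ ^ M)⁻¹ σ hσ)
    have h2 := hA2 ⟨conjG (γ ^ M)⁻¹ σ, hτ⟩ ⟨σ, hσ'⟩ (by
      intro x
      have h2 := conjG_spec (γ ^ M)⁻¹ σ (((γ ^ M : AutO k F L Ω) : Ω ≃+* Ω) x)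
      have h3 : (((γ ^ M)⁻¹ : AutO k F L Ω) : Ω ≃+* Ω)
          (((γ ^ M : AutO k F L Ω) : Ω ≃+* Ω) x) = x :=
        ((γ ^ M : AutO k F L Ω) : Ω ≃+* Ω).symm_apply_apply x
      rw [h3] at h2
      change ((γ ^ M : AutO k F L Ω) : Ω ≃+* Ω) ((conjG (γ ^ M)⁻¹ σ) x) =
        σ (((γ ^ M : AutO k F L Ω) : Ω ≃+* Ω) x)
      rw [h2]
      exact ((γ ^ M : AutO k F L Ω) : Ω ≃+* Ω).apply_symm_apply _)
    rw [← tg03_apply (cover k' F L s) c n hτ, ← tg03_apply (cover k' F L s) c n hσ'] at h2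
    exact h2
  intro n
  obtain ⟨A, hA, hA2⟩ := (hW _ hWW).2 n
  refine ⟨A, hA, fun σ => ?_⟩
  have h1 := hA2 σ.1 ((hmem σ.1).1 σ.2)
  rw [tg03_apply _ c n σ.2] at h1
  exact h1

end Pool.Agent.Lib.MP_89bcae_ag.Sup

end

section

open Polynomial IsDedekindDomain

open scoped Classical

set_option linter.unusedSectionVars false

namespace Pool.Agent.Lib.MP_89bcae_ag.Sup

universe u

lemma exists_zr {k F : Type u} [Field k] [Field F] [Algebra k F] [IsAlgClosure k F] {ℓ : ℕ}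
    (hℓ : ℓ.Prime) {ζ : k} (hζ : IsPrimitiveRoot ζ ℓ) {r : ℕ} (hr : 0 < r) :
    ∃ ζr : F, IsPrimitiveRoot ζr (ℓ ^ r) ∧ ζr ^ ℓ ^ (r - 1) = algebraMap k F ζ := by
  haveI : IsAlgClosed F := IsAlgClosure.isAlgClosed k
  haveI : Fact ℓ.Prime := ⟨hℓ⟩
  obtain ⟨x, hx⟩ := IsAlgClosed.exists_pow_nat_eq (algebraMap k F ζ)
    (pow_pos hℓ.pos (r - 1))
  have hζF : IsPrimitiveRoot (algebraMap k F ζ) ℓ :=
    hζ.map_of_injective (algebraMap k F).injective
  obtain ⟨n, rfl⟩ : ∃ n, r = n + 1 := ⟨r - 1, by omega⟩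
  rw [Nat.add_sub_cancel] at hx
  refine ⟨x, ?_, by rw [Nat.add_sub_cancel]; exact hx⟩
  have h1 : ¬ x ^ ℓ ^ n = 1 := by
    rw [hx]
    exact hζF.ne_one hℓ.one_lt
  have h2 : x ^ ℓ ^ (n + 1) = 1 := by
    rw [pow_succ, pow_mul, hx]
    exact hζF.pow_eq_one
  rw [IsPrimitiveRoot.iff_orderOf]
  exact orderOf_eq_prime_pow h1 h2

lemma CRall.toCR {ℓ : ℕ} {k F : Type u} [Field k] [Field F] [Algebra k F] {g E : k[X]} {ζ : k}
    {U : F ≃ₐ[k] F} {B : Set F} (h : CRall ℓ g E ζ U B) (r : ℕ) : CR ℓ r g E ζ U B :=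
  ⟨h.fix, h.neg, fun μ _ => h.sep μ⟩

section

variable {k F L Ω : Type u} [Field k] [Field F] [Algebra k F] [Field L] [Algebra F[X] L]
  [Field Ω] [Algebra L Ω] [IsAlgClosure k F] [IsFractionRing F[X] L] [IsAlgClosure L Ω]
  [Algebra F Ω] {ℓ : ℕ} {g E : k[X]} [hG : IsGood ℓ (cOver k F L Ω g 1)] {ζ : k}

omit [Algebra F Ω] in
lemma tg04_tcs_mono {N N' : Subgroup (Ω ≃ₐ[L] Ω)} (hN : N' ≤ N) {c : Coch ℓ k F L Ω g 1}
    (hc : TCs N c) : TCs N' c :=
  ⟨fun n => (hc.c1 n).mono hN, fun σ hσ => hc.zero σ (hN hσ),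
    fun n σ hσ => hc.smul n σ (hN hσ)⟩

omit [Algebra F Ω] in
lemma tg04_tts_mono {N N' : Subgroup (Ω ≃ₐ[L] Ω)} (hN : N' ≤ N) {c : Coch ℓ k F L Ω g 1}
    (hc : TTs N c) : TTs N' c := by
  refine ⟨tg04_tcs_mono hN hc.1, fun n => ?_⟩
  obtain ⟨A, hA, hcA⟩ := hc.2 n
  exact ⟨A, hA, fun σ hσ => hcA σ (hN hσ)⟩

omit [Algebra F Ω] in
lemma tg04_pow_smul {N : Subgroup (Ω ≃ₐ[L] Ω)} {c : Coch ℓ k F L Ω g 1}
    (hc : TCs N c) (n : ℕ) {σ : Ω ≃ₐ[L] Ω} (hσ : σ ∈ N) : ℓ ^ n • c n σ = 0 := by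
  induction n with
  | zero => rw [pow_zero, one_smul]; exact hc.zero σ hσ
  | succ n ih => rw [pow_succ, mul_smul, hc.smul n σ hσ]; exact ih

theorem wws_top (hF : CompatF F L Ω) (H : GlobHyp ℓ g E ζ)
    (hCR : ∀ a : F, aeval a E = 0 → ∃ (U : F ≃ₐ[k] F) (B : Set F), a ∈ B ∧ CRall ℓ g E ζ U B)
    {c : Coch ℓ k F L Ω g 1} (hc : WWs ⊤ c) : TTs ⊤ c := by
  haveI : IsAlgClosed Ω := IsAlgClosure.isAlgClosed L
  obtain ⟨ζr, hζr, hpow⟩ := exists_zr (F := F) H.prime H.zeta (r := 1) one_pos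
  obtain ⟨s, hs⟩ := IsAlgClosed.exists_pow_nat_eq (base k F L Ω E) (pow_pos H.prime.pos 1)
  have hD : TowDat (L := L) ℓ 1 g E ζ ζr s := ⟨H, one_pos, hζr, hpow, hs⟩
  have hW : WWs (Nst s) c := by
    refine ⟨tg04_tcs_mono le_top hc.1, hc.2.1.mono le_top, fun γ => ?_⟩
    obtain ⟨M, hM, h⟩ := hc.2.2 γ
    exact ⟨M, hM, tg04_tts_mono le_top h⟩
  have hT := hD.tts_of_wws hF (fun a ha => by
    obtain ⟨U, B, haB, h⟩ := hCR a ha
    exact ⟨U, B, haB, h.toCR 1⟩) hW
  refine ⟨hc.1, fun n => ?_⟩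
  obtain ⟨A, hA, hcA⟩ := hT.2 n
  refine ⟨A, hA, fun γ _ => ?_⟩
  have key : symJ (toSym g 1 (galA k F γ)) A = A + c n γ := by
    refine cob_injN (zA_primitive H) hD.trs n ?_ ?_ fun σ hσ => ?_
    · rw [← map_nsmul, hA, map_zero]
    · rw [smul_add, hA, tg04_pow_smul hc.1 n (Subgroup.mem_top γ), add_zero]
    · have e1 := act1_galA_sub (hc.1.c1 n) (Subgroup.mem_top γ) σ (Subgroup.mem_top σ)
      have e2 := act1_congr hD.nrm (galA k F γ) (x := c n) (y := cob A) hcA σ hσ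
      rw [act1_cob] at e2
      rw [← e2, e1, hcA σ hσ, cob_add]
      rfl
  rw [cob_apply, key]
  abel

end

theorem main_tower {ℓ : ℕ} (k F L Ω : Type u) [Field k] [Field F] [Algebra k F]
    [IsAlgClosure k F] [Field L] [Algebra F[X] L] [IsFractionRing F[X] L] [Field Ω]
    [Algebra L Ω] [IsAlgClosure L Ω] {g E : k[X]} {ζ : k} (H : GlobHyp ℓ g E ζ)
    (hCR : ∀ a : F, aeval a E = 0 → ∃ (U : F ≃ₐ[k] F) (B : Set F), a ∈ B ∧ CRall ℓ g E ζ U B)
    (k' : IntermediateField k F) [FiniteDimensional k k'] (r : ℕ) (s : Ω)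
    (hs : s ^ ℓ ^ r = base k F L Ω E) :
    NoTateClassOver ℓ k F L g 1 (cover k' F L s) := by
  letI : Algebra F Ω := ((algebraMap L Ω).comp ((algebraMap F[X] L).comp C)).toAlgebra
  have hF : CompatF F L Ω := fun c => rfl
  haveI : IsAlgClosed Ω := IsAlgClosure.isAlgClosed L
  haveI : IsGood ℓ (cOver k F L Ω g 1) := goodAll_one H Ω
  rcases Nat.eq_zero_or_pos r with hr | hr
  · subst hr
    have hs' : s = base k F L Ω E := by
      rw [pow_zero, pow_one] at hs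
      exact hs
    have hN : (Nst s : Subgroup (Ω ≃ₐ[L] Ω)) = ⊤ := by
      rw [eq_top_iff]
      intro σ _
      change σ s = s
      rw [hs']
      exact σ.commutes _
    refine noTateClassOver_of_wws H hs ?_ ?_ ?_ k'
    · intro γ σ _
      rw [hN]
      exact Subgroup.mem_top _
    · rw [hN]
      exact trs_top H
    · rw [hN]
      exact fun c hc => wws_top hF H hCR hc
  · obtain ⟨ζr, hζr, hpow⟩ := exists_zr (F := F) H.prime H.zeta hr
    have hD : TowDat (L := L) ℓ r g E ζ ζr s := ⟨H, hr, hζr, hpow, hs⟩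
    refine noTateClassOver_of_wws H hs hD.nrm hD.trs (fun c hc => ?_) k'
    exact hD.tts_of_wws hF (fun a ha => by
      obtain ⟨U, B, haB, h⟩ := hCR a ha
      exact ⟨U, B, haB, h.toCR r⟩) hc

end Pool.Agent.Lib.MP_89bcae_ag.Sup

end

section

/-!
# Towers of superelliptic surfaces with integral coefficients: the arithmetic part
-/

open Polynomial

open scoped Classical

set_option linter.unusedSimpArgs false
set_option linter.unusedVariables false
set_option linter.unusedSectionVars false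
set_option linter.style.haveILetI false

namespace Pool.Agent.Lib.MP_89bcae_ag

lemma aeval_aeval_iff7 {K F : Type*} [Field K] [Field F] [Algebra K F] {g D : K[X]} {b : F} :
    aeval b (D.comp g) = 0 ↔ aeval (aeval b g) D = 0 := by
  rw [aeval_comp]

/-- From the residual data to the vanishing of the invariant classes, for all towers. -/
theorem noTateTower_of_pair7 {ℓ : ℕ} (hℓ : ℓ.Prime) (F L Ω : Type) [Field F] [Algebra ℚ F]
    [IsAlgClosure ℚ F] [Field L] [Algebra F[X] L] [IsFractionRing F[X] L] [Field Ω] [Algebra L Ω]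
    [IsAlgClosure L Ω] {g D : ℤ[X]} (hg : g.Monic) (hcop : g.natDegree.Coprime ℓ) {n : ℕ}
    (hn : 2 ≤ n) (hdegD : D.natDegree = n + 1)
    (hsep : ((D.comp g).map (Int.castRingHom ℚ)).Separable)
    {p : ℕ} (hp : p.Prime) (hp2 : p ≠ 2) (hpℓ : p ≠ ℓ) (hlc : ¬ (p : ℤ) ∣ D.leadingCoeff)
    (hcol : IsCollisionZ8 p g D)
    {q : ℕ} (hq : q.Prime) (hqℓ : q ≠ ℓ) (hqm : ¬ q ∣ g.natDegree)
    (hE1 : (q : ℤ) ∣ D.leadingCoeff) (hE2 : ¬ (q : ℤ) ^ 2 ∣ D.leadingCoeff)
    (hE3 : ¬ (q : ℤ) ∣ D.coeff n)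
    (hE4 : ((D.map (Int.castRingHom (ZMod q))).comp
      (g.map (Int.castRingHom (ZMod q)))).Separable)
    (K : Type) [Field K] [Algebra ℚ K] [Algebra K F] [IsScalarTower ℚ K F] [FiniteDimensional ℚ K]
    [IsGalois ℚ K] {ζ : K}
    (hζ : IsPrimitiveRoot ζ ℓ) (hgen : ∀ σ : K ≃ₐ[ℚ] K, σ ζ = ζ → σ = 1)
    (hX : IsPairTransitive7 K F X (D.map (Int.castRingHom K)))
    (k' : IntermediateField ℚ F) [FiniteDimensional ℚ k'] (r : ℕ) (s : Ω)
    (hs : s ^ ℓ ^ r = base ℚ F L Ω (D.map (Int.castRingHom ℚ))) :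
    Superelliptic.NoTateClassOver ℓ ℚ F L (g.map (Int.castRingHom ℚ)) 1 (cover k' F L s) := by
  have hF : IsAlgClosed F := IsAlgClosure.isAlgClosed ℚ
  have hQF : Algebra.IsAlgebraic ℚ F := IsAlgClosure.isAlgebraic
  have hKFa : Algebra.IsAlgebraic K F := Algebra.IsAlgebraic.tower_top (K := ℚ) K
  have hKF : IsAlgClosure K F := ⟨hF, hKFa⟩
  have hchar : CharZero K := charZero_of_injective_algebraMap (algebraMap ℚ K).injective
  have hg0 : g.natDegree ≠ 0 := by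
    intro h0
    rw [h0, Nat.coprime_zero_left] at hcop
    exact hℓ.one_lt.ne' hcop
  have hinjK : Function.Injective (Int.castRingHom K) := (Int.castRingHom K).injective_int
  have hQK : (algebraMap ℚ K).comp (Int.castRingHom ℚ) = Int.castRingHom K := RingHom.ext_int _ _
  have hmapK : ∀ f : ℤ[X], (f.map (Int.castRingHom ℚ)).map (algebraMap ℚ K) =
      f.map (Int.castRingHom K) := fun f => by rw [Polynomial.map_map, hQK]
  have hsepK : ((D.comp g).map (Int.castRingHom K)).Separable := by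
    rw [← hmapK]
    exact hsep.map
  -- the discrete valuation rings
  have hmapR : ∀ (R : Type) [CommRing R] [Algebra R K] (f : ℤ[X]),
      (f.map (Int.castRingHom R)).map (algebraMap R K) = f.map (Int.castRingHom K) := by
    intro R _ _ f
    rw [Polynomial.map_map]
    congr 1
    exact RingHom.ext_int _ _
  have hinjR : ∀ (R : Type) [CommRing R] [Algebra R K], Function.Injective (Int.castRingHom R) := by
    intro R _ _
    have h1 : Function.Injective ((algebraMap R K).comp (Int.castRingHom R)) := by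
      have h2 : (algebraMap R K).comp (Int.castRingHom R) = Int.castRingHom K := RingHom.ext_int _ _
      rw [h2]
      exact hinjK
    exact Function.Injective.of_comp h1
  -- the place `q`
  have hq2 : IsPairTransitive7 K F (g.map (Int.castRingHom K)) (D.map (Int.castRingHom K)) ∧
      ∀ α : F, aeval α (D.map (Int.castRingHom K)) = 0 → ∃ J : Finset (F ≃ₐ[K] F),
        (∀ x y : F, aeval x (g.map (Int.castRingHom K)) = α →
          aeval y (g.map (Int.castRingHom K)) = α →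
            ∃ σ ∈ J, σ x = y ∧ ∀ τ ∈ J, τ x = y → τ = σ) ∧
        ∀ σ ∈ J, ∀ b : F,
          aeval b ((D.map (Int.castRingHom K)).comp (g.map (Int.castRingHom K))) = 0 →
            aeval b (g.map (Int.castRingHom K)) ≠ α → σ b = b := by
    obtain ⟨R, i1, i2, i3, i4, i5, hR⟩ := exists_dvrK8 hℓ hq hqℓ K hζ hgen
    obtain ⟨φ, hφ⟩ := residue_map8 hq hR
    have hR1 : ∀ z : ℤ, (z : R) ∈ IsLocalRing.maximalIdeal R ↔ (q : ℤ) ∣ z := by
      intro z
      have h1 := hR z 1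
      rwa [pow_one, pow_one] at h1
    have hDdeg : (D.map (Int.castRingHom R)).natDegree = n + 1 := by
      rw [natDegree_map_eq_of_injective (hinjR R), hdegD]
    have hDlc : (D.map (Int.castRingHom R)).leadingCoeff = ((D.leadingCoeff : ℤ) : R) := by
      rw [leadingCoeff_map_of_injective (hinjR R)]
      rfl
    have hgmR : ((g.map (Int.castRingHom R)).natDegree : IsLocalRing.ResidueField R) ≠ 0 := by
      rw [hg.natDegree_map]
      intro h0
      have h1 : IsLocalRing.residue R ((g.natDegree : ℤ) : R) = 0 := by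
        rw [Int.cast_natCast, map_natCast]
        exact h0
      rw [IsLocalRing.residue_eq_zero_iff, hR1] at h1
      exact hqm (Int.natCast_dvd_natCast.mp h1)
    have hq1 : (D.map (Int.castRingHom R)).leadingCoeff ∈ IsLocalRing.maximalIdeal R := by
      rw [hDlc, hR1]; exact hE1
    have hq2 : (D.map (Int.castRingHom R)).leadingCoeff ∉ IsLocalRing.maximalIdeal R ^ 2 := by
      rw [hDlc, hR]; exact hE2
    have hq3 : (D.map (Int.castRingHom R)).coeff n ∉ IsLocalRing.maximalIdeal R := by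
      rw [coeff_map]
      have h1 : Int.castRingHom R (D.coeff n) = ((D.coeff n : ℤ) : R) := rfl
      rw [h1, hR1]
      exact hE3
    have hq4 : (((D.map (Int.castRingHom R)).map (IsLocalRing.residue R)).comp
        ((g.map (Int.castRingHom R)).map (IsLocalRing.residue R))).Separable := by
      rw [hφ, hφ, ← Polynomial.map_comp]
      exact hE4.map
    have hq5 : (((D.map (Int.castRingHom R)).comp (g.map (Int.castRingHom R))).map
        (algebraMap R K)).Separable := by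
      rw [← Polynomial.map_comp, hmapR]; exact hsepK
    have hq6 : IsPairTransitive7 K F X ((D.map (Int.castRingHom R)).map (algebraMap R K)) := by
      rw [hmapR]; exact hX
    have h := isPairTransitive_of_cycle7 R K F (g := g.map (Int.castRingHom R))
      (D := D.map (Int.castRingHom R)) (hg.map _) hgmR hDdeg hq1 hq2 hq3 hq4 hq5 hq6
    rw [hmapR, hmapR] at h
    refine ⟨h, fun α hα => ?_⟩
    have h' := exists_simply_transitive R K F (g := g.map (Int.castRingHom R))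
      (D := D.map (Int.castRingHom R)) (hg.map _) hgmR hDdeg hq1 hq2 hq3 hq4 hq5 hq6 α
      (by rw [hmapR]; exact hα)
    rw [hmapR, hmapR] at h'
    exact h'
  obtain ⟨htr, hJ⟩ := hq2
  have hdegK : (D.map (Int.castRingHom K)).natDegree = n + 1 := by
    rw [natDegree_map_eq_of_injective hinjK, hdegD]
  have H : Sup.GlobHyp ℓ (g.map (Int.castRingHom K)) (D.map (Int.castRingHom K)) ζ :=
    ⟨hℓ, by exact_mod_cast hℓ.ne_zero, hζ, hg.map _, by rw [hg.natDegree_map]; exact hcop,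
      by rw [← Polynomial.map_comp]; exact hsepK, by rw [hdegK]; omega⟩
  -- the criterion
  have hCR := Sup.exists_cRall (F := F) H (by rw [hdegK]; omega) hJ (by
    obtain ⟨R, i1, i2, i3, i4, i5, hR⟩ := exists_dvrK8 hℓ hp hpℓ K hζ hgen
    have hR1 : ∀ z : ℤ, ¬ (p : ℤ) ∣ z → IsUnit (z : R) := by
      intro z hz
      have h1 := hR z 1
      rw [pow_one, pow_one] at h1
      rw [← IsLocalRing.notMem_maximalIdeal, h1]
      exact hz
    have h2 : IsUnit (2 : R) := by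
      have h1 := hR1 2 (by
        intro h
        have h3 : p ∣ 2 := by exact_mod_cast h
        exact hp2 ((Nat.prime_dvd_prime_iff_eq hp Nat.prime_two).mp h3))
      simpa using h1
    have hDlc : (D.map (Int.castRingHom R)).leadingCoeff = ((D.leadingCoeff : ℤ) : R) := by
      rw [leadingCoeff_map_of_injective (hinjR R)]
      rfl
    intro α α' hα hα' hne
    have h := Sup.exists_mOrd R K F h2 (g := g.map (Int.castRingHom R))
      (D := D.map (Int.castRingHom R)) (hg.map _) (by rw [hg.natDegree_map]; exact hg0)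
      (by rw [hDlc]; exact hR1 _ hlc) (isCollision7_of_Z8 hp hR hcol)
      (by rw [← Polynomial.map_comp, hmapR]; exact hsepK)
      (by rw [hmapR, hmapR]; exact htr)
      (Sup.RR F (g.map (Int.castRingHom K)) (D.map (Int.castRingHom K)))
      (fun b => by rw [hmapR, hmapR]; exact Sup.mem_RR H) (α := α) (α' := α')
      (by rw [hmapR]; exact hα) (by rw [hmapR]; exact hα') hne
    rw [hmapR] at h
    exact h)
  -- the vanishing over `K`
  obtain ⟨K', hK', hle⟩ := Superelliptic.exists_finite8 (K := K) k'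
  have hs' : s ^ ℓ ^ r = base K F L Ω (D.map (Int.castRingHom K)) := by
    rw [hs, ← hmapK]
    exact (Superelliptic.base_map8 (K := K) _).symm
  have hmain := Sup.main_tower K F L Ω H hCR K' r s hs'
  have h := Superelliptic.NoTateClassOver.ofSup hmain
  apply Superelliptic.noTateClassOver_base (K := K) hle
  rw [hmapK]
  exact h

end Pool.Agent.Lib.MP_89bcae_ag

end

section

/-!
# Towers of superelliptic surfaces with integral coefficients: density one
-/

open Polynomial Filter Topology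

open scoped Classical

set_option linter.unusedSimpArgs false
set_option linter.unusedVariables false
set_option linter.unusedSectionVars false
set_option linter.style.haveILetI false

namespace Pool.Agent.Lib.MP_89bcae_ag

/-- **Density one**, with the cyclotomic field as an argument. -/
theorem superTower7' {ℓ : ℕ} (hℓ : ℓ.Prime) (F L Ω : Type) [Field F] [Algebra ℚ F]
    [IsAlgClosure ℚ F] [Field L] [Algebra F[X] L] [IsFractionRing F[X] L] [Field Ω] [Algebra L Ω]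
    [IsAlgClosure L Ω] {g : ℤ[X]} (hg : g.Monic) (hcop : g.natDegree.Coprime ℓ) {n : ℕ}
    (hn : 3 ≤ n) (K : Type) [Field K] [Algebra ℚ K] [IsCyclotomicExtension {ℓ} ℚ K] :
    Tendsto (fun H : ℕ => ({a : Fin (n + 1) → ℤ | (∀ i, |a i| ≤ H) ∧
      ((vecPoly7 a).natDegree = n ∧ (((vecPoly7 a).comp g).map (Int.castRingHom ℚ)).Separable ∧
        Superelliptic.NoTateTowerNumberField ℓ F L Ω g (vecPoly7 a))}.ncard : ℝ) /
          (2 * H + 1) ^ (n + 1)) atTop (𝓝 1) := by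
  haveI : NeZero ℓ := ⟨hℓ.ne_zero⟩
  have hg0 : g.natDegree ≠ 0 := by
    intro h0
    rw [h0, Nat.coprime_zero_left] at hcop
    exact hℓ.one_lt.ne' hcop
  have hF : IsAlgClosed F := IsAlgClosure.isAlgClosed ℚ
  have hQF : Algebra.IsAlgebraic ℚ F := IsAlgClosure.isAlgebraic
  -- the cyclotomic field
  haveI hfin : FiniteDimensional ℚ K := IsCyclotomicExtension.finiteDimensional {ℓ} ℚ K
  haveI hgal : IsGalois ℚ K := IsCyclotomicExtension.isGalois {ℓ} ℚ K
  let e : K →ₐ[ℚ] F := IsAlgClosed.lift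
  letI : Algebra K F := e.toRingHom.toAlgebra
  haveI : IsScalarTower ℚ K F := IsScalarTower.of_algebraMap_eq fun x => (e.commutes x).symm
  haveI hKFa : Algebra.IsAlgebraic K F := Algebra.IsAlgebraic.tower_top (K := ℚ) K
  have hζ : IsPrimitiveRoot (IsCyclotomicExtension.zeta ℓ ℚ K) ℓ :=
    IsCyclotomicExtension.zeta_spec ℓ ℚ K
  have hgen : ∀ σ : K ≃ₐ[ℚ] K, σ (IsCyclotomicExtension.zeta ℓ ℚ K) =
      IsCyclotomicExtension.zeta ℓ ℚ K → σ = 1 := by
    intro σ hσ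
    apply AlgEquiv.coe_toAlgHom_injective
    apply (hζ.powerBasis ℚ).algHom_ext
    rw [IsPrimitiveRoot.powerBasis_gen]
    simpa using hσ
  refine superDensity14 ℓ hg hg0 hn (ℓ + 3 + g.natDegree) _ ?_
  intro a hdeg hsep hA hB hC hE
  refine ⟨hdeg, hsep, ?_⟩
  intro k' hk'
  obtain ⟨pA, fA, -, hA1, hA2⟩ := hA
  obtain ⟨pB, fB, -, hB1, hB2⟩ := hB
  obtain ⟨p, hp, hpP, -, hcol, hlc⟩ := hC
  obtain ⟨q, hq, hqP, -, hE1, hE2, hE3, hE4⟩ := hE
  have hX := (pair2_cyclotomic14 hℓ (k := K) (F := F) hA1 hB1 (D := vecPoly7 a) (n := n)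
    hdeg.le hn hA2 hB2).2
  have hco : (vecPoly7 a).coeff n = (vecPoly7 a).leadingCoeff := by
    rw [leadingCoeff, hdeg]
  rw [hco] at hlc hE1 hE2
  obtain ⟨m, rfl⟩ : ∃ m, n = m + 1 := ⟨n - 1, by omega⟩
  intro r s hs
  refine noTateTower_of_pair7 hℓ F L Ω hg hcop (n := m) (by omega) hdeg hsep hp (by omega)
    (by omega) hlc hcol hq (by omega) (fun h => ?_) hE1 hE2 hE3 hE4 K hζ hgen hX k' r s hs
  have h1 := Nat.le_of_dvd (Nat.pos_of_ne_zero hg0) h
  omega

/-- **Density one.** -/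
theorem superTower7 {ℓ : ℕ} (hℓ : ℓ.Prime) (F L Ω : Type) [Field F] [Algebra ℚ F]
    [IsAlgClosure ℚ F] [Field L] [Algebra F[X] L] [IsFractionRing F[X] L] [Field Ω] [Algebra L Ω]
    [IsAlgClosure L Ω] {g : ℤ[X]} (hg : g.Monic) (hcop : g.natDegree.Coprime ℓ) {n : ℕ}
    (hn : 3 ≤ n) :
    Tendsto (fun H : ℕ => ({a : Fin (n + 1) → ℤ | (∀ i, |a i| ≤ H) ∧
      ((vecPoly7 a).natDegree = n ∧ (((vecPoly7 a).comp g).map (Int.castRingHom ℚ)).Separable ∧
        Superelliptic.NoTateTowerNumberField ℓ F L Ω g (vecPoly7 a))}.ncard : ℝ) /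
          (2 * H + 1) ^ (n + 1)) atTop (𝓝 1) := by
  haveI : NeZero ℓ := ⟨hℓ.ne_zero⟩
  exact @superTower7' ℓ hℓ F L Ω _ _ _ _ _ _ _ _ _ g hg hcop n hn (CyclotomicField ℓ ℚ) _
    (CyclotomicField.algebra ℓ ℚ) inferInstance

end Pool.Agent.Lib.MP_89bcae_ag

end
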